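import Pool.Agent.Helper99.TT.Defs

/-! TT-G2: readings and the arithmetical form of the canonization theorem (8.2), definitions. -/

set_option autoImplicit false

namespace Helper99.TT

/-- names of finite strings: `R b x` is a finite string assigned to the real piece `b` of the fat node
`x` -/
abbrev Rd := List H → Node → List Bool

/-- `R` is a reading on `(a, q)` -/
structure Reading (R : Rd) (q : Cond) (a : List H) : Prop where
  mono : ∀ x ∈ q.F, ∀ y ∈ q.F, x <+: y → ∀ b c, IsReal q a x b → IsReal q a y c → b <+: c →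
    R b x <+: R c y
  long : ∀ n : ℕ, ∃ K : ℕ, ∀ x ∈ q.F, K ≤ plc x → ∀ b, IsReal q a x b → n ≤ (R b x).length

/-- the function of a reading -/
noncomputable def rdFn (R : Rd) (q : Cond) : Fn := fun A B i => by
  classical exact
  if ∃ x ∈ q.F, Thru B x ∧ (R (preA A (plc x)) x)[i]? = some true then true else false

/-- two strings agree as far as both are defined -/
def Cmp (s t : List Bool) : Prop := s <+: t ∨ t <+: s

/-- (C0') -/
def A0 (R : Rd) (q : Cond) (a : List H) : Prop :=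
  ∀ x ∈ q.F, ∀ y ∈ q.F, ∀ b c, IsReal q a x b → IsReal q a y c → Cmp (R b x) (R c y)

/-- (C1') -/
def A1 (R : Rd) (q : Cond) (a : List H) (n : ℕ) : Prop :=
  (∀ x ∈ q.F, ∀ y ∈ q.F, ∀ b c, IsReal q a x b → IsReal q a y c →
    (∀ p, p < plc x → p < plc y → Eqv n (b.getD p 0) (c.getD p 0)) → Cmp (R b x) (R c y)) ∧
  (∀ m : ℕ, ∃ l : ℕ, ∀ x ∈ q.F, ∀ y ∈ q.F, m ≤ plc x → m ≤ plc y → ∀ b c, IsReal q a x b →
    IsReal q a y c → l ≤ (R b x).length → l ≤ (R c y).length →
    (∃ p, p < m ∧ ¬ Eqv n (b.getD p 0) (c.getD p 0)) → ¬ Cmp ((R b x).take l) ((R c y).take l))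

/-- (DEC') -/
def ADec (R : Rd) (q : Cond) (a : List H) : Prop :=
  ∀ x ∈ q.F, ∃ l : ℕ, ∀ y ∈ q.F, ∀ z ∈ q.F, x <+: y → ¬ x <+: z → ¬ z <+: x → ∀ b c,
    IsReal q a y b → IsReal q a z c → l ≤ (R b y).length → l ≤ (R c z).length →
      (R b y).take l ≠ (R c z).take l

/-- (C2') -/
def A2 (R : Rd) (q : Cond) (a : List H) : Prop :=
  (∀ x ∈ q.F, ∀ b c, IsReal q a x b → IsReal q a x c → Cmp (R b x) (R c x)) ∧ ADec R q a

/-- (C3') -/
def A3 (R : Rd) (q : Cond) (a : List H) : Prop :=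
  ADec R q a ∧ ∀ x ∈ q.F, ∀ b b', IsReal q a x b → IsReal q a x b' → b ≠ b' → ∃ l : ℕ,
    ∀ y ∈ q.F, x <+: y → ∀ z ∈ q.F, x <+: z → ∀ c c', IsReal q a y c → IsReal q a z c' →
      b <+: c → b' <+: c' → l ≤ (R c y).length → l ≤ (R c' z).length →
      (R c y).take l ≠ (R c' z).take l

/-- the arithmetical form of canonicity -/
def ACan (R : Rd) (q : Cond) (a : List H) : Prop :=
  A0 R q a ∨ (∃ n, A1 R q a n) ∨ A2 R q a ∨ A3 R q a

end Helper99.TT
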