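import Pool.Agent.Helper99.TT.Ops

/-! TT-B4: the graft (3.2). -/

set_option autoImplicit false

namespace Helper99.TT

theorem gr88_graftV_lt {q q' : Cond} {x : Node} {y : List H} {p : ℕ} (hp : p < plc x) :
    graftV q x y q' p = q.V p := by
  unfold graftV
  rw [if_pos hp]

theorem gr88_graftV_mid {q q' : Cond} {x : Node} {y : List H} {p : ℕ} (hp : plc x ≤ p)
    (hp' : p < plc q'.t) : graftV q x y q' p = {y.getD (p - plc x) 0} := by
  unfold graftV
  rw [if_neg (by omega), if_pos hp']

theorem gr88_graftV_ge {q q' : Cond} {x : Node} {y : List H} {p : ℕ} (hx : plc x ≤ p)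
    (hp : plc q'.t ≤ p) : graftV q x y q' p = q'.V p := by
  unfold graftV
  rw [if_neg (by omega), if_neg (by omega)]

theorem gr88_le_prefix {q q' : Cond} {x : Node} {y : List H} (h : Le y q' (q.cone x)) :
    x <+: q'.t := h.1.2

theorem graftV_sub {q q' : Cond} (hq : Good q) (hq' : Good q') {x : Node} (hx : x ∈ q.F)
    {y : List H} (h : Le y q' (q.cone x)) : SubX (plc q.t) (graftV q x y q') q.V := by
  intro i _
  obtain ⟨h1, h2, h3, h4, h5⟩ := h
  have h6 : plc x ≤ plc q'.t := plc_mono h1.2
  have h7 : plc x + y.length = plc q'.t := h2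
  rcases Nat.lt_or_ge i (plc x) with hi | hi
  · rw [gr88_graftV_lt hi]
  · rcases Nat.lt_or_ge i (plc q'.t) with hi' | hi'
    · rw [gr88_graftV_mid hi hi', Finset.singleton_subset_iff]
      have h8 := (h3 (i - plc x) (by omega)).1
      have h9 : y.getD (i - plc x) 0 ∈ q.V (plc x + (i - plc x)) := h8
      rw [show plc x + (i - plc x) = i by omega] at h9
      exact h9
    · rw [gr88_graftV_ge hi hi']
      exact h4 i hi'

theorem graftV_isX {q q' : Cond} (hq : Good q) (hq' : Good q') (x : Node) (y : List H) :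
    IsX (graftV q x y q') := by
  refine ⟨fun i => ?_, fun M N => ?_⟩
  · unfold graftV
    split_ifs
    · exact hq.isX.1 i
    · exact Finset.singleton_nonempty _
    · exact hq'.isX.1 i
  · obtain ⟨i, hi, hM⟩ := hq'.isX.2 M (max N (max (plc x) (plc q'.t)))
    have h1 := le_max_left N (max (plc x) (plc q'.t))
    have h2 := le_max_right N (max (plc x) (plc q'.t))
    have h3 := le_max_left (plc x) (plc q'.t)
    have h4 := le_max_right (plc x) (plc q'.t)
    refine ⟨i, by omega, ?_⟩
    rw [gr88_graftV_ge (by omega) (by omega)]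
    exact hM

/-- a nonempty subset of a singleton is the singleton -/
theorem gr88_eq_singleton_of_sub {V W : Finset H} {c : H} (h : W ⊆ V) (hW : W.Nonempty)
    (hV : V = {c}) : W = {c} := by
  rw [hV] at h
  rcases Finset.subset_singleton_iff.1 h with h1 | h1
  · rw [h1] at hW
    exact absurd hW Finset.not_nonempty_empty
  · exact h1

/-- the gap of a fat node in the smaller family -/
theorem gr88_gapExt_sub {V W : Fam} {k : ℕ} {x y : Node} (hs : SubX k W V) (hne : ∀ p, (W p).Nonempty)
    (hk : k ≤ plc x) (h : GapExt V x y) : GapExt W x y := by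
  refine ⟨h.1, fun p hp hp' => ?_⟩
  obtain ⟨z, hz, hz'⟩ := h.2 p hp hp'
  exact ⟨z, gr88_eq_singleton_of_sub (hs p (hk.trans hp)) (hne p) hz, hz'⟩

theorem gr88_sstep_sub {V W : Fam} {k : ℕ} {x : Node} {s : Step} (hs : SubX k W V) (hk : k ≤ plc x)
    (h : SStep W x s) : SStep V x s := by
  obtain ⟨h1, h2, h3, h4⟩ := h
  refine ⟨path_iff.2 fun i hi => hs _ (by omega) (path_iff.1 h1 i hi), hs _ (by omega) h2,
    hs _ (by omega) h3, h4⟩

theorem gr88_sstep_congr {V W : Fam} {x : Node} {s : Step}
    (h : ∀ p, plc x ≤ p → p ≤ plc x + s.u.length → W p = V p) : SStep W x s ↔ SStep V x s := by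
  unfold SStep
  rw [h (plc x + s.u.length) (by omega) le_rfl, path_iff, path_iff]
  have : (∀ i, i < s.u.length → s.u.getD i 0 ∈ W (plc x + i)) ↔
      (∀ i, i < s.u.length → s.u.getD i 0 ∈ V (plc x + i)) := by
    refine forall₂_congr fun i hi => ?_
    rw [h (plc x + i) (by omega) (by omega)]
  rw [this]

theorem gr88_gapExt_congr {V W : Fam} {x y : Node} (h : ∀ p, plc x ≤ p → p < plc y → W p = V p)
    (hg : GapExt V x y) : GapExt W x y := by
  refine ⟨hg.1, fun p hp hp' => ?_⟩
  rw [h p hp hp']
  exact hg.2 p hp hp'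

theorem gr88_fit_prefix {V W : Fam} {k : ℕ} {x y : Node} (h : x <+: y) (hf : Fit V W k y) :
    Fit V W k x := by
  intro p hp hp' a ha haV
  refine hf p hp (hp'.trans_le (plc_mono h)) a ?_ haV
  rw [ent_prefix h hp']
  exact ha

/-- a step of a fitting node is a step of the smaller family -/
theorem gr88_sstep_of_fit {V W : Fam} {k : ℕ} {x y : Node} {s : Step} (hk : k ≤ plc x)
    (hp : (x ++ [s]) <+: y) (hf : Fit V W k y) (h : SStep V x s) : SStep W x s := by
  have hf' := gr88_fit_prefix hp hf
  have hlen : plc (x ++ [s]) = plc x + (s.u.length + 1) := by rw [plc_append, plc_singleton]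
  obtain ⟨h1, h2, h3, h4⟩ := h
  have hlast : ent (x ++ [s]) (plc x + s.u.length) = {s.v, s.w} := by
    rw [ent_append_right, ent_singleton_last]
  refine ⟨path_iff.2 fun i hi => ?_, ?_, ?_, h4⟩
  · refine hf' (plc x + i) (by omega) (by omega) _ ?_ (path_iff.1 h1 i hi)
    rw [ent_append_right, ent_singleton_lt hi]
    exact Finset.mem_singleton_self _
  · refine hf' (plc x + s.u.length) (by omega) (by omega) _ ?_ h2
    rw [hlast]
    exact Finset.mem_insert_self _ _
  · refine hf' (plc x + s.u.length) (by omega) (by omega) _ ?_ h3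
    rw [hlast]
    exact Finset.mem_insert_of_mem (Finset.mem_singleton_self _)

/-- a fitting node followed by a step of the smaller family fits -/
theorem gr88_fit_append {V W : Fam} {k : ℕ} {x : Node} {s : Step} (hf : Fit V W k x)
    (h : SStep W x s) : Fit V W k (x ++ [s]) := by
  intro p hp hp' a ha haV
  rw [plc_append, plc_singleton] at hp'
  rcases Nat.lt_or_ge p (plc x) with h1 | h1
  · rw [ent_append_left x [s] h1] at ha
    exact hf p hp h1 a ha haV
  · obtain ⟨i, rfl⟩ := Nat.exists_eq_add_of_le h1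
    rw [ent_append_right] at ha
    rcases Nat.lt_or_ge i s.u.length with h2 | h2
    · rw [ent_singleton_lt h2, Finset.mem_singleton] at ha
      rw [ha]
      exact path_iff.1 h.1 i h2
    · have h3 : i = s.u.length := by omega
      subst h3
      rw [ent_singleton_last, Finset.mem_insert, Finset.mem_singleton] at ha
      rcases ha with rfl | rfl
      · exact h.2.1
      · exact h.2.2.1

/-- a gap extension of a fitting node fits -/
theorem gr88_fit_gap {V W : Fam} {k : ℕ} {x y : Node} (hs : SubX k W V) (hne : ∀ p, (W p).Nonempty)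
    (hf : Fit V W k x) (hg : GapExt V x y) : Fit V W k y := by
  intro p hp hp' a ha haV
  rcases Nat.lt_or_ge p (plc x) with h1 | h1
  · rw [ent_prefix hg.1 h1] at ha
    exact hf p hp h1 a ha haV
  · obtain ⟨z, hz, _⟩ := hg.2 p h1 hp'
    rw [gr88_eq_singleton_of_sub (hs p hp) (hne p) hz]
    rw [hz] at haV
    exact haV

/-- the gap at the place of the graft -/
theorem gr88_graft_gap {q q' : Cond} {x z : Node} {y : List H} (h : Le y q' (q.cone x))
    (hg : GapExt q.V z x) : GapExt (graftV q x y q') z q'.t := by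
  have hpre := gr88_le_prefix h
  obtain ⟨h1, h2, h3, h4, h5⟩ := h
  have h7 : plc x + y.length = plc q'.t := h2
  refine ⟨hg.1.trans hpre, fun p hp hp' => ?_⟩
  rcases Nat.lt_or_ge p (plc x) with h8 | h8
  · obtain ⟨c, hc, hc'⟩ := hg.2 p hp h8
    refine ⟨c, ?_, ?_⟩
    · rw [gr88_graftV_lt h8]
      exact hc
    · rw [ent_prefix hpre h8]
      exact hc'
  · refine ⟨y.getD (p - plc x) 0, gr88_graftV_mid h8 hp', ?_⟩
    have h9 : y.getD (p - plc x) 0 ∈ ent q'.t (plc x + (p - plc x)) :=
      (h3 (p - plc x) (by omega)).2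
    rw [show plc x + (p - plc x) = p by omega] at h9
    exact h9

theorem graft_good {q q' : Cond} (hq : Good q) (hq' : Good q') {x : Node} (hx : x ∈ q.F)
    (hxt : x ≠ q.t) {y : List H} (h : Le y q' (q.cone x)) : Good (q.graft x y q') := by
  have hsub := graftV_sub hq hq' hx h
  have hX := graftV_isX hq hq' x y
  have hpre := gr88_le_prefix h
  have hplc := plc_mono hpre
  have hFq : ∀ z ∈ q'.F, z ∈ q.F := fun z hz => (h.2.2.2.2 hz).1
  have hxF : ∀ z ∈ q'.F, x <+: z := fun z hz => (h.2.2.2.2 hz).2
  have hF : ∀ z ∈ (q.graft x y q').F, z ∈ q.F := by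
    rintro z (hz | hz)
    · exact hz.1
    · exact hFq z hz
  have hF2 : ∀ z ∈ (q.graft x y q').F, x <+: z → z ∈ q'.F := by
    rintro z (hz | hz) hxz
    · exact absurd hxz hz.2.2
    · exact hz
  refine ⟨hX, ?_, fun z hz => hq.above z (hF z hz), fun z hz => hq.idx z (hF z hz), ?_, ?_⟩
  · left
    refine ⟨hq.stem, fun p hp hp' => absurd hp' (not_lt.2 hp), fun hc => hxt ?_⟩
    exact List.IsPrefix.eq_of_length_le hc (hq.above x hx).length_le
  · intro z hz s hs
    change SStep (graftV q x y q') z s at hs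
    change ∃ y1 ∈ (q.graft x y q').F, GapExt (graftV q x y q') (z ++ [s]) y1 ∧
      ∀ z1 ∈ (q.graft x y q').F, (z ++ [s]) <+: z1 → y1 <+: z1
    rcases hz with ⟨hz1, hz2, hz3⟩ | hz
    · have htz : plc q.t ≤ plc z := plc_mono (hq.above z hz1)
      have hs' : SStep q.V z s := gr88_sstep_sub hsub htz hs
      obtain ⟨y0, hy0, hg, hmin⟩ := hq.succ z hz1 s hs'
      by_cases hxy : x <+: y0
      · rcases hq.between hz1 hs' hy0 hg hx hxy with he | he
        · subst he
          refine ⟨q'.t, Or.inr hq'.stem, gr88_graft_gap h hg, fun z' hz' hzz' => ?_⟩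
          exact hq'.above z' (hF2 z' hz' (hmin z' (hF z' hz') hzz'))
        · exact absurd he hz3
      · refine ⟨y0, Or.inl ⟨hy0, gr88_fit_gap hsub hX.1 (gr88_fit_append hz2 hs) hg, hxy⟩, ?_, ?_⟩
        · refine gr88_gapExt_sub hsub hX.1 ?_ hg
          exact htz.trans (plc_mono (prefix_append_single z s))
        · exact fun z' hz' hzz' => hmin z' (hF z' hz') hzz'
    · have htz : plc q'.t ≤ plc z := plc_mono (hq'.above z hz)
      have hs' : SStep q'.V z s :=
        (gr88_sstep_congr fun p hp _ => gr88_graftV_ge (by omega) (by omega)).1 hs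
      obtain ⟨y0, hy0, hg, hmin⟩ := hq'.succ z hz s hs'
      refine ⟨y0, Or.inr hy0, ?_, ?_⟩
      · refine gr88_gapExt_congr (fun p hp _ => ?_) hg
        have := plc_mono (prefix_append_single z s)
        exact gr88_graftV_ge (by omega) (by omega)
      · intro z' hz' hzz'
        exact hmin z' (hF2 z' hz' ((hxF z hz).trans ((prefix_append_single z s).trans hzz'))) hzz'
  · intro y0 hy0 hy0t
    change y0 ≠ q.t at hy0t
    change ∃ x1 ∈ (q.graft x y q').F, ∃ s, SStep (graftV q x y q') x1 s ∧
      GapExt (graftV q x y q') (x1 ++ [s]) y0 ∧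
      ∀ z1 ∈ (q.graft x y q').F, z1 <+: y0 → z1 = y0 ∨ z1 <+: x1
    rcases hy0 with ⟨hz1, hz2, hz3⟩ | hy0
    · obtain ⟨x1, hx1, s, hs, hg, hmax⟩ := hq.pred y0 hz1 hy0t
      have hx1y : x1 <+: y0 := (prefix_append_single x1 s).trans hg.1
      have htx1 : plc q.t ≤ plc x1 := plc_mono (hq.above x1 hx1)
      refine ⟨x1, Or.inl ⟨hx1, gr88_fit_prefix hx1y hz2, fun hc => hz3 (hc.trans hx1y)⟩, s,
        gr88_sstep_of_fit htx1 hg.1 hz2 hs, ?_, fun z hz hzy => hmax z (hF z hz) hzy⟩
      refine gr88_gapExt_sub hsub hX.1 ?_ hg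
      exact htx1.trans (plc_mono (prefix_append_single x1 s))
    · by_cases hyt : y0 = q'.t
      · subst hyt
        obtain ⟨x1, hx1, s, hs, hg, hmax⟩ := hq.pred x hx hxt
        have hx1x : x1 <+: x := (prefix_append_single x1 s).trans hg.1
        have hlt := length_lt_of_gap hg
        have hp1 : plc (x1 ++ [s]) ≤ plc x := plc_mono hg.1
        rw [plc_append, plc_singleton] at hp1
        refine ⟨x1, Or.inl ⟨hx1, ?_, fun hc => ?_⟩, s, ?_, gr88_graft_gap h hg, ?_⟩
        · intro p hp hp' a ha haV
          rw [gr88_graftV_lt (by omega)]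
          exact haV
        · have := hc.length_le
          omega
        · exact (gr88_sstep_congr fun p hp hp' => gr88_graftV_lt (by omega)).2 hs
        · intro z hz hzt
          rcases hz with ⟨hz1, hz2, hz3⟩ | hz
          · right
            rcases List.prefix_or_prefix_of_prefix hzt hpre with h1 | h1
            · rcases hmax z hz1 h1 with h2 | h2
              · exact absurd (h2 ▸ List.prefix_refl _) hz3
              · exact h2
            · exact absurd h1 hz3
          · left
            exact List.IsPrefix.eq_of_length_le hzt (hq'.above z hz).length_le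
      · obtain ⟨x1, hx1, s, hs, hg, hmax⟩ := hq'.pred y0 hy0 hyt
        have hx1y : x1 <+: y0 := (prefix_append_single x1 s).trans hg.1
        have htx1 : plc q'.t ≤ plc x1 := plc_mono (hq'.above x1 hx1)
        refine ⟨x1, Or.inr hx1, s, ?_, ?_, ?_⟩
        · exact (gr88_sstep_congr fun p hp hp' => gr88_graftV_ge (by omega) (by omega)).2 hs
        · refine gr88_gapExt_congr (fun p hp _ => ?_) hg
          have := plc_mono (prefix_append_single x1 s)
          exact gr88_graftV_ge (by omega) (by omega)
        · intro z hz hzy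
          rcases hz with ⟨hz1, hz2, hz3⟩ | hz
          · right
            rcases List.prefix_or_prefix_of_prefix hzy hx1y with h1 | h1
            · exact h1
            · exact absurd ((hxF x1 hx1).trans h1) hz3
          · exact hmax z hz hzy

theorem graft_leS {q q' : Cond} (hq : Good q) (hq' : Good q') {x : Node} (hx : x ∈ q.F)
    {y : List H} (h : Le y q' (q.cone x)) : LeS (q.graft x y q') q := by
  refine ⟨rfl, graftV_sub hq hq' hx h, ?_⟩
  rintro z (hz | hz)
  · exact hz.1
  · exact (h.2.2.2.2 hz).1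

/-- the cone of the graft at the new node is (up to the irrelevant places of `V`) the condition
that has been grafted -/
theorem graft_cone_leS {q q' : Cond} (hq : Good q) (hq' : Good q') {x : Node} (hx : x ∈ q.F)
    (hxt : x ≠ q.t) {y : List H} (h : Le y q' (q.cone x)) :
    LeS ((q.graft x y q').cone q'.t) q' := by
  have hplc := plc_mono (gr88_le_prefix h)
  refine ⟨rfl, fun i hi => ?_, ?_⟩
  · change graftV q x y q' i ⊆ q'.V i
    rw [gr88_graftV_ge (hplc.trans hi) hi]
  · rintro z ⟨hz | hz, hz'⟩
    · exact absurd ((gr88_le_prefix h).trans hz') hz.2.2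
    · exact hz

/-- the class of all good conditions is closed -/
theorem closed_good : Closed {q | Good q} := by
  refine ⟨fun q hq => hq, fun q hq x hx => cone_good hq hx, ?_, ?_⟩
  · intro q hq V' hne hs hf
    exact restr_good hq (isX_of_finite (Good.isX hq) hne hf) hs
  · intro q hq x hx hxt y q' hq' h
    exact graft_good hq hq' hx hxt h

end Helper99.TT
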