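import Pool.Agent.Helper99.TT.Defs

/-! TT-A1: elementary facts about large sets and exact trees (from helper98's files). -/

set_option autoImplicit false

namespace Helper99.TT

open Pool.Agent.Helper98.T (EqN upd)

theorem Large_mono {M : ℕ} {V V' : Finset H} (hV : V ⊆ V') (h : Large M V) : Large M V' :=
  Pool.Agent.Helper98.T.Large.mono h hV

theorem Large_anti {M M' : ℕ} {V : Finset H} (hM : M' ≤ M) (h : Large M V) : Large M' V :=
  Pool.Agent.Helper98.T.Large.anti h hM

theorem Large_nonempty {M : ℕ} {V : Finset H} (h : Large M V) : V.Nonempty :=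
  Pool.Agent.Helper98.T.Large.nonempty h

theorem Exact_large {M : ℕ} {V : Finset H} (h : Exact M V) : Large M V := by
  obtain ⟨e, he⟩ := h
  exact ⟨e, Pool.Agent.Helper98.T.Ex.lg he⟩

/-- a large set contains exact trees of every smaller size -/
theorem exists_exact {M M' : ℕ} {V : Finset H} (hM : M' ≤ M) (h : Large M V) :
    ∃ V' ⊆ V, Exact M' V' := by
  obtain ⟨e, he⟩ := Large_anti hM h
  obtain ⟨W, hW, hW2⟩ := Pool.Agent.Helper98.T.Lg.exists_ex he
  exact ⟨W, hW, e, hW2⟩

theorem Exact_nonempty {M : ℕ} {V : Finset H} (h : Exact M V) : V.Nonempty :=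
  Large_nonempty (Exact_large h)

/-- in an exact tree each element belongs to a `j`-pair for each `j` below the height -/
theorem Exact_pair {M j : ℕ} {V : Finset H} (h : Exact M V) (hM : 2 ≤ M) (hj : j < M) :
    ∀ v ∈ V, ∃ w ∈ V, IsPair j v w ∨ IsPair j w v := by
  obtain ⟨e, he⟩ := h
  exact fun v hv => Pool.Agent.Helper98.T.Ex.exists_pr hM he hv hj

theorem Large_pair {M j : ℕ} {V : Finset H} (h : Large M V) (hM : 2 ≤ M) (hj : j < M) :
    ∃ v ∈ V, ∃ w ∈ V, IsPair j v w := by
  exact Pool.Agent.Helper98.T.Large.exists_pr h hj hM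

theorem Large_card {M : ℕ} {V : Finset H} (h : Large M V) : M ≤ V.card :=
  Pool.Agent.Helper98.T.Large.le_card h

/-- two different elements form a `j`-pair for some `j` -/
theorem exists_pair {v w : H} (h : v ≠ w) : ∃ j, IsPair j v w ∨ IsPair j w v :=
  Pool.Agent.Helper98.T.exists_pr h

theorem IsPair_ne {j : ℕ} {v w : H} (h : IsPair j v w) : v ≠ w := by
  rintro rfl
  exact lt_irrefl _ h.2

theorem IsPair_unique {j j' : ℕ} {v w : H} (h : IsPair j v w ∨ IsPair j w v)
    (h' : IsPair j' v w ∨ IsPair j' w v) : j = j' := by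
  have key : ∀ {a b : ℕ}, (IsPair a v w ∨ IsPair a w v) → (IsPair b v w ∨ IsPair b w v) → ¬ a < b := by
    intro a b ha hb hab
    rcases ha with ha | ha <;> rcases hb with hb | hb
    · have := ha.1 b (by omega); have := hb.2; omega
    · have := ha.1 b (by omega); have := hb.2; omega
    · have := ha.1 b (by omega); have := hb.2; omega
    · have := ha.1 b (by omega); have := hb.2; omega
  have h1 := key h h'
  have h2 := key h' h
  omega

theorem Eqv_zero {v w : H} : Eqv 0 v w ↔ v = w :=
  ⟨fun h => Pool.Agent.Helper98.T.EqN.zero h, fun h => h ▸ Pool.Agent.Helper98.T.EqN.refl _ _⟩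

theorem Eqv_refl (n : ℕ) (v : H) : Eqv n v v := Pool.Agent.Helper98.T.EqN.refl _ _

theorem Eqv_symm {n : ℕ} {v w : H} (h : Eqv n v w) : Eqv n w v := Pool.Agent.Helper98.T.EqN.symm h

theorem Eqv_trans {n : ℕ} {v w z : H} (h : Eqv n v w) (h' : Eqv n w z) : Eqv n v z :=
  Pool.Agent.Helper98.T.EqN.trans h h'

theorem Eqv_mono {n n' : ℕ} {v w : H} (hn : n ≤ n') (h : Eqv n v w) : Eqv n' v w :=
  Pool.Agent.Helper98.T.EqN.mono h hn

theorem path_iff {V : Fam} {k : ℕ} {u : List H} :
    Path V k u ↔ ∀ i, i < u.length → u.getD i 0 ∈ V (k + i) := by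
  rw [show Path V k u ↔ _ from Pool.Agent.Helper98.T.isPath_iff_get]
  constructor
  · intro h i hi
    have := h i hi
    simpa [List.getD_eq_getElem?_getD, List.getElem?_eq_getElem hi] using this
  · intro h i hi
    have := h i hi
    simpa [List.getD_eq_getElem?_getD, List.getElem?_eq_getElem hi] using this

theorem path_append {V : Fam} {k : ℕ} {u u' : List H} :
    Path V k (u ++ u') ↔ Path V k u ∧ Path V (k + u.length) u' :=
  Pool.Agent.Helper98.T.isPath_append

/-- an exact `N`-tree which is `M`-large has `M ≤ N` -/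
theorem Exact_ge_of_large {M N : ℕ} {V : Finset H} (h : Exact N V) (h' : Large M V) (hM : 2 ≤ M) :
    M ≤ N := by
  obtain ⟨e, he⟩ := h
  by_contra hlt
  push Not at hlt
  obtain ⟨v, hv, w, hw, hp⟩ := Large_pair h' hM (j := M - 1) (by omega)
  have h1 := Pool.Agent.Helper98.T.Ex.eqN he v hv (M - 1) (by omega)
  have h2 := Pool.Agent.Helper98.T.Ex.eqN he w hw (M - 1) (by omega)
  have := hp.2
  omega

end Helper99.TT
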