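import Pool.Agent.Helper99.TT.Ops

/-! TT-B11: the top condition. -/

set_option autoImplicit false

namespace Helper99.TT

theorem top_mem_topV {i : ℕ} {v : H} :
    v ∈ topV i ↔ v.support ⊆ Finset.range (i + 1) ∧ ∀ k ∈ Finset.range (i + 1),
      v k ∈ Finset.range (i + 1) := by
  unfold topV
  rw [Finset.mem_finsupp_iff]

theorem top_zero_mem (i : ℕ) : (0 : H) ∈ topV i := by
  rw [top_mem_topV]
  refine ⟨by simp, fun k _ => by simp⟩

theorem top_upd_mem {i h c : ℕ} {e : H} (he : e ∈ topV i) (hh : h < i + 1) (hc : c < i + 1) :
    Pool.Agent.Helper98.T.upd e h c ∈ topV i := by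
  rw [top_mem_topV] at he ⊢
  refine ⟨?_, ?_⟩
  · intro k hk
    rw [Finsupp.mem_support_iff] at hk
    by_cases hkh : k = h
    · rw [hkh]
      exact Finset.mem_range.2 hh
    · rw [Pool.Agent.Helper98.T.upd_ne e c hkh] at hk
      exact he.1 (Finsupp.mem_support_iff.2 hk)
  · intro k hk
    by_cases hkh : k = h
    · rw [hkh, Pool.Agent.Helper98.T.upd_same]
      exact Finset.mem_range.2 hc
    · rw [Pool.Agent.Helper98.T.upd_ne e c hkh]
      exact he.2 k hk

theorem top_lg (i : ℕ) : ∀ (h : ℕ), h ≤ i + 1 → ∀ e ∈ topV i, Lg h (i + 1) (topV i) e := by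
  intro h
  induction h with
  | zero => exact fun _ e he => he
  | succ h ih =>
    intro hh e he
    refine ⟨Finset.range (i + 1), by simp, fun c hc => ?_⟩
    exact ih (by omega) _ (top_upd_mem he (by omega) (Finset.mem_range.1 hc))

theorem topV_large (i : ℕ) : Large (i + 1) (topV i) :=
  ⟨0, top_lg i (i + 1) le_rfl 0 (top_zero_mem i)⟩

theorem top_idx_prefix {x y : Node} (h : x <+: y) (hy : Idx y) : Idx x := by
  intro i s hs
  apply hy i s
  obtain ⟨z, rfl⟩ := h
  have hi : i < x.length := by
    by_contra hcon
    rw [List.getElem?_eq_none (by omega)] at hs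
    cases hs
  rw [List.getElem?_append_left hi]
  exact hs

theorem top_idx_append {x : Node} {s : Step} (hx : Idx x) (hs : IsPair x.length s.v s.w) :
    Idx (x ++ [s]) := by
  intro i s' h
  rcases lt_trichotomy i x.length with hi | hi | hi
  · rw [List.getElem?_append_left hi] at h
    exact hx i s' h
  · subst hi
    have : s' = s := by
      rw [List.getElem?_append_right le_rfl] at h
      simpa using h.symm
    rw [this]
    exact hs
  · rw [List.getElem?_eq_none (by simp; omega)] at h
    cases h

theorem top_ent_last_lt {x : Node} {s : Step} {i : ℕ} (h : i < s.u.length) :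
    ent (x ++ [s]) (plc x + i) = {s.u.getD i 0} := by
  rw [ent_append_right, ent_singleton_lt h]

theorem top_ent_last {x : Node} {s : Step} :
    ent (x ++ [s]) (plc x + s.u.length) = {s.v, s.w} := by
  rw [ent_append_right, ent_singleton_last]

theorem topC_good : Good topC where
  isX := by
    refine ⟨fun i => ⟨0, top_zero_mem i⟩, fun M N => ⟨max M N, le_max_right _ _, ?_⟩⟩
    exact Large_anti (by have := le_max_left M N; omega) (topV_large (max M N))
  stem := by
    refine ⟨fun i s h => ?_, fun p hp => ?_⟩
    · have h : ([] : Node)[i]? = some s := h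
      simp at h
    · have hp : p < plc [] := hp
      rw [plc_nil] at hp
      omega
  above := fun x _ => List.nil_prefix
  idx := fun x hx => hx.1
  succ := by
    rintro x ⟨hx1, hx2⟩ s ⟨h1, h2, h3, h4⟩
    refine ⟨x ++ [s], ⟨top_idx_append hx1 h4, ?_⟩, ⟨List.prefix_rfl, ?_⟩, fun z _ hz => hz⟩
    · intro p hp
      rcases lt_or_ge p (plc x) with hpx | hpx
      · rw [ent_append_left _ _ hpx]
        exact hx2 p hpx
      · obtain ⟨i, rfl⟩ := Nat.exists_eq_add_of_le hpx
        rw [plc_append, plc_singleton] at hp
        rcases Nat.lt_or_ge i s.u.length with hi | hi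
        · rw [top_ent_last_lt hi, Finset.singleton_subset_iff]
          exact path_iff.1 h1 i hi
        · have : i = s.u.length := by omega
          subst this
          rw [top_ent_last]
          intro z hz
          rw [Finset.mem_insert, Finset.mem_singleton] at hz
          rcases hz with rfl | rfl
          · exact h2
          · exact h3
    · intro p hp1 hp2
      omega
  pred := by
    rintro y ⟨hy1, hy2⟩ hne
    have hne : y ≠ [] := hne
    obtain ⟨x, s, rfl⟩ : ∃ x s, y = x ++ [s] :=
      ⟨y.dropLast, y.getLast hne, (List.dropLast_append_getLast hne).symm⟩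
    have hpre : x <+: x ++ [s] := List.prefix_append _ _
    have hpl : plc (x ++ [s]) = plc x + (s.u.length + 1) := by
      rw [plc_append, plc_singleton]
    refine ⟨x, ⟨top_idx_prefix hpre hy1, ?_⟩, s, ⟨?_, ?_, ?_, ?_⟩, ⟨List.prefix_rfl, ?_⟩, ?_⟩
    · intro p hp
      rw [← ent_prefix hpre hp]
      exact hy2 p (by omega)
    · rw [path_iff]
      intro i hi
      have := hy2 (plc x + i) (by omega)
      rw [top_ent_last_lt hi, Finset.singleton_subset_iff] at this
      exact this
    · have := hy2 (plc x + s.u.length) (by omega)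
      rw [top_ent_last] at this
      exact this (by simp)
    · have := hy2 (plc x + s.u.length) (by omega)
      rw [top_ent_last] at this
      exact this (by simp)
    · exact hy1 x.length s (by
        rw [List.getElem?_append_right le_rfl]
        simp)
    · intro p hp1 hp2
      omega
    · intro z _ hz
      exact List.prefix_concat_iff.1 hz

/-- below the top condition, the `j`-th pair of a branch is a `j`-pair -/
theorem Br.idx {q : Cond} (hq : Good q) {a : List H} {A : ℕ → H} {B : ℕ → Step}
    (hb : Br q a A B) (j : ℕ) : IsPair j (B j).v (B j).w := by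
  obtain ⟨m, hm, hF⟩ := hb.2.2.2.2 (j + 1)
  refine hq.idx _ hF j (B j) ?_
  unfold preB
  rw [List.getElem?_map, List.getElem?_range (by omega)]
  rfl

end Helper99.TT
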