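import Pool.Agent.Helper99.TT.Sec6B

/-! TT-E4: Theorem 6. -/

set_option autoImplicit false

namespace Helper99.TT

/-- Theorem 6 -/
theorem decodeB {f : Fn} {q : Cond} (hq : Good q) {a : List H} (ha : IsPiece q.t a)
    (hf : Cont f q a) (hFA : ∀ a' q', Good q' → LeP a' q' a q → ¬ FA f q' a') :
    ∃ q', Good q' ∧ LeS q' q ∧ (∀ x ∈ q'.F, Decode f q' a x) ∧
      ((∀ a' q', Good q' → LeP a' q' a q → ¬ FB f q' a') →
        ∀ x ∈ q'.F, x ≠ q'.t → ∀ b, IsReal q' a x b → SEPn f (q'.cone x) b) := by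
  -- limits at the stem
  obtain ⟨q1, hq1, hle1, hlim1⟩ := limits (f := f) hq {a}
    (fun b hb => by rw [Set.mem_singleton_iff.1 hb]; exact ha)
    (fun b hb => by rw [Set.mem_singleton_iff.1 hb]; exact hf)
  have hlima : HasLim f q1 a := hlim1 a rfl
  have ha1 : IsPiece q1.t a := by rw [hle1.1]; exact ha
  -- the first cut
  obtain ⟨κ0, hκ0, hc0, hsing⟩ := exists_cut hq1 (plc q1.t)
  have hstem : ∀ x ∈ q1.F, plc x ≤ κ0 → x = q1.t := by
    intro x hx hxk
    by_contra hne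
    obtain ⟨s, hs, hsx⟩ := hq1.chain hq1.stem hx (hq1.above x hx) (Ne.symm hne)
    have h1 := sstep_card hs
    have h2 := plc_mono hsx
    rw [plc_append, plc_singleton] at h2
    have h3 := hsing (plc q1.t + s.u.length) (by omega) (by omega) (by omega)
    omega
  have hInv0 : LimInv f a q1 κ0 := by
    intro x hx hxk b hb
    obtain rfl := hstem x hx hxk
    obtain rfl := (real_stem ha1).1 hb
    refine HasLim.leS hq1 (cone_good hq1 hq1.stem) ha1 ?_ hlima
    exact ⟨rfl, fun i _ => Finset.Subset.refl _, fun z hz => hz.1⟩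
  -- the fusion
  obtain ⟨Q, K, hF, hQ0, -, hP, -, q', hq', hle'⟩ := fusion
    (fun _ p κ => LimInv f a p κ ∧ ∀ x ∈ p.F, x ≠ p.t → plc x ≤ κ → Decode f p a x ∧
      ((∀ a' q', Good q' → LeP a' q' a q → ¬ FB f q' a') →
        ∀ b, IsReal p a x b → SEPn f (p.cone x) b)) q1 κ0 hq1 hc0
    ⟨hInv0, fun x hx hne hxk => absurd (hstem x hx hxk) hne⟩
    (by
      rintro n p κ hp hcp hle hκ ⟨hI, hD⟩
      have hleq : LeS p q := leS_trans hle1 hle.1
      have hap : IsPiece p.t a := by rw [hleq.1]; exact ha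
      have hLP : LeP a p a q := ⟨[], by simp, le_nil_of_leS hleq hq⟩
      obtain ⟨p', κ', hp', hlep, hlt, hcp', hm, hI', hnew⟩ := decodeStage (f := f) (a := a) hp hap
        (Cont.leS hq hleq hf) (fun a' q'' h1 h2 => hFA a' q'' h1 (leP_trans hq hp hLP h2)) hcp hI n
      refine ⟨p', κ', hp', hlep, hlt, hcp', hm, hI', fun x hx hne hxk => ?_⟩
      rcases Nat.lt_or_ge κ (plc x) with h | h
      · obtain ⟨g1, g2⟩ := hnew x hx h hxk
        exact ⟨g1, fun hFB => g2 fun a' q'' h1 h2 => hFB a' q'' h1 (leP_trans hq hp hLP h2)⟩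
      · have hxp : x ∈ p.F := hlep.1.2.2 hx
        have hne' : x ≠ p.t := by rw [← hlep.1.1]; exact hne
        obtain ⟨g1, g2⟩ := hD x hxp hne' h
        refine ⟨Decode.leS hp hap hlep.1 g1, fun hFB b hb => ?_⟩
        exact SEPn.leS (cone_good hp hxp) (cone_good hp' hx) hb.2.2.1
          (cone_leS_cone hlep.1 hp hxp) (g2 hFB b (real_leS hlep.1 hp hp' hx hb)))
  -- the limit
  have hK : ∀ n, n ≤ K n := by
    intro n
    induction n with
    | zero => exact Nat.zero_le _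
    | succ n ih => exact lt_of_le_of_lt ih (hF.lt n)
  have hle1' : LeS q' q1 := by
    have h := (hle' 0).1
    rw [hQ0] at h
    exact h
  have hleq' : LeS q' q := leS_trans hle1 hle1'
  have hkey : ∀ x ∈ q'.F, x ≠ q'.t → Decode f q' a x ∧
      ((∀ a' q', Good q' → LeP a' q' a q → ¬ FB f q' a') →
        ∀ b, IsReal q' a x b → SEPn f (q'.cone x) b) := by
    intro x hx hne
    have hle := (hle' (plc x)).1
    have hxQ : x ∈ (Q (plc x)).F := hle.2.2 hx
    have hg := hF.good (plc x)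
    have hne' : x ≠ (Q (plc x)).t := by rw [← hle.1]; exact hne
    have haQ : IsPiece (Q (plc x)).t a := by rw [← hle.1, hleq'.1]; exact ha
    obtain ⟨g1, g2⟩ := (hP (plc x)).2 x hxQ hne' (hK _)
    refine ⟨Decode.leS hg haQ hle g1, fun hFB b hb => ?_⟩
    exact SEPn.leS (cone_good hg hxQ) (cone_good hq' hx) hb.2.2.1
      (cone_leS_cone hle hg hxQ) (g2 hFB b (real_leS hle hg hq' hx hb))
  refine ⟨q', hq', hleq', fun x hx => ?_, fun hFB x hx hne => (hkey x hx hne).2 hFB⟩
  by_cases hne : x = q'.t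
  · subst hne
    exact ⟨0, fun A B A' B' _ h2 _ h4 => absurd h2.thru_stem h4⟩
  · exact (hkey x hx hne).1

end Helper99.TT
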