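import Pool.Agent.Helper99.TT.Hered

/-! TT-E5: (6.1). -/

set_option autoImplicit false

namespace Helper99.TT

private theorem cone_cone6 {q : Cond} {x y : Node} (h : x <+: y) :
    (q.cone x).cone y = q.cone y := by
  unfold Cond.cone
  congr 1
  ext z
  constructor
  · rintro ⟨⟨h1, _⟩, h2⟩
    exact ⟨h1, h2⟩
  · rintro ⟨h1, h2⟩
    exact ⟨⟨h1, h.trans h2⟩, h2⟩

private theorem cone_stem6 {q : Cond} (hq : Good q) : q.cone q.t = q := by
  obtain ⟨t, V, F⟩ := q
  unfold Cond.cone
  congr 1
  ext z
  exact ⟨fun h => h.1, fun h => ⟨h, hq.above z h⟩⟩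

/-- (6.1) -/
theorem inj_pieces {f : Fn} {q : Cond} (hq : Good q) {a : List H} (ha : IsPiece q.t a)
    (h0 : SEPn f q a)
    (h : ∀ x ∈ q.F, x ≠ q.t → ∀ b, IsReal q a x b → SEPn f (q.cone x) b) :
    ∀ x ∈ q.F, ∀ b b', IsReal q a x b → IsReal q a x b' → b ≠ b' → Sepd f (q.cone x) b b' := by
  have key : ∀ n, ∀ x ∈ q.F, x.length = n → ∀ b b', IsReal q a x b → IsReal q a x b' → b ≠ b' →
      Sepd f (q.cone x) b b' := by
    intro n
    induction n using Nat.strong_induction_on with
    | _ n ih =>
      intro x hx hxn b b' hb hb' hne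
      by_cases hxt : x = q.t
      · subst hxt
        rw [real_stem ha] at hb hb'
        exact absurd (hb.trans hb'.symm) hne
      · obtain ⟨x0, hx0, s, hs, hg, -⟩ := hq.pred x hx hxt
        have hp1 : x0 <+: x0 ++ [s] := List.prefix_append _ _
        have hpre : x0 <+: x := hp1.trans hg.1
        have hlt : x0.length < n := by
          have := hg.1.length_le
          rw [List.length_append, List.length_singleton, hxn] at this
          omega
        obtain ⟨hb0, hb1⟩ := real_take hq hx0 hx hpre hb
        obtain ⟨hb0', hb1'⟩ := real_take hq hx0 hx hpre hb'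
        have hgc := cone_good hq hx0
        have hxc : x ∈ (q.cone x0).F := ⟨hx, hpre⟩
        by_cases hbb : b.take (plc x0) = b'.take (plc x0)
        · have hS : SEPn f (q.cone x0) (b.take (plc x0)) := by
            by_cases hx0t : x0 = q.t
            · subst hx0t
              rw [(real_stem ha).1 hb0, cone_stem6 hq]
              exact h0
            · exact h x0 hx0 hx0t _ hb0
          rw [← hbb] at hb1'
          have h3 := hS s hs x hxc hg b b' hb1 hb1' hne
          rwa [cone_cone6 hpre] at h3
        · have h1 := ih x0.length hlt x0 hx0 rfl _ _ hb0 hb0' hbb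
          have l1 := cone_leP hgc hxc hb1
          have l2 := cone_leP hgc hxc hb1'
          rw [cone_cone6 hpre] at l1 l2
          exact Sepd.leP hgc (cone_good hq hx) hb0.2.2.1 hb0'.2.2.1 l1 l2 h1
  exact fun x hx => key _ x hx rfl

end Helper99.TT
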