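import Pool.Agent.Helper99.TT.Sec7C
import Pool.Agent.Helper99.TT.Sec6C
import Pool.Agent.Helper99.TT.Sec6I

/-! TT-G1: the canonization theorem 8.1. -/

set_option autoImplicit false

namespace Helper99.TT

private theorem leP_of_leS' {q q' : Cond} (hq : Good q) (h : LeS q' q) (a : List H) :
    LeP a q' a q :=
  ⟨[], (List.append_nil a).symm, le_nil_of_leS h hq⟩

theorem canonization {f : Fn} {q : Cond} (hq : Good q) {a : List H} (ha : IsPiece q.t a)
    (hf : Cont f q a) :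
    ∃ a' q', Good q' ∧ LeP a' q' a q ∧
      (C0 f q' a' ∨ (ExactFrom q'.V (plc q'.t) ∧ ∃ n, C1 f q' a' n) ∨ C2 f q' a' ∨ C3 f q' a') := by
  by_cases h1 : ∃ a1 q1, Good q1 ∧ LeP a1 q1 a q ∧ FA f q1 a1
  · -- some extension is a function of `A`
    obtain ⟨a1, q1, hq1, hle1, hFA⟩ := h1
    obtain ⟨q2, hq2, hle2, hE, h⟩ := canonFA hq1 (leP_piece hq ha hle1)
      (Cont.leP hq ha hle1 hf) hFA
    refine ⟨a1, q2, hq2, leP_trans hq hq1 hle1 (leP_of_leS' hq1 hle2 a1), ?_⟩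
    rcases h with h | h
    · exact Or.inl h
    · exact Or.inr (Or.inl ⟨hE, h⟩)
  · have hnFA : ∀ a' q', Good q' → LeP a' q' a q → ¬ FA f q' a' :=
      fun a' q' hq' hle hFA => h1 ⟨a', q', hq', hle, hFA⟩
    by_cases h2 : ∃ a1 q1, Good q1 ∧ LeP a1 q1 a q ∧ FB f q1 a1
    · -- some extension is a function of `B`
      obtain ⟨a1, q1, hq1, hle1, hFB⟩ := h2
      obtain ⟨q2, hq2, hle2, hD, -⟩ := decodeB hq1 (leP_piece hq ha hle1)
        (Cont.leP hq ha hle1 hf)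
        (fun a' q' hq' hle => hnFA a' q' hq' (leP_trans hq hq1 hle1 hle))
      refine ⟨a1, q2, hq2, leP_trans hq hq1 hle1 (leP_of_leS' hq1 hle2 a1), ?_⟩
      exact Or.inr (Or.inr (Or.inl
        ⟨FB.leP hq1 (leP_piece hq ha hle1) (leP_of_leS' hq1 hle2 a1) hFB, hD⟩))
    · -- no extension is a function of `A` or of `B`
      have hnFB : ∀ a' q', Good q' → LeP a' q' a q → ¬ FB f q' a' :=
        fun a' q' hq' hle hFB => h2 ⟨a', q', hq', hle, hFB⟩
      obtain ⟨y, q1, hq1, hle1, hS⟩ := reach_sep (f := f) hq {a}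
        (by rintro b rfl; exact ha) (by rintro b rfl; exact hf)
        (by rintro b rfl; exact hnFB)
      have hS1 : SEPn f q1 (a ++ y) := hS a rfl
      have hleP : LeP (a ++ y) q1 a q := ⟨y, rfl, hle1⟩
      have ha1 : IsPiece q1.t (a ++ y) := leP_piece hq ha hleP
      obtain ⟨q2, hq2, hle2, hD, hSS⟩ := decodeB hq1 ha1 (Cont.leP hq ha hleP hf)
        (fun a' q' hq' hle => hnFA a' q' hq' (leP_trans hq hq1 hleP hle))
      have hSS' := hSS (fun a' q' hq' hle => hnFB a' q' hq' (leP_trans hq hq1 hleP hle))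
      have hleP2 : LeP (a ++ y) q2 (a ++ y) q1 := leP_of_leS' hq1 hle2 _
      refine ⟨a ++ y, q2, hq2, leP_trans hq hq1 hleP hleP2, ?_⟩
      exact Or.inr (Or.inr (Or.inr ⟨hD, inj_pieces hq2 (leP_piece hq1 ha1 hleP2)
        (SEPn.leS hq1 hq2 ha1 hle2 hS1) hSS'⟩))

end Helper99.TT
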