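import Pool.Agent.Helper99.TT.ReadA
import Pool.Agent.Helper99.TT.Main8

/-! TT-G4: canonization for readings. -/

set_option autoImplicit false

open Filter Topology

namespace Helper99.TT

namespace ReadBAux

theorem cmp_of_getD {s t : List Bool}
    (h : ∀ i, i < s.length → i < t.length → s.getD i false = t.getD i false) : Cmp s t := by
  rcases le_total s.length t.length with hl | hl
  · left
    rw [List.prefix_iff_eq_take]
    apply List.ext_getElem
    · simp [hl]
    · intro i h1 h2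
      have := h i h1 (lt_of_lt_of_le h1 hl)
      rw [List.getD_eq_getElem _ _ h1, List.getD_eq_getElem _ _ (lt_of_lt_of_le h1 hl)] at this
      rw [List.getElem_take]
      exact this
  · right
    rw [List.prefix_iff_eq_take]
    apply List.ext_getElem
    · simp [hl]
    · intro i h1 h2
      have := h i (lt_of_lt_of_le h1 hl) h1
      rw [List.getD_eq_getElem _ _ h1, List.getD_eq_getElem _ _ (lt_of_lt_of_le h1 hl)] at this
      rw [List.getElem_take]
      exact this.symm

theorem take_ne_of_getD {s t : List Bool} {l i : ℕ} (hi : i < l) (hs : l ≤ s.length)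
    (ht : l ≤ t.length) (h : s.getD i false ≠ t.getD i false) : s.take l ≠ t.take l := by
  intro he
  apply h
  have h1 : (s.take l).getD i false = s.getD i false := by
    rw [List.getD_eq_getElem?_getD, List.getD_eq_getElem?_getD, List.getElem?_take_of_lt hi]
  have h2 : (t.take l).getD i false = t.getD i false := by
    rw [List.getD_eq_getElem?_getD, List.getD_eq_getElem?_getD, List.getElem?_take_of_lt hi]
  rw [← h1, ← h2, he]

theorem not_cmp_of_take_ne {s t : List Bool} {l : ℕ} (hs : l ≤ s.length) (ht : l ≤ t.length)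
    (h : s.take l ≠ t.take l) : ¬ Cmp (s.take l) (t.take l) := by
  have h1 : (s.take l).length = l := by simp [hs]
  have h2 : (t.take l).length = l := by simp [ht]
  rintro (hc | hc)
  · exact h (hc.eq_of_length (by rw [h1, h2]))
  · exact h (hc.eq_of_length (by rw [h1, h2])).symm

/-- a branch through a real piece -/
theorem exists_through {q : Cond} (hq : Good q) {a : List H} {x : Node} (hx : x ∈ q.F)
    {b : List H} (hb : IsReal q a x b) :
    ∃ A B, Br q a A B ∧ Br (q.cone x) b A B ∧ Thru B x ∧ preA A (plc x) = b := by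
  obtain ⟨A, B, hAB⟩ := exists_br (cone_good hq hx) (a := b) hb.2.2.1
  exact ⟨A, B, hAB.of_cone hq hx hb, hAB, hAB.thru_stem, hAB.1⟩

theorem preA_of_prefix {A : ℕ → H} {b c : List H} {n m : ℕ} (hb : b.length = n)
    (hbc : b <+: c) (hc : preA A m = c) : preA A n = b := by
  have hm : m = c.length := by rw [← hc, preA_length]
  have hnm : n ≤ m := by rw [hm, ← hb]; exact hbc.length_le
  have h1 : preA A n <+: c := by rw [← hc]; exact preA_mono A hnm
  exact (List.prefix_of_prefix_length_le h1 hbc (by rw [preA_length, hb])).eq_of_length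
    (by rw [preA_length, hb])

/-- convergence of a subsequence of points of a product of finite sets -/
theorem exists_limit (W : ℕ → Finset H) (P : ℕ → (ℕ → H) × (ℕ → H))
    (hP : ∀ l p, (P l).1 p ∈ W p ∧ (P l).2 p ∈ W p) :
    ∃ A A' : ℕ → H, (∀ p, A p ∈ W p) ∧ (∀ p, A' p ∈ W p) ∧
      ∀ N k : ℕ, ∃ l, k ≤ l ∧ ∀ p, p < N → (P l).1 p = A p ∧ (P l).2 p = A' p := by
  letI : TopologicalSpace H := ⊥
  haveI : DiscreteTopology H := ⟨rfl⟩
  have hK : IsCompact (Set.pi Set.univ (fun p => ((W p : Finset H) : Set H))) :=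
    isCompact_univ_pi fun p => (W p).finite_toSet.isCompact
  obtain ⟨z, hz, φ, hφ, hlim⟩ := (hK.prod hK).tendsto_subseq (x := P)
    (fun l => ⟨fun p _ => (hP l p).1, fun p _ => (hP l p).2⟩)
  refine ⟨z.1, z.2, fun p => hz.1 p trivial, fun p => hz.2 p trivial, fun N k => ?_⟩
  have h1 : Tendsto (fun l => (P (φ l)).1) atTop (𝓝 z.1) :=
    (continuous_fst.tendsto z).comp hlim
  have h2 : Tendsto (fun l => (P (φ l)).2) atTop (𝓝 z.2) :=
    (continuous_snd.tendsto z).comp hlim
  rw [tendsto_pi_nhds] at h1 h2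
  have h3 : ∀ p, ∀ᶠ l in atTop, (P (φ l)).1 p = z.1 p ∧ (P (φ l)).2 p = z.2 p := by
    intro p
    have e1 := h1 p
    have e2 := h2 p
    rw [nhds_discrete, tendsto_pure] at e1 e2
    exact e1.and e2
  have h4 : ∀ᶠ l in atTop, ∀ p ∈ Finset.range N, (P (φ l)).1 p = z.1 p ∧
      (P (φ l)).2 p = z.2 p := (Filter.eventually_all_finset _).2 fun p _ => h3 p
  obtain ⟨l, hl, hl'⟩ := (h4.and (eventually_ge_atTop k)).exists
  exact ⟨φ l, hl'.trans (hφ.id_le l), fun p hp => hl p (Finset.mem_range.2 hp)⟩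

section Transfer

variable {R : Rd} {q : Cond} {a : List H} {f : Fn}

/-- values of `f` are read off `R` -/
def Reads (R : Rd) (f : Fn) (q : Cond) (a : List H) : Prop :=
  ∀ A B, Br q a A B → ∀ x ∈ q.F, Thru B x → ∀ i, i < (R (preA A (plc x)) x).length →
    f A B i = (R (preA A (plc x)) x).getD i false

theorem a0 (hq : Good q) (hrd : Reads R f q a) (h : C0 f q a) : A0 R q a := by
  intro x hx y hy b c hb hc
  obtain ⟨A, B, h1, -, h3, h4⟩ := exists_through hq hx hb
  obtain ⟨A', B', h1', -, h3', h4'⟩ := exists_through hq hy hc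
  refine cmp_of_getD fun i hi hi' => ?_
  have e1 := hrd A B h1 x hx h3 i (by rwa [h4])
  have e2 := hrd A' B' h1' y hy h3' i (by rwa [h4'])
  rw [h4] at e1
  rw [h4'] at e2
  rw [← e1, ← e2, h A B A' B' h1 h1']

theorem adec (hq : Good q) (hrd : Reads R f q a) (h : ∀ x ∈ q.F, Decode f q a x) :
    ADec R q a := by
  intro x hx
  obtain ⟨l, hl⟩ := h x hx
  refine ⟨l, fun y hy z hz hxy hxz hzx b c hb hc h1 h2 => ?_⟩
  obtain ⟨A, B, g1, -, g3, g4⟩ := exists_through hq hy hb
  obtain ⟨A', B', g1', -, g3', g4'⟩ := exists_through hq hz hc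
  have hnot : ¬ Thru B' x := by
    intro hBx
    rcases Thru_comparable hBx g3' with h' | h'
    · exact hxz h'
    · exact hzx h'
  obtain ⟨i, hi, hne⟩ := hl A B A' B' g1 g1' (Thru_mono hxy g3) hnot
  refine take_ne_of_getD hi h1 h2 ?_
  have e1 := hrd A B g1 y hy g3 i (by rw [g4]; omega)
  have e2 := hrd A' B' g1' z hz g3' i (by rw [g4']; omega)
  rw [g4] at e1
  rw [g4'] at e2
  rwa [← e1, ← e2]

theorem a2 (hq : Good q) (hrd : Reads R f q a) (h : C2 f q a) : A2 R q a := by
  refine ⟨fun x hx b c hb hc => ?_, adec hq hrd h.2⟩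
  obtain ⟨A, B, g1, g2, g3, g4⟩ := exists_through hq hx hb
  have g5 : Br (q.cone x) c (rep c A) B := g2.rep (cone_good hq hx) hc.2.2.1
  have g6 : Br q a (rep c A) B := g5.of_cone hq hx hc
  refine cmp_of_getD fun i hi hi' => ?_
  have g7 : preA (rep c A) (plc x) = c := g5.1
  have e1 := hrd A B g1 x hx g3 i (by rwa [g4])
  have e2 := hrd (rep c A) B g6 x hx g3 i (by rwa [g7])
  rw [g4] at e1
  rw [g7] at e2
  rw [← e1, ← e2, h.1 A (rep c A) B g1 g6]

theorem a3 (hq : Good q) (hrd : Reads R f q a) (h : C3 f q a) : A3 R q a := by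
  refine ⟨adec hq hrd h.1, fun x hx b b' hb hb' hne => ?_⟩
  obtain ⟨i, e, h1, h2⟩ := h.2 x hx b b' hb hb' hne
  refine ⟨i + 1, fun y hy hxy z hz hxz c c' hc hc' hbc hbc' hl hl' => ?_⟩
  obtain ⟨A, B, g1, -, g3, g4⟩ := exists_through hq hy hc
  obtain ⟨A', B', g1', -, g3', g4'⟩ := exists_through hq hz hc'
  refine take_ne_of_getD (Nat.lt_succ_self i) hl hl' ?_
  have e1 := hrd A B g1 y hy g3 i (by rw [g4]; omega)
  have e2 := hrd A' B' g1' z hz g3' i (by rw [g4']; omega)
  rw [g4] at e1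
  rw [g4'] at e2
  rw [← e1, ← e2]
  have p1 : preA A (plc x) = b := preA_of_prefix hb.2.2.1.1 hbc g4
  have p2 : preA A' (plc x) = b' := preA_of_prefix hb'.2.2.1.1 hbc' g4'
  have c1 := (g1.cone hq hx (Thru_mono hxy g3)).1
  have c2 := (g1'.cone hq hx (Thru_mono hxz g3')).1
  rw [p1] at c1
  rw [p2] at c2
  rw [h1 A B c1, h2 A' B' c2]
  cases e <;> simp

theorem a1_left_aux (hq : Good q) (hE : ExactFrom q.V (plc q.t)) {n : ℕ} (h : C1 f q a n)
    (hrd : Reads R f q a) {x y : Node} (hx : x ∈ q.F) (hy : y ∈ q.F) (hxy : plc x ≤ plc y)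
    {b c : List H} (hb : IsReal q a x b) (hc : IsReal q a y c)
    (hbc : ∀ p, p < plc x → Eqv n (b.getD p 0) (c.getD p 0)) : Cmp (R b x) (R c y) := by
  obtain ⟨A', B', g1', -, g3', g4'⟩ := exists_through hq hy hc
  have hlen : b.length = plc x := hb.2.2.1.1
  have htx : plc q.t ≤ plc x := plc_mono (hq.above x hx)
  have hEx : ExactFrom (q.cone x).V (plc (q.cone x).t) := fun p hp => hE p (htx.trans hp)
  have hA1 : preA (rep b A') (plc x) = b := by rw [← hlen]; exact preA_rep
  obtain ⟨B, hB⟩ := exists_br_along (cone_good hq hx) (a := b) hb.2.2.1 hEx (A := rep b A')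
    (fun p hp => by
      rw [rep_ge (by rw [hlen]; exact hp)]
      exact g1'.2.2.2.1 p (htx.trans hp)) hA1
  have hBr : Br q a (rep b A') B := hB.of_cone hq hx hb
  have hT : Thru B x := hB.thru_stem
  have hf : f (rep b A') B = f A' B' := by
    rw [h _ _ _ _ hBr g1']
    intro p
    rcases lt_or_ge p (plc x) with hp | hp
    · rw [rep_lt (by rw [hlen]; exact hp)]
      have : A' p = c.getD p 0 := by
        rw [← g4', preA_getD A' (lt_of_lt_of_le hp hxy)]
      rw [this]
      exact hbc p hp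
    · rw [rep_ge (by rw [hlen]; exact hp)]
      exact Eqv_refl n _
  refine cmp_of_getD fun i hi hi' => ?_
  have e1 := hrd _ B hBr x hx hT i (by rwa [hA1])
  have e2 := hrd A' B' g1' y hy g3' i (by rwa [g4'])
  rw [hA1] at e1
  rw [g4'] at e2
  rw [← e1, ← e2, hf]

theorem a1_right (hq : Good q) (hf : Cont f q a) (hE : ExactFrom q.V (plc q.t)) {n : ℕ}
    (h : C1 f q a n) (hrd : Reads R f q a) (m : ℕ) :
    ∃ l : ℕ, ∀ x ∈ q.F, ∀ y ∈ q.F, m ≤ plc x → m ≤ plc y → ∀ b c, IsReal q a x b →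
    IsReal q a y c → l ≤ (R b x).length → l ≤ (R c y).length →
    (∃ p, p < m ∧ ¬ Eqv n (b.getD p 0) (c.getD p 0)) → ¬ Cmp ((R b x).take l) ((R c y).take l) := by
  by_contra hcon
  push Not at hcon
  -- a sequence of pairs of branches
  have hseq : ∀ l : ℕ, ∃ (P : (ℕ → H) × (ℕ → H)) (B B' : ℕ → Step), Br q a P.1 B ∧
      Br q a P.2 B' ∧ (∀ i, i < l → f P.1 B i = f P.2 B' i) ∧
      ∃ p, p < m ∧ ¬ Eqv n (P.1 p) (P.2 p) := by
    intro l
    obtain ⟨x, hx, y, hy, hmx, hmy, b, c, hb, hc, hlx, hly, ⟨p, hp, hne⟩, hcmp⟩ := hcon l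
    obtain ⟨A, B, g1, -, g3, g4⟩ := exists_through hq hx hb
    obtain ⟨A', B', g1', -, g3', g4'⟩ := exists_through hq hy hc
    refine ⟨(A, A'), B, B', g1, g1', fun i hi => ?_, p, hp, ?_⟩
    · have e1 := hrd A B g1 x hx g3 i (by rw [g4]; omega)
      have e2 := hrd A' B' g1' y hy g3' i (by rw [g4']; omega)
      rw [g4] at e1
      rw [g4'] at e2
      show f A B i = f A' B' i
      rw [e1, e2]
      by_contra hne'
      exact not_cmp_of_take_ne hlx hly (take_ne_of_getD hi hlx hly hne') hcmp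
    · have e1 : A p = b.getD p 0 := by rw [← g4, preA_getD A (lt_of_lt_of_le hp hmx)]
      have e2 : A' p = c.getD p 0 := by rw [← g4', preA_getD A' (lt_of_lt_of_le hp hmy)]
      show ¬ Eqv n (A p) (A' p)
      rw [e1, e2]
      exact hne
  choose P B B' hB hB' hag hdif using hseq
  have ha : IsPiece q.t a := (hB 0).piece
  let W : ℕ → Finset H := fun p => if p < plc q.t then {a.getD p 0} else q.V p
  have hmem : ∀ {A : ℕ → H} {D : ℕ → Step}, Br q a A D → ∀ p, A p ∈ W p := by
    intro A D hD p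
    show A p ∈ (if p < plc q.t then {a.getD p 0} else q.V p)
    split_ifs with hp
    · rw [Finset.mem_singleton, ← hD.1, preA_getD A hp]
    · exact hD.2.2.2.1 p (not_lt.1 hp)
  obtain ⟨A, A', hA, hA', hlim⟩ := exists_limit W P
    (fun l p => ⟨hmem (hB l) p, hmem (hB' l) p⟩)
  have hin : ∀ {A : ℕ → H}, (∀ p, A p ∈ W p) → InX q.V (plc q.t) A ∧ preA A (plc q.t) = a := by
    intro A hA
    constructor
    · intro p hp
      have := hA p
      simp only [W, if_neg (not_lt.2 hp)] at this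
      exact this
    · apply list_ext_getD
      · rw [preA_length, ha.1]
      · intro p hp
        rw [preA_length] at hp
        rw [preA_getD A hp]
        have := hA p
        simp only [W, if_pos hp, Finset.mem_singleton] at this
        exact this
  obtain ⟨D, hD⟩ := exists_br_along hq ha hE (hin hA).1 (hin hA).2
  obtain ⟨D', hD'⟩ := exists_br_along hq ha hE (hin hA').1 (hin hA').2
  -- the limit points are not equivalent
  have hne : ∃ p, ¬ Eqv n (A p) (A' p) := by
    obtain ⟨l, -, hl⟩ := hlim m 0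
    obtain ⟨p, hp, hp'⟩ := hdif l
    exact ⟨p, by rw [← (hl p hp).1, ← (hl p hp).2]; exact hp'⟩
  have hfne : f A D ≠ f A' D' := by
    intro he
    obtain ⟨p, hp⟩ := hne
    exact hp ((h _ _ _ _ hD hD').1 he p)
  obtain ⟨i, hi⟩ := Function.ne_iff.1 hfne
  -- continuity
  obtain ⟨x, hx, hDx, -, -, hcx⟩ := hf.exists_node hq hD (i + 1) 0
  obtain ⟨y, hy, hDy, -, -, hcy⟩ := hf.exists_node hq hD' (i + 1) 0
  obtain ⟨l, hl, hl'⟩ := hlim (max (plc x) (plc y)) (i + 1)
  have key : ∀ {A₁ A₂ : ℕ → H} {D₁ D₂ : ℕ → Step} {z : Node}, z ∈ q.F → Br q a A₁ D₁ →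
      Thru D₁ z → (∀ A' B', Br (q.cone z) (preA A₁ (plc z)) A' B' → ∀ j, j < i + 1 →
        f A' B' j = f A₁ D₁ j) → Br q a A₂ D₂ → (∀ p, p < plc z → A₂ p = A₁ p) →
      f A₂ D₂ i = f A₁ D₁ i := by
    intro A₁ A₂ D₁ D₂ z hz h1 hT hc h2 hag
    have htz : plc q.t ≤ plc z := plc_mono (hq.above z hz)
    have hreal := (h1.cone hq hz hT).2
    have hEz : ExactFrom (q.cone z).V (plc (q.cone z).t) := fun p hp => hE p (htz.trans hp)
    have hpre : preA A₂ (plc z) = preA A₁ (plc z) := preA_eq_of_agree fun p hp => hag p hp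
    obtain ⟨E, hEE⟩ := exists_br_along (cone_good hq hz) (a := preA A₁ (plc z)) hreal.2.2.1 hEz
      (A := A₂) (fun p hp => h2.2.2.2.1 p (htz.trans hp)) hpre
    have h3 : f A₂ D₂ = f A₂ E :=
      (h _ _ _ _ h2 (hEE.of_cone hq hz hreal)).2 fun p => Eqv_refl n _
    rw [h3]
    exact hc _ _ hEE i (Nat.lt_succ_self i)
  have k1 := key hx hD hDx hcx (hB l) fun p hp => (hl' p (lt_of_lt_of_le hp (le_max_left _ _))).1
  have k2 := key hy hD' hDy hcy (hB' l)
    fun p hp => (hl' p (lt_of_lt_of_le hp (le_max_right _ _))).2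
  exact hi (by rw [← k1, ← k2]; exact hag l i (by omega))

theorem cmp_symm {s t : List Bool} (h : Cmp s t) : Cmp t s := Or.symm h

theorem a1 (hq : Good q) (hf : Cont f q a) (hE : ExactFrom q.V (plc q.t)) {n : ℕ}
    (h : C1 f q a n) (hrd : Reads R f q a) : A1 R q a n := by
  refine ⟨fun x hx y hy b c hb hc hbc => ?_, a1_right hq hf hE h hrd⟩
  rcases le_total (plc x) (plc y) with hxy | hxy
  · exact a1_left_aux hq hE h hrd hx hy hxy hb hc fun p hp => hbc p hp (lt_of_lt_of_le hp hxy)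
  · exact cmp_symm (a1_left_aux hq hE h hrd hy hx hxy hc hb
      fun p hp => Eqv_symm (hbc p (lt_of_lt_of_le hp hxy) hp))

end Transfer

end ReadBAux

open ReadBAux in
/-- the canonization theorem for readings -/
theorem canonization_reading {R : Rd} {q : Cond} (hq : Good q) {a : List H} (ha : IsPiece q.t a)
    (hR : Reading R q a) : ∃ a' q', Good q' ∧ LeP a' q' a q ∧ ACan R q' a' := by
  have hf : Cont (rdFn R q) q a := rdFn_cont hq hR
  obtain ⟨a', q', hq', hle, h⟩ := canonization hq ha hf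
  have hf' : Cont (rdFn R q) q' a' := hf.leP hq ha hle
  have hrd : Reads R (rdFn R q) q' a' := by
    intro A B hb x hx hBx i hi
    have hx' : x ∈ q.F := by
      obtain ⟨y, -, hy⟩ := hle
      exact hy.2.2.2.2 hx
    exact rdFn_eq hq hR (hb.of_leP hq ha hle) hx' hBx hi
  refine ⟨a', q', hq', hle, ?_⟩
  rcases h with h | ⟨hE, n, h⟩ | h | h
  · exact Or.inl (a0 hq' hrd h)
  · exact Or.inr (Or.inl ⟨n, a1 hq' hf' hE h hrd⟩)
  · exact Or.inr (Or.inr (Or.inl (a2 hq' hrd h)))
  · exact Or.inr (Or.inr (Or.inr (a3 hq' hrd h)))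

end Helper99.TT
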