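import Pool.Agent.Helper99.TT.Chain

/-! TT-B7: limits of fusion sequences, the fusion principle. -/

set_option autoImplicit false

namespace Helper99.TT

private theorem K_ge {Q : ℕ → Cond} {K : ℕ → ℕ} (h : FSeq Q K) (n : ℕ) : n ≤ K n := by
  induction n with
  | zero => exact Nat.zero_le _
  | succ n ih =>
    have := h.lt n
    omega

private theorem K_mono {Q : ℕ → Cond} {K : ℕ → ℕ} (h : FSeq Q K) {m n : ℕ} (hmn : m ≤ n) :
    K m ≤ K n := by
  induction n, hmn using Nat.le_induction with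
  | base => exact le_rfl
  | succ n _ ih => exact ih.trans (h.lt n).le

private theorem t_eq {Q : ℕ → Cond} {K : ℕ → ℕ} (h : FSeq Q K) (n : ℕ) : (Q n).t = (Q 0).t := by
  induction n with
  | zero => rfl
  | succ n ih => exact (h.le n).1.1.trans ih

private theorem V_stable {Q : ℕ → Cond} {K : ℕ → ℕ} (h : FSeq Q K) {m n p : ℕ} (hmn : m ≤ n)
    (hp : p < K m) : (Q n).V p = (Q m).V p := by
  induction n, hmn using Nat.le_induction with
  | base => rfl
  | succ n hn ih => rw [(h.le n).2.1 p (lt_of_lt_of_le hp (K_mono h hn)), ih]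

private theorem V_anti {Q : ℕ → Cond} {K : ℕ → ℕ} (h : FSeq Q K) {m n p : ℕ} (hmn : m ≤ n)
    (hp : plc (Q 0).t ≤ p) : (Q n).V p ⊆ (Q m).V p := by
  induction n, hmn using Nat.le_induction with
  | base => exact Finset.Subset.refl _
  | succ n hn ih =>
    refine Finset.Subset.trans ((h.le n).1.2.1 p ?_) ih
    rw [t_eq h n]
    exact hp

private theorem F_anti {Q : ℕ → Cond} {K : ℕ → ℕ} (h : FSeq Q K) {m n : ℕ} (hmn : m ≤ n) :
    (Q n).F ⊆ (Q m).F := by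
  induction n, hmn using Nat.le_induction with
  | base => exact Set.Subset.refl _
  | succ n hn ih => exact Set.Subset.trans (h.le n).1.2.2 ih

private theorem F_up {Q : ℕ → Cond} {K : ℕ → ℕ} (h : FSeq Q K) {m n : ℕ} (hmn : m ≤ n) {x : Node}
    (hx : x ∈ (Q m).F) (hp : plc x ≤ K m) : x ∈ (Q n).F := by
  induction n, hmn using Nat.le_induction with
  | base => exact hx
  | succ n hn ih => exact (h.le n).2.2 x ih (hp.trans (K_mono h hn))

private theorem flim_V {Q : ℕ → Cond} {K : ℕ → ℕ} (h : FSeq Q K) {n p : ℕ} (hp : p < K n) :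
    (flim Q K).V p = (Q n).V p := by
  change (Q (p + 1)).V p = (Q n).V p
  have h1 : p < K (p + 1) := lt_of_lt_of_le (Nat.lt_succ_self p) (K_ge h (p + 1))
  rcases le_total n (p + 1) with h2 | h2
  · exact V_stable h h2 hp
  · exact (V_stable h h2 h1).symm

private theorem flim_V_sub {Q : ℕ → Cond} {K : ℕ → ℕ} (h : FSeq Q K) {n p : ℕ}
    (hp : plc (Q 0).t ≤ p) : (flim Q K).V p ⊆ (Q n).V p := by
  have h1 : p < K (max n (p + 1)) :=
    lt_of_lt_of_le (lt_of_lt_of_le (Nat.lt_succ_self p) (le_max_right n (p + 1))) (K_ge h _)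
  rw [flim_V h h1]
  exact V_anti h (le_max_left _ _) hp

private theorem flim_F {Q : ℕ → Cond} {K : ℕ → ℕ} (h : FSeq Q K) {x : Node}
    (hx : x ∈ (flim Q K).F) (n : ℕ) : x ∈ (Q n).F := by
  obtain ⟨m, hm, hxm⟩ := hx
  rcases le_total m n with h1 | h1
  · exact F_up h h1 hxm hm
  · exact F_anti h h1 hxm

private theorem sstep_congr {V V' : Fam} {x : Node} {s : Step} {k : ℕ}
    (hV : ∀ p, p < k → V p = V' p) (hk : plc x + s.u.length < k) (h : SStep V x s) :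
    SStep V' x s := by
  obtain ⟨h1, h2, h3, h4⟩ := h
  refine ⟨?_, ?_, ?_, h4⟩
  · rw [path_iff] at h1 ⊢
    intro i hi
    rw [← hV _ (by omega)]
    exact h1 i hi
  · rw [← hV _ hk]
    exact h2
  · rw [← hV _ hk]
    exact h3

private theorem gap_congr {V V' : Fam} {x y : Node} {k : ℕ}
    (hV : ∀ p, p < k → V p = V' p) (hk : plc y ≤ k) (h : GapExt V x y) : GapExt V' x y := by
  refine ⟨h.1, fun p hp hp' => ?_⟩
  rw [← hV p (lt_of_lt_of_le hp' hk)]
  exact h.2 p hp hp'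

theorem flim_good {Q : ℕ → Cond} {K : ℕ → ℕ} (h : FSeq Q K) : Good (flim Q K) where
  isX := by
    refine ⟨fun p => (h.good (p + 1)).isX.1 p, fun M N => ?_⟩
    obtain ⟨m, h1, h2, h3⟩ := h.large (max M N)
    refine ⟨m, (le_max_right M N).trans ((K_ge h _).trans h1), ?_⟩
    rw [flim_V h h2]
    exact Large_anti (le_max_left _ _) h3
  stem := ⟨0, (h.cut 0).1, (h.good 0).stem⟩
  above := fun x hx => (h.good 0).above x (flim_F h hx 0)
  idx := fun x hx => (h.good 0).idx x (flim_F h hx 0)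
  succ := by
    intro x hx s hs
    have hn : plc x + s.u.length < K (plc x + s.u.length + 1) :=
      lt_of_lt_of_le (Nat.lt_succ_self _) (K_ge h _)
    set n := plc x + s.u.length + 1 with hndef
    have hxn := flim_F h hx n
    have hV : ∀ p, p < K n → (flim Q K).V p = (Q n).V p := fun p hp => flim_V h hp
    have hs' : SStep (Q n).V x s := sstep_congr hV hn hs
    obtain ⟨y, hy, hgap, hmin⟩ := (h.good n).succ x hxn s hs'
    have hpl : plc (x ++ [s]) ≤ K n := by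
      rw [plc_append, plc_singleton]
      omega
    have hyk := (h.good n).cut_succ (h.cut n) hxn hs' hy hgap hpl
    exact ⟨y, ⟨n, hyk, hy⟩, gap_congr (fun p hp => (hV p hp).symm) hyk hgap,
      fun z hz hxz => hmin z (flim_F h hz n) hxz⟩
  pred := by
    intro y hy hyt
    have hn : plc y ≤ K (plc y) := K_ge h _
    set n := plc y with hndef
    have hV : ∀ p, p < K n → (flim Q K).V p = (Q n).V p := fun p hp => flim_V h hp
    have hyt' : y ≠ (Q n).t := by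
      rw [t_eq h n]
      exact hyt
    obtain ⟨x, hx, s, hs, hgap, hmin⟩ := (h.good n).pred y (flim_F h hy n) hyt'
    have h1 : plc (x ++ [s]) ≤ plc y := plc_mono hgap.1
    rw [plc_append, plc_singleton] at h1
    refine ⟨x, ⟨n, by omega, hx⟩, s, sstep_congr (fun p hp => (hV p hp).symm) (by omega) hs,
      gap_congr (fun p hp => (hV p hp).symm) hn hgap, fun z hz hzy => hmin z (flim_F h hz n) hzy⟩

theorem flim_leK {Q : ℕ → Cond} {K : ℕ → ℕ} (h : FSeq Q K) (n : ℕ) :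
    LeK (K n) (flim Q K) (Q n) := by
  refine ⟨⟨(t_eq h n).symm, ?_, fun x hx => flim_F h hx n⟩, fun p hp => flim_V h hp,
    fun x hx hxn => ⟨n, hxn, hx⟩⟩
  intro p hp
  refine flim_V_sub h ?_
  rw [t_eq h n] at hp
  exact hp

private theorem leK_trans {κ κ0 : ℕ} {q q' q0 : Cond} (hκ : κ0 ≤ κ) (h : LeK κ q' q)
    (h' : LeK κ0 q q0) : LeK κ0 q' q0 := by
  obtain ⟨⟨a1, a2, a3⟩, a4, a5⟩ := h
  obtain ⟨⟨b1, b2, b3⟩, b4, b5⟩ := h'
  refine ⟨⟨a1.trans b1, ?_, a3.trans b3⟩, fun p hp => (a4 p (lt_of_lt_of_le hp hκ)).trans (b4 p hp),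
    fun x hx hxk => a5 x (b5 x hx hxk) (hxk.trans hκ)⟩
  intro p hp
  refine Finset.Subset.trans (a2 p ?_) (b2 p hp)
  rw [b1]
  exact hp

/-- the fusion principle -/
theorem fusion (P : ℕ → Cond → ℕ → Prop) (q0 : Cond) (κ0 : ℕ) (hg : Good q0) (hc : Cut q0 κ0)
    (h0 : P 0 q0 κ0)
    (hs : ∀ n q κ, Good q → Cut q κ → LeK κ0 q q0 → κ0 ≤ κ → P n q κ →
      ∃ q' κ', Good q' ∧ LeK κ q' q ∧ κ < κ' ∧ Cut q' κ' ∧
        (∃ m, κ ≤ m ∧ m < κ' ∧ Large n (q'.V m)) ∧ P (n + 1) q' κ') :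
    ∃ (Q : ℕ → Cond) (K : ℕ → ℕ), FSeq Q K ∧ Q 0 = q0 ∧ K 0 = κ0 ∧ (∀ n, P n (Q n) (K n)) ∧
      (∀ n, LeK κ0 (Q n) q0) ∧ ∃ q, Good q ∧ (∀ n, LeK (K n) q (Q n)) := by
  classical
  let I : ℕ → Cond × ℕ → Prop := fun n z =>
    Good z.1 ∧ Cut z.1 z.2 ∧ LeK κ0 z.1 q0 ∧ κ0 ≤ z.2 ∧ P n z.1 z.2
  let J : ℕ → Cond × ℕ → Cond × ℕ → Prop := fun n z z' =>
    LeK z.2 z'.1 z.1 ∧ z.2 < z'.2 ∧ ∃ m, z.2 ≤ m ∧ m < z'.2 ∧ Large n (z'.1.V m)
  have step : ∀ n (z : {z // I n z}), ∃ z' : {z // I (n + 1) z}, J n z.1 z'.1 := by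
    rintro n ⟨⟨q, κ⟩, h1, h2, h3, h4, h5⟩
    obtain ⟨q', κ', g1, g2, g3, g4, g5, g6⟩ := hs n q κ h1 h2 h3 h4 h5
    exact ⟨⟨(q', κ'), g1, g4, leK_trans h4 g2 h3, h4.trans g3.le, g6⟩, g2, g3, g5⟩
  choose nxt hnxt using step
  have hI0 : I 0 (q0, κ0) :=
    ⟨hg, hc, ⟨⟨rfl, fun p _ => Finset.Subset.refl _, Set.Subset.refl _⟩, fun _ _ => rfl,
      fun _ hx _ => hx⟩, le_rfl, h0⟩
  let S : (n : ℕ) → {z // I n z} := fun n => Nat.rec ⟨(q0, κ0), hI0⟩ (fun n z => nxt n z) n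
  have hS : ∀ n, J n (S n).1 (S (n + 1)).1 := fun n => hnxt n (S n)
  have hF : FSeq (fun n => (S n).1.1) (fun n => (S n).1.2) :=
    { good := fun n => (S n).2.1
      cut := fun n => (S n).2.2.1
      lt := fun n => (hS n).2.1
      le := fun n => (hS n).1
      large := fun n => (hS n).2.2 }
  exact ⟨fun n => (S n).1.1, fun n => (S n).1.2, hF, rfl, rfl, fun n => (S n).2.2.2.2.2,
    fun n => (S n).2.2.2.1, flim (fun n => (S n).1.1) (fun n => (S n).1.2), flim_good hF,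
    fun n => flim_leK hF n⟩

end Helper99.TT
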