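import Pool.Agent.Helper99.TT.Block
import Pool.Agent.Helper99.TT.Fusion

/-! TT-B10b: the fusion theorem for hereditary properties of nodes. -/

set_option autoImplicit false

namespace Helper99.TT

/-- a fat node strictly above the fat node `x` makes a place between with more than one element -/
theorem fuse_aux_split {q : Cond} (hq : Good q) {x z : Node} (hx : x ∈ q.F) (hz : z ∈ q.F)
    (hxz : x <+: z) (hne : x ≠ z) : ∃ p, plc x ≤ p ∧ p < plc z ∧ 1 < (q.V p).card := by
  obtain ⟨s, hs, hp⟩ := hq.chain hx hz hxz hne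
  refine ⟨plc x + s.u.length, Nat.le_add_right _ _, ?_, sstep_card hs⟩
  have h1 := plc_mono hp
  rw [plc_append, plc_singleton] at h1
  omega

/-- no fat node up to `κ` strictly above a leaf -/
theorem fuse_aux_leaf {q : Cond} (hq : Good q) {κ : ℕ} {x z : Node} (hx : Leaf q κ x)
    (hz : z ∈ q.F) (hzκ : plc z ≤ κ) (hxz : x <+: z) : x = z := by
  by_contra hne
  obtain ⟨p, h1, h2, h3⟩ := fuse_aux_split hq hx.1 hz hxz hne
  have h4 := hx.2.2.2 p h1 (by omega)
  omega

/-- the fusion theorem: `Ψ q x` is a hereditary property of fat nodes that can be reached by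
extending the cone, provided the fat nodes below have it -/
theorem fuseK (q0 : Cond) (κ0 : ℕ) (hg : Good q0) (hc : Cut q0 κ0) (Ψ : Cond → Node → Prop)
    (hΨ : ∀ q q' x, Good q → Good q' → LeK κ0 q q0 → LeS q' q → x ∈ q'.F → Ψ q x → Ψ q' x)
    (hreach : ∀ q x, Good q → LeK κ0 q q0 → x ∈ q.F → κ0 < plc x →
      (∀ z ∈ q.F, z <+: x → z ≠ x → κ0 < plc z → Ψ q z) →
      ∃ y q', Good q' ∧ Le y q' (q.cone x) ∧
        ∀ q'', Good q'' → LeS q'' q → q'.t ∈ q''.F → LeS (q''.cone q'.t) q' →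
          (∀ i, i < y.length → q''.V (plc x + i) = {y.getD i 0}) →
          (∀ z ∈ q''.F, z <+: q'.t → z ≠ q'.t → z <+: x ∧ z ≠ x) → Ψ q'' q'.t) :
    ∃ q', Good q' ∧ LeK κ0 q' q0 ∧ ExactFrom q'.V κ0 ∧
      ∀ x ∈ q'.F, κ0 < plc x → Ψ q' x := by
  obtain ⟨Q, K, hF, hQ0, hK0, hP, hQle, q, hq, hqle⟩ := fusion
    (fun _ q κ => (∀ x ∈ q.F, κ0 < plc x → plc x ≤ κ → Ψ q x) ∧
      ∀ p, κ0 ≤ p → p < κ → (q.V p).card = 1 ∨ ∃ N, 2 ≤ N ∧ Exact N (q.V p))
    q0 κ0 hg hc ⟨fun x _ h1 h2 => by omega, fun p h1 h2 => by omega⟩ (by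
      intro n q κ hq hcut hle hκ hP
      obtain ⟨hP1, hP2⟩ := hP
      obtain ⟨q1, hq1, κ1, m, hm1, -, hm2, hle1, hcut1, hex, hsing, hfresh, -⟩ :=
        block closed_good (C := {q | Good q}) hq hcut (max n 2) 0 (le_max_right _ _)
      obtain ⟨q2, hq2, κ2, hle21, hκ2, hcut2, -, -, hV2, hs2, hΨ2⟩ :=
        pass closed_good (C := {q | Good q}) q κ (fun _ _ => True)
          (fun r x => ∀ r', Good r' → LeK κ0 r' q0 → LeS r' r → x ∈ r'.F → Ψ r' x)
          (fun r r' x _ _ hrr' _ h r'' h1 h2 h3 h4 => h r'' h1 h2 (leS_trans hrr' h3) h4)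
          (by
            intro r l x hr hrle hrcut hκl hrf _ hx hκx hxl
            have hr' : Good r := hr
            have hle0 : LeK κ0 r q0 := leK_trans hκ hle hrle
            have hleaf : Leaf r l x := hrf x hx hκx hxl
            obtain ⟨y, q', hq', hy, hprop⟩ := hreach r x hr hle0 hx (by omega) (by
              intro z hz hzx hne hκz
              have h1 : plc z ≤ κ := by
                by_contra hcon
                have h2 := plc_mono hzx
                exact hne (fuse_aux_leaf hr' (hrf z hz (by omega) (by omega)) hx hxl hzx)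
              exact hΨ q r z hq hr hle hrle.1 hz (hP1 z (hrle.1.2.2 hz) hκz h1))
            obtain ⟨r', hr1, κ'', -, hR, hLe, hval⟩ :=
              reach_of_le closed_good (C := {q | Good q}) hr hq' hrcut hleaf hy 0
            have hr1' : Good r' := hr1
            have hRle : LeK κ r' r := Reach.leK hr' hr1' hR hκl hκx
            have ht := (hR.2.2.2.2.2.2 q'.t).2 (Or.inl rfl)
            refine ⟨r', hr1, κ'', q'.t, hR, trivial, fun r'' h1 h2 h3 h4 => ?_⟩
            refine hΨ r' r'' q'.t hr1' h1 (leK_trans hκ hle0 hRle) h3 h4 ?_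
            refine hprop r' hr1' hR.1 ht.1 hLe hval fun z hz hzt hne => ?_
            have h5 := plc_lt hzt hne
            rcases (hR.2.2.2.2.2.2 z).1 ⟨hz, by have := ht.2; omega⟩ with h6 | ⟨h6, h7, h8⟩
            · exact absurd h6 hne
            · refine ⟨?_, h8⟩
              rcases List.prefix_or_prefix_of_prefix hzt hR.2.2.2.2.2.1 with h9 | h9
              · exact h9
              · exact absurd (fuse_aux_leaf hr' hleaf h6 h7 h9).symm h8)
          q1 κ1 hq1 hle1 hcut1 (by omega) hfresh trivial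
      have hle2 : LeK κ q2 q := leK_trans le_rfl hle1 hle21
      have hle02 : LeK κ0 q2 q0 := leK_trans hκ hle hle2
      refine ⟨q2, κ2, hq2, hle2, by omega, hcut2, ⟨m, hm1, by omega, ?_⟩, ?_, ?_⟩
      · rw [hV2 m hm2]
        exact Large_anti (le_max_left _ _) (Exact_large hex)
      · intro x hx hx0 hx2
        by_cases h : plc x ≤ κ
        · exact hΨ q q2 x hq hq2 hle hle2.1 hx (hP1 x (hle2.1.2.2 hx) hx0 h)
        · exact hΨ2 x hx (by omega) hx2 q2 hq2 hle02 (leS_refl q2) hx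
      · intro p hp0 hp2
        by_cases h : p < κ
        · rw [hle2.2.1 p h]
          exact hP2 p hp0 h
        · by_cases h' : p < κ1
          · rw [hV2 p h']
            by_cases hpm : p = m
            · subst hpm
              exact Or.inr ⟨_, le_max_right _ _, hex⟩
            · exact Or.inl (hsing p (by omega) h' hpm)
          · exact Or.inl (hs2 p (by omega) hp2))
  have hK : ∀ n, n ≤ K n := by
    intro n
    induction n with
    | zero => exact Nat.zero_le _
    | succ n ih => have := hF.lt n; omega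
  have hle0 : LeK κ0 q q0 := by
    have h := hqle 0
    rw [hQ0, hK0] at h
    exact h
  refine ⟨q, hq, hle0, fun p hp => ?_, fun x hx hx0 => ?_⟩
  · have h1 := hK (p + 1)
    rw [(hqle (p + 1)).2.1 p (by omega)]
    exact (hP (p + 1)).2 p hp (by omega)
  · have h1 := hK (plc x)
    have h2 := (hqle (plc x)).1.2.2 hx
    exact hΨ (Q (plc x)) q x (hF.good _) hq (hQle _) (hqle _).1 hx ((hP (plc x)).1 x h2 hx0 h1)

/-- the same without a frozen part: the property holds for all fat nodes except the stem -/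
theorem fuse (q0 : Cond) (hg : Good q0) (Ψ : Cond → Node → Prop)
    (hΨ : ∀ q q' x, Good q → Good q' → LeS q q0 → LeS q' q → x ∈ q'.F → Ψ q x → Ψ q' x)
    (hreach : ∀ q x, Good q → LeS q q0 → x ∈ q.F → x ≠ q.t →
      (∀ z ∈ q.F, z <+: x → z ≠ x → z ≠ q.t → Ψ q z) →
      ∃ y q', Good q' ∧ Le y q' (q.cone x) ∧
        ∀ q'', Good q'' → LeS q'' q → q'.t ∈ q''.F → LeS (q''.cone q'.t) q' →
          (∀ i, i < y.length → q''.V (plc x + i) = {y.getD i 0}) →
          (∀ z ∈ q''.F, z <+: q'.t → z ≠ q'.t → z <+: x ∧ z ≠ x) → Ψ q'' q'.t) :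
    ∃ q', Good q' ∧ LeS q' q0 ∧ ExactFrom q'.V (plc q'.t) ∧
      ∀ x ∈ q'.F, x ≠ q'.t → Ψ q' x := by
  obtain ⟨κ0, h0, hc, hs⟩ := exists_cut hg (plc q0.t)
  have key : ∀ q, Good q → LeK κ0 q q0 → ∀ z ∈ q.F, z ≠ q.t → κ0 < plc z := by
    intro q hq hle z hz hne
    obtain ⟨p, h1, h2, h3⟩ := fuse_aux_split hq hq.stem hz (hq.above z hz) (Ne.symm hne)
    rw [hle.1.1] at h1
    by_contra hcon
    have h4 := hs p h1 h1 (by omega)
    rw [hle.2.1 p (by omega)] at h3
    omega
  obtain ⟨q', hq', hle, hex, hall⟩ := fuseK q0 κ0 hg hc Ψ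
    (fun q q' x h1 h2 h3 h4 h5 h6 => hΨ q q' x h1 h2 h3.1 h4 h5 h6)
    (by
      intro q x hq hle hx hx0 hz
      refine hreach q x hq hle.1 hx ?_ fun z hz1 hz2 hz3 hz4 => hz z hz1 hz2 hz3 (key q hq hle z hz1 hz4)
      rintro rfl
      rw [hle.1.1] at hx0
      omega)
  refine ⟨q', hq', hle.1, fun p hp => ?_, fun x hx hne => hall x hx (key q' hq' hle x hx hne)⟩
  rw [hle.1.1] at hp
  by_cases h : p < κ0
  · rw [hle.2.1 p h]
    exact Or.inl (hs p hp hp h)
  · exact hex p (by omega)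

end Helper99.TT
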