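import Pool.Agent.Helper99.TT.Branch

/-! TT-B9: heredity of the properties of conditions. -/

set_option autoImplicit false

namespace Helper99.TT

private theorem rep_self {A : ℕ → H} {n : ℕ} : rep (preA A n) A = A := by
  funext p
  by_cases hp : p < n
  · rw [rep_lt (by rw [preA_length]; exact hp), preA_getD _ hp]
  · rw [rep_ge (by rw [preA_length]; omega)]

private theorem rep_rep {a b : List H} (h : a.length = b.length) (A : ℕ → H) :
    rep b (rep a A) = rep b A := by
  funext p
  by_cases hp : p < b.length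
  · rw [rep_lt hp, rep_lt hp]
  · rw [rep_ge (by omega), rep_ge (by omega), rep_ge (by omega)]

private theorem rep_append {a b y : List H} {A : ℕ → H} (h : a.length = b.length)
    (hA : preA A (a ++ y).length = a ++ y) : rep (b ++ y) A = rep b A := by
  funext p
  by_cases hp : p < b.length
  · rw [rep_lt hp, rep_lt (by rw [List.length_append]; omega), List.getD_append _ _ _ _ hp]
  · by_cases hp' : p < (b ++ y).length
    · rw [rep_lt hp', rep_ge (by omega)]
      have h1 : p < (a ++ y).length := by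
        rw [List.length_append] at hp' ⊢
        omega
      have h2 := preA_getD A h1
      rw [hA] at h2
      rw [← h2, List.getD_append_right _ _ _ _ (by omega),
        List.getD_append_right _ _ _ _ (by omega), h]
    · rw [rep_ge (by omega), rep_ge (by omega)]

theorem Idn.refl {f : Fn} {q : Cond} {a : List H} : Idn f q a a := by
  intro A B hb
  have h1 : a = preA A (plc q.t) := hb.1.symm
  rw [h1, rep_self]

theorem Idn.symm {f : Fn} {q : Cond} (hq : Good q) {a b : List H} (ha : IsPiece q.t a)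
    (hb : IsPiece q.t b) (h : Idn f q a b) : Idn f q b a := by
  intro A B hbr
  have h1 := h _ _ (Br.rep hq ha hbr)
  rw [rep_rep (ha.1.trans hb.1.symm)] at h1
  have h2 : b = preA A (plc q.t) := hbr.1.symm
  rw [h2, rep_self] at h1
  exact h1.symm

theorem Idn.trans {f : Fn} {q : Cond} (hq : Good q) {a b c : List H} (ha : IsPiece q.t a)
    (hb : IsPiece q.t b) (hc : IsPiece q.t c) (h : Idn f q a b) (h' : Idn f q b c) :
    Idn f q a c := by
  intro A B hbr
  have h1 := h A B hbr
  have h2 := h' _ _ (Br.rep hq hb hbr)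
  rw [rep_rep (hb.1.trans hc.1.symm)] at h2
  exact h2.trans h1

/-- identification passes to extensions along the same `y` -/
theorem Idn.le {f : Fn} {q q' : Cond} (hq : Good q) (hq' : Good q') {y a b : List H}
    (ha : IsPiece q.t a) (hb : IsPiece q.t b) (hle : Le y q' q) (h : Idn f q a b) :
    Idn f q' (a ++ y) (b ++ y) := by
  intro A B hbr
  have h1 := h A B (Br.of_leP hq ha ⟨y, rfl, hle⟩ hbr)
  have h2 : preA A (a ++ y).length = a ++ y := by
    have h3 : preA A (plc q'.t) = a ++ y := hbr.1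
    have h4 : (a ++ y).length = plc q'.t := by
      rw [← h3, preA_length]
    rw [h4]
    exact h3
  rw [rep_append (ha.1.trans hb.1.symm) h2]
  exact h1

/-- separated pieces stay separated, even with different continuations -/
theorem Sepd.leP {f : Fn} {q q' : Cond} (hq : Good q) (hq' : Good q') {a b a' b' : List H}
    (ha : IsPiece q.t a) (hb : IsPiece q.t b) (h1 : LeP a' q' a q) (h2 : LeP b' q' b q)
    (h : Sepd f q a b) : Sepd f q' a' b' := by
  obtain ⟨i, e, h3, h4⟩ := h
  exact ⟨i, e, fun A B hbr => h3 A B (Br.of_leP hq ha h1 hbr),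
    fun A B hbr => h4 A B (Br.of_leP hq hb h2 hbr)⟩

theorem Sepd.le {f : Fn} {q q' : Cond} (hq : Good q) (hq' : Good q') {y a b : List H}
    (ha : IsPiece q.t a) (hb : IsPiece q.t b) (hle : Le y q' q) (h : Sepd f q a b) :
    Sepd f q' (a ++ y) (b ++ y) :=
  Sepd.leP hq hq' ha hb ⟨y, rfl, hle⟩ ⟨y, rfl, hle⟩ h

theorem Sepd.not_idn {f : Fn} {q : Cond} (hq : Good q) {a b : List H} (ha : IsPiece q.t a)
    (hb : IsPiece q.t b) (h : Sepd f q a b) : ¬ Idn f q a b := by
  intro hI
  obtain ⟨A, B, hbr⟩ := exists_br hq ha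
  obtain ⟨i, e, h3, h4⟩ := h
  have h5 := hI A B hbr
  have h6 := h3 A B hbr
  have h7 := h4 _ _ (Br.rep hq hb hbr)
  rw [h5, h6] at h7
  cases e <;> simp at h7

theorem FA.leP {f : Fn} {q q' : Cond} (hq : Good q) {a a' : List H} (ha : IsPiece q.t a)
    (h : LeP a' q' a q) (hf : FA f q a) : FA f q' a' :=
  fun A B B' h1 h2 => hf A B B' (Br.of_leP hq ha h h1) (Br.of_leP hq ha h h2)

theorem FB.leP {f : Fn} {q q' : Cond} (hq : Good q) {a a' : List H} (ha : IsPiece q.t a)
    (h : LeP a' q' a q) (hf : FB f q a) : FB f q' a' :=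
  fun A A' B h1 h2 => hf A A' B (Br.of_leP hq ha h h1) (Br.of_leP hq ha h h2)

private theorem sstep_mono {V V' : Fam} {k : ℕ} {x : Node} {s : Step} (hk : k ≤ plc x)
    (hs : SubX k V' V) (h : SStep V' x s) : SStep V x s := by
  refine ⟨?_, hs _ (by omega) h.2.1, hs _ (by omega) h.2.2.1, h.2.2.2⟩
  exact Pool.Agent.Helper98.T.IsPath.mono (fun i hi _ => hs i (le_trans hk hi)) h.1

/-- the comparison of the successors of the stem in `q'` and `q` -/
private theorem succ_compare {q q' : Cond} (hq : Good q) (hq' : Good q') {a : List H}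
    (ha : IsPiece q.t a) (h : LeS q' q) {s : Step} (hs : SStep q'.V q'.t s) {y' : Node}
    (hy' : y' ∈ q'.F) (hg : GapExt q'.V (q'.t ++ [s]) y') {b b' : List H}
    (hb : IsReal q' a y' b) (hb' : IsReal q' a y' b') :
    ∃ y ∈ q.F, SStep q.V q.t s ∧ GapExt q.V (q.t ++ [s]) y ∧ ∃ c c' w : List H,
      b = c ++ w ∧ b' = c' ++ w ∧ IsReal q a y c ∧ IsReal q a y c' ∧
      Le w (q'.cone y') (q.cone y) := by
  have hts : q'.t = q.t := h.1
  rw [hts] at hs hg
  have hs1 : SStep q.V q.t s := sstep_mono (le_refl _) h.2.1 hs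
  obtain ⟨y, hy, hgy, hmin⟩ := hq.succ q.t hq.stem s hs1
  have hy'q : y' ∈ q.F := h.2.2 hy'
  have hyy' : y <+: y' := hmin y' hy'q hg.1
  have hbq : IsReal q a y' b := real_leS h hq hq' hy' hb
  have hbq' : IsReal q a y' b' := real_leS h hq hq' hy' hb'
  have ht1 := real_take hq hy hy'q hyy' hbq
  have ht2 := real_take hq hy hy'q hyy' hbq'
  refine ⟨y, hy, hs1, hgy, b.take (plc y), b'.take (plc y), b.drop (plc y),
    (List.take_append_drop _ _).symm, ?_, ht1.1, ht2.1, ?_⟩
  · have h1 : b.drop (plc y) = b'.drop (plc y) := by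
      have hl : b.length = b'.length := hb.2.2.1.1.trans hb'.2.2.1.1.symm
      refine list_ext_getD (by rw [List.length_drop, List.length_drop, hl]) fun p hp => ?_
      rw [List.length_drop] at hp
      have hlen : b.length = plc y' := hb.2.2.1.1
      have hp1 : plc (q.t ++ [s]) ≤ plc y + p := le_trans (plc_mono hgy.1) (Nat.le_add_right _ _)
      obtain ⟨z, hz, -⟩ := hg.2 (plc y + p) hp1 (by omega)
      have hqt : plc q.t ≤ plc y + p :=
        le_trans (plc_mono (List.prefix_append _ _)) hp1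
      have e1 := hb.2.2.2 (plc y + p) (by rw [hts]; exact hqt) (by omega)
      have e2 := hb'.2.2.2 (plc y + p) (by rw [hts]; exact hqt) (by omega)
      rw [hz, Finset.mem_singleton] at e1 e2
      rw [List.getD_eq_getElem?_getD, List.getD_eq_getElem?_getD, List.getElem?_drop,
        List.getElem?_drop, ← List.getD_eq_getElem?_getD, ← List.getD_eq_getElem?_getD, e1, e2]
    rw [h1, List.take_append_drop]
  · have hlen : b.length = plc y' := hb.2.2.1.1
    have hyl : plc y ≤ plc y' := plc_mono hyy'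
    have hqy : plc q.t ≤ plc y :=
      le_trans (plc_mono (List.prefix_append _ _)) (plc_mono hgy.1)
    refine ⟨⟨hy'q, hyy'⟩, ?_, ?_, ?_, ?_⟩
    · show plc y + (b.drop (plc y)).length = plc y'
      rw [List.length_drop]
      omega
    · intro i hi
      rw [List.length_drop] at hi
      have e0 : (b.drop (plc y)).getD i 0 = b.getD (plc y + i) 0 := by
        rw [List.getD_eq_getElem?_getD, List.getD_eq_getElem?_getD, List.getElem?_drop]
      rw [e0]
      exact ⟨hbq.2.2.2 (plc y + i) (by omega) (by omega), hbq.2.2.1.2 (plc y + i) (by omega)⟩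
    · intro p hp
      have hp : plc y' ≤ p := hp
      exact h.2.1 p (by omega)
    · rintro z ⟨hz1, hz2⟩
      exact ⟨h.2.2 hz1, hyy'.trans hz2⟩

theorem IDn.leS {f : Fn} {q q' : Cond} (hq : Good q) (hq' : Good q') {a : List H}
    (ha : IsPiece q.t a) (h : LeS q' q) (hf : IDn f q a) : IDn f q' a := by
  intro s hs y' hy' hg b b' hb hb'
  obtain ⟨y, hy, hs1, hgy, c, c', w, rfl, rfl, hc, hc', hle⟩ :=
    succ_compare hq hq' ha h hs hy' hg hb hb'
  exact Idn.le (cone_good hq hy) (cone_good hq' hy') hc.2.2.1 hc'.2.2.1 hle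
    (hf s hs1 y hy hgy c c' hc hc')

theorem SEPn.leS {f : Fn} {q q' : Cond} (hq : Good q) (hq' : Good q') {a : List H}
    (ha : IsPiece q.t a) (h : LeS q' q) (hf : SEPn f q a) : SEPn f q' a := by
  intro s hs y' hy' hg b b' hb hb' hne
  obtain ⟨y, hy, hs1, hgy, c, c', w, rfl, rfl, hc, hc', hle⟩ :=
    succ_compare hq hq' ha h hs hy' hg hb hb'
  exact Sepd.le (cone_good hq hy) (cone_good hq' hy') hc.2.2.1 hc'.2.2.1 hle
    (hf s hs1 y hy hgy c c' hc hc' (fun h' => hne (by rw [h'])))

theorem HasLim.leS {f : Fn} {q q' : Cond} (hq : Good q) (hq' : Good q') {a : List H}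
    (ha : IsPiece q.t a) (h : LeS q' q) (hf : HasLim f q a) : HasLim f q' a := by
  obtain ⟨r, hr⟩ := hf
  have hts : q'.t = q.t := h.1
  refine ⟨r, fun l => ?_⟩
  obtain ⟨m, h1, h2⟩ := hr l
  refine ⟨m, fun e A A' hA hA' hag i hi => ?_, fun A B hbr hm i hi => ?_⟩
  · rw [hts] at hA hA' hag
    exact h1 e A A' (fun p hp => h.2.1 p hp (hA p hp)) (fun p hp => h.2.1 p hp (hA' p hp)) hag i hi
  · rw [hts] at hm ⊢
    exact h2 A B (Br.of_leS hq h hbr) hm i hi

theorem Decode.leS {f : Fn} {q q' : Cond} (hq : Good q) {a : List H} (ha : IsPiece q.t a)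
    (h : LeS q' q) {x : Node} (hf : Decode f q a x) : Decode f q' a x := by
  obtain ⟨l, hl⟩ := hf
  exact ⟨l, fun A B A' B' h1 h2 => hl A B A' B' (Br.of_leS hq h h1) (Br.of_leS hq h h2)⟩

theorem Decode.leP {f : Fn} {q q' : Cond} (hq : Good q) {a a' : List H} (ha : IsPiece q.t a)
    (h : LeP a' q' a q) {x : Node} (hf : Decode f q a x) : Decode f q' a' x := by
  obtain ⟨l, hl⟩ := hf
  exact ⟨l, fun A B A' B' h1 h2 => hl A B A' B' (Br.of_leP hq ha h h1) (Br.of_leP hq ha h h2)⟩

/-- transfer of a real piece to another piece of the stem -/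
private theorem real_transfer {q : Cond} (hq : Good q) {a b c : List H} (ha : IsPiece q.t a)
    {y : Node} (hy : y ∈ q.F) (hc : IsReal q b y c) :
    ∃ w, c = b ++ w ∧ Le w (q.cone y) q ∧ IsReal q a y (a ++ w) := by
  obtain ⟨w, hw, hle⟩ := cone_leP hq hy hc
  exact ⟨w, hw, hle, real_of_leP hq ha ⟨w, rfl, hle⟩⟩

/-- if the pieces `a, b` are identified and the stem is ID for `a` then it is ID for `b` -/
theorem IDn.of_idn {f : Fn} {q : Cond} (hq : Good q) {a b : List H} (ha : IsPiece q.t a)
    (hb : IsPiece q.t b) (h : Idn f q a b) (hI : IDn f q a) : IDn f q b := by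
  intro s hs y hy hg c c' hc hc'
  obtain ⟨w, rfl, hle, hw⟩ := real_transfer hq ha hy hc
  obtain ⟨w', rfl, hle', hw'⟩ := real_transfer hq ha hy hc'
  have hcone := cone_good hq hy
  have e1 := hI s hs y hy hg _ _ hw hw'
  have e2 := Idn.le hq hcone ha hb hle h
  have e3 := Idn.le hq hcone ha hb hle' h
  exact Idn.trans hcone hc.2.2.1 hw.2.2.1 hc'.2.2.1 (Idn.symm hcone hw.2.2.1 hc.2.2.1 e2)
    (Idn.trans hcone hw.2.2.1 hw'.2.2.1 hc'.2.2.1 e1 e3)

/-- If the stem is ID for `a` and for `b`, and `a ~ b`, then all real pieces over `a` or `b` at a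
successor are identified. -/
theorem IDn.succ {f : Fn} {q : Cond} (hq : Good q) {a b : List H} (ha : IsPiece q.t a)
    (hb : IsPiece q.t b) (h : Idn f q a b) (hI : IDn f q a) {s : Step} (hs : SStep q.V q.t s)
    {y : Node} (hy : y ∈ q.F) (hg : GapExt q.V (q.t ++ [s]) y) {c d : List H}
    (hc : IsReal q a y c) (hd : IsReal q b y d) : Idn f (q.cone y) c d := by
  obtain ⟨w, rfl, hle, hw⟩ := real_transfer hq ha hy hd
  have hcone := cone_good hq hy
  exact Idn.trans hcone hc.2.2.1 hw.2.2.1 hd.2.2.1 (hI s hs y hy hg _ _ hc hw)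
    (Idn.le hq hcone ha hb hle h)

end Helper99.TT
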