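import Pool.Agent.Helper99.TT.ReadD
import Pool.Agent.Helper99.TT.Fuse

/-! TT-G3: the function of a reading. -/

set_option autoImplicit false

namespace Helper99.TT

theorem readA_getElem?_of_prefix {s t : List Bool} (h : s <+: t) {i : ℕ} (hi : i < s.length) :
    t[i]? = s[i]? := by
  obtain ⟨u, rfl⟩ := h
  rw [List.getElem?_append_left hi]

theorem rdFn_eq {R : Rd} {q : Cond} (hq : Good q) {a : List H} (hR : Reading R q a) {A : ℕ → H}
    {B : ℕ → Step} (hb : Br q a A B) {x : Node} (hx : x ∈ q.F) (hBx : Thru B x) {i : ℕ}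
    (hi : i < (R (preA A (plc x)) x).length) :
    rdFn R q A B i = (R (preA A (plc x)) x).getD i false := by
  classical
  have key : ∀ x' ∈ q.F, Thru B x' → (R (preA A (plc x')) x')[i]? = some true →
      (R (preA A (plc x)) x)[i]? = some true := by
    intro x' hx' hBx' h'
    have hr := (Br.cone hq hb hx hBx).2
    have hr' := (Br.cone hq hb hx' hBx').2
    rcases Thru_comparable hBx hBx' with h | h
    · have hp := hR.mono x hx x' hx' h _ _ hr hr' (preA_mono A (plc_mono h))
      rw [← readA_getElem?_of_prefix hp hi]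
      exact h'
    · have hp := hR.mono x' hx' x hx h _ _ hr' hr (preA_mono A (plc_mono h))
      have hi' : i < (R (preA A (plc x')) x').length := by
        by_contra hcon
        rw [List.getElem?_eq_none (by omega)] at h'
        cases h'
      rw [readA_getElem?_of_prefix hp hi']
      exact h'
  unfold rdFn
  rw [List.getD_eq_getElem?_getD]
  by_cases hex : ∃ x' ∈ q.F, Thru B x' ∧ (R (preA A (plc x')) x')[i]? = some true
  · obtain ⟨x', hx', hBx', h'⟩ := hex
    have h1 := key x' hx' hBx' h'
    rw [h1, if_pos ⟨x, hx, hBx, h1⟩]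
    rfl
  · rw [if_neg hex]
    have hne : (R (preA A (plc x)) x)[i]? ≠ some true := fun h => hex ⟨x, hx, hBx, h⟩
    rw [List.getElem?_eq_getElem hi] at hne ⊢
    cases hv : (R (preA A (plc x)) x)[i] with
    | true => exact absurd (by rw [hv]) hne
    | false => rfl

theorem rdFn_cont {R : Rd} {q : Cond} (hq : Good q) {a : List H} (hR : Reading R q a) :
    Cont (rdFn R q) q a := by
  intro A B hb l
  obtain ⟨K, hK⟩ := hR.long l
  obtain ⟨x, hx, hBx, hxl, hxp⟩ := hb.exists_fat K
  refine ⟨plc x, fun A' B' hb' hag i hi => ?_⟩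
  have hBx' : Thru B' x := by
    have h1 : preB B' x.length = preB B x.length := by
      rw [preB_eq_iff]
      intro j hj
      exact (hag j (lt_of_lt_of_le hj (length_le_plc x))).2
    unfold Thru
    rw [h1]
    exact hBx
  have hA : preA A' (plc x) = preA A (plc x) := by
    rw [preA_eq_iff]
    intro j hj
    exact (hag j hj).1
  have hr := (Br.cone hq hb hx hBx).2
  have hlen : l ≤ (R (preA A (plc x)) x).length := hK x hx hxp _ hr
  rw [rdFn_eq hq hR hb hx hBx (lt_of_lt_of_le hi hlen),
    rdFn_eq hq hR hb' hx hBx' (by rw [hA]; exact lt_of_lt_of_le hi hlen), hA]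

theorem Reading.leP {R : Rd} {q q' : Cond} (hq : Good q) {a a' : List H} (ha : IsPiece q.t a)
    (hR : Reading R q a) (h : LeP a' q' a q) : Reading R q' a' := by
  have hreal := real_of_leP hq ha h
  obtain ⟨y, hy, hle⟩ := h
  have hF : q'.F ⊆ q.F := hle.2.2.2.2
  have hsub : SubX (plc q'.t) q'.V q.V := hle.2.2.2.1
  have tr : ∀ x b, IsReal q' a' x b → IsReal q a x b := by
    intro x b hb
    refine ⟨ha, hreal.2.1.trans hb.2.1, hb.2.2.1, fun p hp hp' => ?_⟩
    by_cases hlt : p < plc q'.t
    · have hlen : a'.length = plc q'.t := hreal.2.2.1.1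
      rw [getD_prefix hb.2.1 (by rw [hlen]; exact hlt)]
      exact hreal.2.2.2 p hp hlt
    · exact hsub p (not_lt.mp hlt) (hb.2.2.2 p (not_lt.mp hlt) hp')
  constructor
  · intro x hx z hz hxz b c hb hc hbc
    exact hR.mono x (hF hx) z (hF hz) hxz b c (tr x b hb) (tr z c hc) hbc
  · intro n
    obtain ⟨K, hK⟩ := hR.long n
    exact ⟨K, fun x hx hKx b hb => hK x (hF hx) hKx b (tr x b hb)⟩

end Helper99.TT
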