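import Pool.Agent.Helper99.TT.Defs

/-! TT-B1: elementary facts about places, entries, initial segments. -/

set_option autoImplicit false

namespace Helper99.TT

theorem Step.size_pos (s : Step) : 0 < s.size := by
  unfold Step.size
  omega

theorem plc_nil : plc [] = 0 := rfl

theorem plc_append (x y : Node) : plc (x ++ y) = plc x + plc y := by
  unfold plc
  rw [List.map_append, List.sum_append]

theorem plc_singleton (s : Step) : plc [s] = s.u.length + 1 := by
  simp [plc, Step.size]

theorem plc_cons (s : Step) (x : Node) : plc (s :: x) = s.size + plc x := by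
  simp [plc]

theorem plc_mono {x y : Node} (h : x <+: y) : plc x ≤ plc y := by
  obtain ⟨z, rfl⟩ := h
  rw [plc_append]
  omega

theorem length_le_plc (x : Node) : x.length ≤ plc x := by
  induction x with
  | nil => exact Nat.zero_le _
  | cons s x ih =>
    rw [plc_cons, List.length_cons]
    have := s.size_pos
    omega

theorem plc_lt {x y : Node} (h : x <+: y) (hne : x ≠ y) : plc x < plc y := by
  obtain ⟨z, rfl⟩ := h
  rw [plc_append]
  have h1 : z ≠ [] := by
    rintro rfl
    exact hne (List.append_nil x).symm
  have h2 := length_le_plc z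
  have h3 := List.length_pos_iff.2 h1
  omega

theorem ent_append_left (x y : Node) {p : ℕ} (h : p < plc x) : ent (x ++ y) p = ent x p := by
  induction x generalizing p with
  | nil => exact absurd h (Nat.not_lt_zero _)
  | cons s x ih =>
    rw [plc_cons] at h
    rw [List.cons_append, ent, ent]
    by_cases hp : p < s.size
    · rw [if_pos hp, if_pos hp]
    · rw [if_neg hp, if_neg hp]
      exact ih (by omega)

theorem ent_append_right (x y : Node) (p : ℕ) : ent (x ++ y) (plc x + p) = ent y p := by
  induction x with
  | nil =>
    rw [plc_nil, List.nil_append, Nat.zero_add]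
  | cons s x ih =>
    rw [plc_cons, List.cons_append, ent, if_neg (by omega)]
    rw [show s.size + plc x + p - s.size = plc x + p by omega]
    exact ih

theorem ent_prefix {x y : Node} (h : x <+: y) {p : ℕ} (hp : p < plc x) : ent y p = ent x p := by
  obtain ⟨z, rfl⟩ := h
  exact ent_append_left x z hp

theorem ent_nonempty {x : Node} {p : ℕ} (h : p < plc x) : (ent x p).Nonempty := by
  induction x generalizing p with
  | nil => exact absurd h (Nat.not_lt_zero _)
  | cons s x ih =>
    rw [plc_cons] at h
    rw [ent]
    by_cases hp : p < s.size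
    · rw [if_pos hp]
      unfold Step.ent
      by_cases h1 : p < s.u.length
      · rw [if_pos h1]
        exact Finset.singleton_nonempty _
      · rw [if_neg h1]
        exact Finset.insert_nonempty _ _
    · rw [if_neg hp]
      exact ih (by omega)

theorem ent_singleton_lt {s : Step} {i : ℕ} (h : i < s.u.length) : ent [s] i = {s.u.getD i 0} := by
  rw [ent, if_pos (by unfold Step.size; omega)]
  unfold Step.ent
  rw [if_pos h]

theorem ent_singleton_last (s : Step) : ent [s] s.u.length = {s.v, s.w} := by
  rw [ent, if_pos (by unfold Step.size; omega)]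
  unfold Step.ent
  rw [if_neg (lt_irrefl _)]

theorem ent_empty {x : Node} {p : ℕ} (h : plc x ≤ p) : ent x p = ∅ := by
  induction x generalizing p with
  | nil => rfl
  | cons s x ih =>
    rw [plc_cons] at h
    rw [ent, if_neg (by omega)]
    exact ih (by omega)

/-- two nodes with the same length which are initial segments of `B` are equal etc. -/
theorem preB_length (B : ℕ → Step) (n : ℕ) : (preB B n).length = n := by
  simp [preB]

theorem preA_length (A : ℕ → H) (n : ℕ) : (preA A n).length = n := by
  simp [preA]

theorem preA_getD (A : ℕ → H) {n p : ℕ} (h : p < n) : (preA A n).getD p 0 = A p := by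
  simp [preA, List.getD_eq_getElem?_getD, h]

theorem preB_succ (B : ℕ → Step) (n : ℕ) : preB B (n + 1) = preB B n ++ [B n] := by
  simp [preB, List.range_succ]

theorem preA_succ (A : ℕ → H) (n : ℕ) : preA A (n + 1) = preA A n ++ [A n] := by
  simp [preA, List.range_succ]

theorem preB_mono (B : ℕ → Step) {m n : ℕ} (h : m ≤ n) : preB B m <+: preB B n := by
  induction n with
  | zero =>
    have : m = 0 := by omega
    subst this
    exact List.prefix_refl _
  | succ n ih =>
    rcases Nat.lt_or_ge n m with h1 | h1
    · have : m = n + 1 := by omega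
      subst this
      exact List.prefix_refl _
    · rw [preB_succ]
      exact (ih h1).trans (List.prefix_append _ _)

theorem preA_mono (A : ℕ → H) {m n : ℕ} (h : m ≤ n) : preA A m <+: preA A n := by
  induction n with
  | zero =>
    have : m = 0 := by omega
    subst this
    exact List.prefix_refl _
  | succ n ih =>
    rcases Nat.lt_or_ge n m with h1 | h1
    · have : m = n + 1 := by omega
      subst this
      exact List.prefix_refl _
    · rw [preA_succ]
      exact (ih h1).trans (List.prefix_append _ _)

theorem eq_of_prefix_of_length {α : Type*} {x y z : List α} (hx : x <+: z) (hy : y <+: z)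
    (h : x.length = y.length) : x = y := by
  have h1 := List.prefix_iff_eq_take.1 hx
  have h2 := List.prefix_iff_eq_take.1 hy
  rw [h1, h2, h]

theorem prefix_preB {B : ℕ → Step} {x : Node} {n : ℕ} (h : x <+: preB B n) : Thru B x := by
  have h1 := h.length_le
  rw [preB_length] at h1
  exact eq_of_prefix_of_length (preB_mono B h1) h (preB_length _ _)

theorem Thru_mono {B : ℕ → Step} {x y : Node} (h : x <+: y) (hy : Thru B y) : Thru B x := by
  have h1 : x <+: preB B y.length := by
    rw [show preB B y.length = y from hy]
    exact h
  exact prefix_preB h1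

theorem Thru_prefix_preB {B : ℕ → Step} {x : Node} (hx : Thru B x) {n : ℕ} (h : x.length ≤ n) :
    x <+: preB B n := by
  have h1 := preB_mono B h
  rw [show preB B x.length = x from hx] at h1
  exact h1

theorem Thru_comparable {B : ℕ → Step} {x y : Node} (hx : Thru B x) (hy : Thru B y) :
    x <+: y ∨ y <+: x := by
  rcases le_total x.length y.length with h | h
  · left
    have h1 := Thru_prefix_preB hx h
    rw [show preB B y.length = y from hy] at h1
    exact h1
  · right
    have h1 := Thru_prefix_preB hy h
    rw [show preB B x.length = x from hx] at h1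
    exact h1

theorem preA_eq_iff {A A' : ℕ → H} {n : ℕ} : preA A n = preA A' n ↔ ∀ i, i < n → A i = A' i := by
  unfold preA
  rw [List.map_inj_left]
  constructor
  · intro h i hi
    exact h i (List.mem_range.2 hi)
  · intro h i hi
    exact h i (List.mem_range.1 hi)

theorem preB_eq_iff {B B' : ℕ → Step} {n : ℕ} : preB B n = preB B' n ↔ ∀ i, i < n → B i = B' i := by
  unfold preB
  rw [List.map_inj_left]
  constructor
  · intro h i hi
    exact h i (List.mem_range.2 hi)
  · intro h i hi
    exact h i (List.mem_range.1 hi)

theorem preA_eq_of_agree {A A' : ℕ → H} {n : ℕ} (h : ∀ i, i < n → A i = A' i) :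
    preA A n = preA A' n := preA_eq_iff.2 h

theorem rep_lt {a : List H} {A : ℕ → H} {p : ℕ} (h : p < a.length) : rep a A p = a.getD p 0 := by
  unfold rep
  rw [if_pos h]

theorem rep_ge {a : List H} {A : ℕ → H} {p : ℕ} (h : a.length ≤ p) : rep a A p = A p := by
  unfold rep
  rw [if_neg (by omega)]

/-- extensionality for lists through `getD` -/
theorem list_ext_getD {a b : List H} (hl : a.length = b.length)
    (h : ∀ p, p < a.length → a.getD p 0 = b.getD p 0) : a = b := by
  refine List.ext_getElem hl fun i h1 h2 => ?_
  have h3 := h i h1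
  rw [List.getD_eq_getElem _ _ h1, List.getD_eq_getElem _ _ h2] at h3
  exact h3

theorem preA_rep {a : List H} {A : ℕ → H} : preA (rep a A) a.length = a := by
  refine list_ext_getD (preA_length _ _) fun p hp => ?_
  rw [preA_length] at hp
  rw [preA_getD _ hp, rep_lt hp]

theorem getD_prefix {a b : List H} (h : a <+: b) {p : ℕ} (hp : p < a.length) :
    b.getD p 0 = a.getD p 0 := by
  obtain ⟨c, rfl⟩ := h
  rw [List.getD_append _ _ _ _ hp]

theorem prefix_of_getD {a b : List H} (hl : a.length ≤ b.length)
    (h : ∀ p, p < a.length → b.getD p 0 = a.getD p 0) : a <+: b := by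
  rw [List.prefix_iff_eq_take]
  refine list_ext_getD ?_ fun p hp => ?_
  · rw [List.length_take]
    omega
  · rw [← h p hp, List.getD_eq_getElem _ _ (by omega),
      List.getD_eq_getElem _ _ (by rw [List.length_take]; omega), List.getElem_take]

theorem finite_lists {n : ℕ} (S : ℕ → Finset H) :
    {a : List H | a.length = n ∧ ∀ p, p < n → a.getD p 0 ∈ S p}.Finite := by
  have h1 : {a : List H | a.length = n ∧ ∀ p, p < n → a.getD p 0 ∈ S p} ⊆
      {a : List H | a.length = n ∧ ∀ x ∈ a, x ∈ (Finset.range n).biUnion S} := by
    rintro a ⟨ha, hp⟩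
    refine ⟨ha, fun x hx => ?_⟩
    obtain ⟨i, hi, rfl⟩ := List.getElem_of_mem hx
    rw [Finset.mem_biUnion]
    refine ⟨i, Finset.mem_range.2 (ha ▸ hi), ?_⟩
    rw [← List.getD_eq_getElem _ 0 hi]
    exact hp i (ha ▸ hi)
  refine Set.Finite.subset ?_ h1
  refine ((List.finite_length_eq {x // x ∈ (Finset.range n).biUnion S} n).image
    (List.map Subtype.val)).subset ?_
  rintro a ⟨ha, hx⟩
  refine ⟨a.pmap Subtype.mk hx, ?_, ?_⟩
  · rw [Set.mem_ofPred_eq, List.length_pmap]
    exact ha
  · rw [List.map_pmap]
    simp

theorem finite_pieces (x : Node) : {a | IsPiece x a}.Finite := finite_lists (n := plc x) (ent x)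

theorem finite_real (q : Cond) (a : List H) (x : Node) : {b | IsReal q a x b}.Finite :=
  (finite_pieces x).subset fun _ hb => hb.2.2.1

end Helper99.TT
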