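import Pool.Agent.Helper99.TT.BranchA

/-! TT-B8b: existence of branches. -/

set_option autoImplicit false

namespace Helper99.TT

/-- dependent choice -/
theorem exists_seq_rel {α : Type*} {P : α → Prop} {R : α → α → Prop}
    (h : ∀ x, P x → ∃ y, P y ∧ R x y) {x0 : α} (h0 : P x0) :
    ∃ X : ℕ → α, X 0 = x0 ∧ (∀ n, P (X n)) ∧ ∀ n, R (X n) (X (n + 1)) := by
  classical
  choose f hf hR using h
  let g : {x // P x} → {x // P x} := fun x => ⟨f x.1 x.2, hf x.1 x.2⟩
  refine ⟨fun n => (g^[n] ⟨x0, h0⟩).1, rfl, fun n => (g^[n] ⟨x0, h0⟩).2, fun n => ?_⟩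
  show R (g^[n] ⟨x0, h0⟩).1 (g^[n + 1] ⟨x0, h0⟩).1
  rw [Function.iterate_succ_apply']
  exact hR _ _

theorem seq_prefix {X : ℕ → Node} (hX : ∀ n, X n <+: X (n + 1)) {m n : ℕ} (h : m ≤ n) :
    X m <+: X n := by
  induction n, h using Nat.le_induction with
  | base => exact List.prefix_rfl
  | succ n _ ih => exact ih.trans (hX n)

theorem seq_length {X : ℕ → Node} (hl : ∀ n, (X n).length < (X (n + 1)).length) (n : ℕ) :
    n ≤ (X n).length := by
  induction n with
  | zero => exact Nat.zero_le _
  | succ n ih => exact lt_of_le_of_lt ih (hl n)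

theorem getD_of_prefix {x y : Node} (h : x <+: y) {i : ℕ} (hi : i < x.length) (d : Step) :
    y.getD i d = x.getD i d := by
  obtain ⟨z, rfl⟩ := h
  rw [List.getD_append _ _ _ _ hi]

/-- the limit of a strictly increasing sequence of nodes -/
theorem exists_lim {X : ℕ → Node} (hX : ∀ n, X n <+: X (n + 1))
    (hl : ∀ n, (X n).length < (X (n + 1)).length) : ∃ B : ℕ → Step, ∀ n, Thru B (X n) := by
  let d : Step := ⟨[], 0, 0⟩
  refine ⟨fun i => (X (i + 1)).getD i d, fun n => ?_⟩
  have key : ∀ i, i < (X n).length → (X (i + 1)).getD i d = (X n).getD i d := by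
    intro i hi
    rcases le_total n (i + 1) with h | h
    · exact getD_of_prefix (seq_prefix hX h) hi d
    · exact (getD_of_prefix (seq_prefix hX h)
        (lt_of_lt_of_le (Nat.lt_succ_self i) (seq_length hl (i + 1))) d).symm
  unfold Thru preB
  apply List.ext_getElem
  · simp
  · intro i h1 h2
    rw [List.getElem_map, List.getElem_range, key i h2, List.getD_eq_getElem _ _ h2]

theorem br_of_seq {q : Cond} {a : List H} (ha : IsPiece q.t a) {X : ℕ → Node}
    (h0 : q.t <+: X 0) (hF : ∀ n, X n ∈ q.F) (hX : ∀ n, X n <+: X (n + 1))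
    (hl : ∀ n, (X n).length < (X (n + 1)).length) {A : ℕ → H} (hA : preA A (plc q.t) = a)
    (hAV : InX q.V (plc q.t) A)
    (hAX : ∀ n p, plc q.t ≤ p → p < plc (X n) → A p ∈ ent (X n) p) :
    ∃ B, Br q a A B ∧ ∀ n, Thru B (X n) := by
  obtain ⟨B, hB⟩ := exists_lim hX hl
  refine ⟨B, ⟨hA, ?_, ?_, hAV, ?_⟩, hB⟩
  · exact Thru_mono h0 (hB 0)
  · intro n p hp
    have hn : preB B n <+: X n := by
      rw [← hB n]
      exact preB_mono B (seq_length hl n)
    rw [← ent_prefix hn hp]
    rcases lt_or_ge p (plc q.t) with h | h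
    · have h1 : q.t <+: X n := h0.trans (seq_prefix hX (Nat.zero_le n))
      rw [ent_prefix h1 h]
      have h2 := ha.2 p h
      rw [← hA, preA_getD A h] at h2
      exact h2
    · exact hAX n p h (lt_of_lt_of_le hp (plc_mono hn))
  · intro n
    refine ⟨(X n).length, seq_length hl n, ?_⟩
    rw [hB n]
    exact hF n

/-- a path through nonempty sets -/
theorem exists_path {V : Fam} (hV : ∀ i, (V i).Nonempty) (k l : ℕ) :
    ∃ u : List H, u.length = l ∧ Path V k u := by
  classical
  choose f hf using hV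
  refine ⟨(List.range l).map fun i => f (k + i), by simp, ?_⟩
  rw [path_iff]
  intro i hi
  have hi' : i < l := by simpa using hi
  rw [List.getD_eq_getElem _ _ hi, List.getElem_map, List.getElem_range]
  exact hf _

theorem exists_sstep {V : Fam} (hV : IsX V) (x : Node) : ∃ s, SStep V x s := by
  obtain ⟨i, hi, hL⟩ := hV.2 (x.length + 2) (plc x)
  obtain ⟨v, hv, w, hw, hp⟩ := Large_pair (j := x.length) hL (by omega) (by omega)
  obtain ⟨u, hu, hpath⟩ := exists_path hV.1 (plc x) (i - plc x)
  refine ⟨⟨u, v, w⟩, hpath, ?_, ?_, hp⟩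
  · show v ∈ V (plc x + u.length)
    rw [hu, Nat.add_sub_cancel' hi]
    exact hv
  · show w ∈ V (plc x + u.length)
    rw [hu, Nat.add_sub_cancel' hi]
    exact hw

theorem length_lt_of_prefix {x y : Node} {s : Step} (h : (x ++ [s]) <+: y) :
    x.length < y.length := by
  have := h.length_le
  rw [List.length_append, List.length_singleton] at this
  omega

/-- every fat node starts a strictly increasing sequence of fat nodes -/
theorem exists_fat_seq {q : Cond} (hq : Good q) {x : Node} (hx : x ∈ q.F) :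
    ∃ X : ℕ → Node, X 0 = x ∧ (∀ n, X n ∈ q.F) ∧ (∀ n, X n <+: X (n + 1)) ∧
      ∀ n, (X n).length < (X (n + 1)).length := by
  obtain ⟨X, h0, hF, hR⟩ := exists_seq_rel (P := fun x => x ∈ q.F)
    (R := fun x y : Node => x <+: y ∧ x.length < y.length) (fun x hx => by
      obtain ⟨s, hs⟩ := exists_sstep hq.isX x
      obtain ⟨y, hy, hg, -⟩ := hq.succ x hx s hs
      exact ⟨y, hy, (List.prefix_append x [s]).trans hg.1, length_lt_of_prefix hg.1⟩) hx
  exact ⟨X, h0, hF, fun n => (hR n).1, fun n => (hR n).2⟩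

/-- real entries exist -/
theorem exists_entry {q : Cond} (hq : Good q) {x : Node} (hx : x ∈ q.F) {p : ℕ}
    (hp : plc q.t ≤ p) (hp' : p < plc x) : ∃ z, z ∈ q.V p ∧ z ∈ ent x p := by
  rcases hq.entry hx hp hp' with ⟨z, hz, hz'⟩ | ⟨-, h⟩
  · exact ⟨z, by rw [hz]; exact Finset.mem_singleton_self z, hz'⟩
  · obtain ⟨z, hz⟩ := ent_nonempty hp'
    exact ⟨z, h hz, hz⟩

/-- a branch along a given sequence of fat nodes, with a prescribed choice at one place -/
theorem exists_br_seq {q : Cond} (hq : Good q) {a : List H} (ha : IsPiece q.t a) {X : ℕ → Node}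
    (h0 : q.t <+: X 0) (hF : ∀ n, X n ∈ q.F) (hX : ∀ n, X n <+: X (n + 1))
    (hl : ∀ n, (X n).length < (X (n + 1)).length) {m : ℕ} (hm : plc q.t ≤ m)
    (hm' : m < plc (X 0)) {z : H} (hz : z ∈ q.V m) (hz' : z ∈ ent (X 0) m) :
    ∃ A B, Br q a A B ∧ (∀ n, Thru B (X n)) ∧ A m = z := by
  classical
  have hplc : ∀ p, p < plc (X (p + 1)) := fun p =>
    lt_of_lt_of_le (lt_of_lt_of_le (Nat.lt_succ_self p) (seq_length hl (p + 1)))
      (length_le_plc _)
  have hex : ∀ p, ∃ z', (plc q.t ≤ p → z' ∈ q.V p ∧ z' ∈ ent (X (p + 1)) p) := by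
    intro p
    rcases lt_or_ge p (plc q.t) with h | h
    · exact ⟨0, fun h' => absurd h' (not_le.2 h)⟩
    · obtain ⟨z', h1, h2⟩ := exists_entry hq (hF (p + 1)) h (hplc p)
      exact ⟨z', fun _ => ⟨h1, h2⟩⟩
  choose f hf using hex
  let A : ℕ → H := fun p => if p < plc q.t then a.getD p 0 else if p = m then z else f p
  have hA1 : ∀ p, p < plc q.t → A p = a.getD p 0 := fun p hp => if_pos hp
  have hAm : A m = z := by
    show (if m < plc q.t then a.getD m 0 else if m = m then z else f m) = z
    rw [if_neg (not_lt.2 hm), if_pos rfl]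
  have hA2 : ∀ p, plc q.t ≤ p → p ≠ m → A p = f p := fun p hp hpm => by
    show (if p < plc q.t then a.getD p 0 else if p = m then z else f p) = f p
    rw [if_neg (not_lt.2 hp), if_neg hpm]
  have hA : preA A (plc q.t) = a := by
    apply list_ext_getD
    · rw [preA_length, ha.1]
    · intro p hp
      rw [preA_length] at hp
      rw [preA_getD A hp, hA1 p hp]
  have hAV : InX q.V (plc q.t) A := by
    intro p hp
    by_cases hpm : p = m
    · subst hpm
      rw [hAm]
      exact hz
    · rw [hA2 p hp hpm]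
      exact (hf p hp).1
  have hAX : ∀ n p, plc q.t ≤ p → p < plc (X n) → A p ∈ ent (X n) p := by
    intro n p hp hpn
    by_cases hpm : p = m
    · subst hpm
      rw [hAm, ent_prefix (seq_prefix hX (Nat.zero_le n)) hm']
      exact hz'
    · rw [hA2 p hp hpm]
      have h2 := (hf p hp).2
      rcases le_total n (p + 1) with h | h
      · rwa [ent_prefix (seq_prefix hX h) hpn] at h2
      · rwa [ent_prefix (seq_prefix hX h) (hplc p)]
  obtain ⟨B, hB, hT⟩ := br_of_seq ha h0 hF hX hl hA hAV hAX
  exact ⟨A, B, hB, hT, hAm⟩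

theorem exists_br_step {q : Cond} (hq : Good q) {a : List H} (ha : IsPiece q.t a) {s : Step}
    (hs : SStep q.V q.t s) (e : Bool) : ∃ A B, Br q a A B ∧ Thru B (q.t ++ [s]) ∧
      A (plc q.t + s.u.length) = (if e then s.w else s.v) := by
  obtain ⟨y, hy, hg, -⟩ := hq.succ q.t hq.stem s hs
  obtain ⟨X, h0, hF, hX, hl⟩ := exists_fat_seq hq hy
  have hlt : plc q.t + s.u.length < plc (q.t ++ [s]) := by
    rw [plc_append, plc_singleton]
    omega
  have hent : ent y (plc q.t + s.u.length) = {s.v, s.w} := by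
    rw [ent_prefix hg.1 hlt, ent_append_right, ent_singleton_last]
  obtain ⟨A, B, hB, hT, hm⟩ := exists_br_seq hq ha (X := X)
    (by rw [h0]; exact (List.prefix_append q.t [s]).trans hg.1) hF hX hl
    (m := plc q.t + s.u.length) (Nat.le_add_right _ _)
    (by rw [h0]; exact lt_of_lt_of_le hlt (plc_mono hg.1))
    (z := if e then s.w else s.v)
    (by cases e <;> simp [hs.2.1, hs.2.2.1]) (by rw [h0, hent]; cases e <;> simp)
  refine ⟨A, B, hB, ?_, hm⟩
  have h1 := hT 0
  rw [h0] at h1
  exact Thru_mono hg.1 h1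

/-- every condition has a branch; moreover through any given splitting step -/
theorem exists_br {q : Cond} (hq : Good q) {a : List H} (ha : IsPiece q.t a) :
    ∃ A B, Br q a A B := by
  obtain ⟨s, hs⟩ := exists_sstep hq.isX q.t
  obtain ⟨A, B, hB, -, -⟩ := exists_br_step hq ha hs false
  exact ⟨A, B, hB⟩

/-- If every `V p` is a singleton or an exact tree, then every point of `[V]` is the `A`-part of a
branch. -/
theorem exists_br_along {q : Cond} (hq : Good q) {a : List H} (ha : IsPiece q.t a)
    (hV : ExactFrom q.V (plc q.t))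
    {A : ℕ → H} (hA : InX q.V (plc q.t) A) (hAa : preA A (plc q.t) = a) :
    ∃ B, Br q a A B := by
  obtain ⟨X, h0, hP, hR⟩ := exists_seq_rel
    (P := fun x : Node => x ∈ q.F ∧ ∀ p, plc q.t ≤ p → p < plc x → A p ∈ ent x p)
    (R := fun x y : Node => x <+: y ∧ x.length < y.length) (fun x hx => by
      obtain ⟨hxF, hxA⟩ := hx
      have htx : plc q.t ≤ plc x := plc_mono (hq.above x hxF)
      obtain ⟨i, hi, hL⟩ := hq.isX.2 (x.length + 2) (plc x)
      have hcard := Large_card hL
      obtain ⟨N, hN, hE⟩ : ∃ N, 2 ≤ N ∧ Exact N (q.V i) := by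
        rcases hV i (htx.trans hi) with h | h
        · omega
        · exact h
      have hNl := Exact_ge_of_large hE hL (by omega)
      have hAi : A i ∈ q.V i := hA i (htx.trans hi)
      obtain ⟨w, hw, hp⟩ := Exact_pair (j := x.length) hE hN (by omega) (A i) hAi
      have hpath : ∀ u : List H, u = (List.range (i - plc x)).map (fun k => A (plc x + k)) →
          u.length = i - plc x ∧ Path q.V (plc x) u ∧
          ∀ k, k < i - plc x → u.getD k 0 = A (plc x + k) := by
        rintro u rfl
        have hl : ((List.range (i - plc x)).map (fun k => A (plc x + k))).length = i - plc x := by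
          simp
        have hg : ∀ k, k < i - plc x →
            ((List.range (i - plc x)).map (fun k => A (plc x + k))).getD k 0 = A (plc x + k) := by
          intro k hk
          rw [List.getD_eq_getElem _ _ (by rw [hl]; exact hk), List.getElem_map,
            List.getElem_range]
        refine ⟨hl, ?_, hg⟩
        rw [path_iff]
        intro k hk
        rw [hl] at hk
        rw [hg k hk]
        exact hA _ (by omega)
      obtain ⟨u, hu⟩ : ∃ u : List H, u = (List.range (i - plc x)).map (fun k => A (plc x + k)) :=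
        ⟨_, rfl⟩
      obtain ⟨hul, hup, hug⟩ := hpath u hu
      have hplace : plc x + u.length = i := by rw [hul]; omega
      obtain ⟨s, hsu, hs1, hs2, hs3, hs4⟩ : ∃ s : Step, s.u = u ∧ s.v ∈ q.V i ∧ s.w ∈ q.V i ∧
          IsPair x.length s.v s.w ∧ A i ∈ ({s.v, s.w} : Finset H) := by
        rcases hp with hp | hp
        · exact ⟨⟨u, A i, w⟩, rfl, hAi, hw, hp, by simp⟩
        · exact ⟨⟨u, w, A i⟩, rfl, hw, hAi, hp, by simp⟩
      have hs : SStep q.V x s := by
        refine ⟨by rw [hsu]; exact hup, ?_, ?_, hs3⟩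
        · rw [hsu, hplace]; exact hs1
        · rw [hsu, hplace]; exact hs2
      obtain ⟨y, hy, hg, -⟩ := hq.succ x hxF s hs
      refine ⟨y, ⟨hy, fun p hp1 hp2 => ?_⟩, (List.prefix_append x [s]).trans hg.1,
        length_lt_of_prefix hg.1⟩
      have hplx : plc (x ++ [s]) = i + 1 := by
        rw [plc_append, plc_singleton, hsu, ← Nat.add_assoc, hplace]
      rcases lt_or_ge p (plc x) with h1 | h1
      · rw [ent_prefix ((List.prefix_append x [s]).trans hg.1) h1]
        exact hxA p hp1 h1
      · rcases lt_or_ge p (plc (x ++ [s])) with h2 | h2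
        · rw [ent_prefix hg.1 h2]
          obtain ⟨k, rfl⟩ := Nat.exists_eq_add_of_le h1
          rw [ent_append_right]
          rw [hplx] at h2
          rcases lt_or_ge k s.u.length with h3 | h3
          · rw [ent_singleton_lt h3, hsu, hug k (by rw [← hul, ← hsu]; exact h3)]
            exact Finset.mem_singleton_self _
          · have h4 : k = s.u.length := by
              rw [hsu] at h3 ⊢
              omega
            subst h4
            rw [ent_singleton_last, hsu, hplace]
            exact hs4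
        · obtain ⟨z, hz1, hz2⟩ := hg.2 p h2 hp2
          have h3 := hA p hp1
          rw [hz1, Finset.mem_singleton] at h3
          rw [h3]
          exact hz2) (x0 := q.t)
    ⟨hq.stem, fun p h1 h2 => absurd h1 (not_le.2 h2)⟩
  obtain ⟨B, hB, -⟩ := br_of_seq ha (X := X) (by rw [h0]) (fun n => (hP n).1)
    (fun n => (hR n).1) (fun n => (hR n).2) hAa hA (fun n => (hP n).2)
  exact ⟨B, hB⟩

end Helper99.TT
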