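import Pool.Agent.Helper99.TT.BranchA

/-! TT-B8c: continuity. -/

set_option autoImplicit false

namespace Helper99.TT

theorem Cont.leP {f : Fn} {q q' : Cond} (hq : Good q) {a a' : List H} (ha : IsPiece q.t a)
    (h : LeP a' q' a q) (hf : Cont f q a) : Cont f q' a' := by
  intro A B hb l
  obtain ⟨n, hn⟩ := hf A B (Br.of_leP hq ha h hb) l
  exact ⟨n, fun A' B' hb' hag => hn A' B' (Br.of_leP hq ha h hb') hag⟩

theorem Cont.leS {f : Fn} {q q' : Cond} (hq : Good q) {a : List H} (h : LeS q' q)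
    (hf : Cont f q a) : Cont f q' a := by
  intro A B hb l
  obtain ⟨n, hn⟩ := hf A B (Br.of_leS hq h hb) l
  exact ⟨n, fun A' B' hb' hag => hn A' B' (Br.of_leS hq h hb') hag⟩

/-- continuity in terms of fat nodes: near a branch, `f i`, `i < l`, is constant on the cone of a
long fat node (with the piece of `A`) -/
theorem Cont.exists_node {f : Fn} {q : Cond} (hq : Good q) {a : List H} (hf : Cont f q a)
    {A : ℕ → H} {B : ℕ → Step} (hb : Br q a A B) (l n : ℕ) :
    ∃ x ∈ q.F, Thru B x ∧ n ≤ x.length ∧ n ≤ plc x ∧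
      ∀ A' B', Br (q.cone x) (preA A (plc x)) A' B' → ∀ i, i < l → f A' B' i = f A B i := by
  obtain ⟨n0, hn0⟩ := hf A B hb l
  obtain ⟨x, hx, hBx, h1, h2⟩ := Br.exists_fat hb (max n n0)
  refine ⟨x, hx, hBx, (le_max_left _ _).trans h1, (le_max_left _ _).trans h2, ?_⟩
  intro A' B' hb' i hi
  obtain ⟨-, hreal⟩ := Br.cone hq hb hx hBx
  have hb'' : Br q a A' B' := Br.of_cone hq hx hreal hb'
  refine hn0 A' B' hb'' ?_ i hi
  intro j hj
  have hA : preA A' (plc x) = preA A (plc x) := hb'.1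
  have hB : preB B' x.length = x := hb'.2.1
  have hB2 : preB B' x.length = preB B x.length := hB.trans hBx.symm
  exact ⟨preA_eq_iff.1 hA j (lt_of_lt_of_le (lt_of_lt_of_le hj (le_max_right _ _)) h2),
    preB_eq_iff.1 hB2 j (lt_of_lt_of_le (lt_of_lt_of_le hj (le_max_right _ _)) h1)⟩

end Helper99.TT
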