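import Pool.Agent.Helper99.TT.Block
import Pool.Agent.Helper99.TT.Branch

/-! TT-B10a: (3.1) N-elongation, (3.4) one step for dense sets. -/

set_option autoImplicit false

namespace Helper99.TT

/-- open set of conditions (within the class `C`) -/
def OpenIn (C : Set Cond) (𝒩 : List H → Cond → Prop) : Prop :=
  ∀ a q a' q', q ∈ C → q' ∈ C → IsPiece q.t a → LeP a' q' a q → 𝒩 a q → 𝒩 a' q'

/-- dense below `(a, q)` (within the class `C`) -/
def DenseIn (C : Set Cond) (𝒩 : List H → Cond → Prop) (a0 : List H) (q0 : Cond) : Prop :=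
  ∀ a q, q ∈ C → LeP a q a0 q0 → ∃ a' q', q' ∈ C ∧ LeP a' q' a q ∧ 𝒩 a' q'

/-- (3.1): one common elongation brings all pieces into an open dense set -/
theorem nelong {C : Set Cond} (hC : Closed C) {𝒩 : List H → Cond → Prop} (ho : OpenIn C 𝒩)
    {q : Cond} (hq : q ∈ C) {R : Set (List H)} (hR : ∀ b ∈ R, IsPiece q.t b)
    (hd : ∀ b ∈ R, DenseIn C 𝒩 b q) :
    ∃ y, ∃ q' ∈ C, Le y q' q ∧ ∀ b ∈ R, 𝒩 (b ++ y) q' := by
  classical
  have hfin : R.Finite := (finite_pieces q.t).subset hR
  have key : ∀ S : Finset (List H), (∀ b ∈ S, b ∈ R) →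
      ∃ y, ∃ q' ∈ C, Le y q' q ∧ ∀ b ∈ S, 𝒩 (b ++ y) q' := by
    intro S
    induction S using Finset.induction_on with
    | empty =>
      intro _
      exact ⟨[], q, hq, le_nil_of_leS (leS_refl q) (hC.good q hq), fun b hb => by simp at hb⟩
    | insert b S hb ih =>
      intro hS
      obtain ⟨y, q1, hq1, hle1, hN1⟩ := ih (fun c hc => hS c (Finset.mem_insert_of_mem hc))
      have hbR : b ∈ R := hS b (Finset.mem_insert_self b S)
      obtain ⟨a', q2, hq2, hle2, hN2⟩ := hd b hbR (b ++ y) q1 hq1 ⟨y, rfl, hle1⟩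
      obtain ⟨y', rfl, hle2'⟩ := hle2
      refine ⟨y ++ y', q2, hq2, le_trans' (hC.good q hq) (hC.good q1 hq1) hle1 hle2', ?_⟩
      intro c hc
      rcases Finset.mem_insert.mp hc with rfl | hcS
      · rw [← List.append_assoc]
        exact hN2
      · rw [← List.append_assoc]
        have hcR : c ∈ R := hS c (Finset.mem_insert_of_mem hcS)
        exact ho (c ++ y) q1 (c ++ y ++ y') q2 hq1 hq2
          (leP_piece (hC.good q hq) (hR c hcR) ⟨y, rfl, hle1⟩) ⟨y', rfl, hle2'⟩ (hN1 c hcS)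
  obtain ⟨y, q', hq', hle, hN⟩ := key hfin.toFinset (fun b hb => hfin.mem_toFinset.mp hb)
  exact ⟨y, q', hq', hle, fun b hb => hN b (hfin.mem_toFinset.mpr hb)⟩

/-- general iteration for finitely many pieces: a property of (piece, condition) that is hereditary
to extensions along common paths and can be reached -/
theorem nelong' {ι : Type} [Finite ι] (Pr : ι → Cond → List H → Prop)
    (q : Cond) (hq : Good q)
    (hered : ∀ i q1 q2 y1 y2, Good q1 → Good q2 → Le y1 q1 q → Le y2 q2 q1 →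
      Pr i q1 y1 → Pr i q2 (y1 ++ y2))
    (hreach : ∀ i q1 y1, Good q1 → Le y1 q1 q → ∃ q2 y2, Good q2 ∧ Le y2 q2 q1 ∧
      Pr i q2 (y1 ++ y2)) :
    ∃ q' y, Good q' ∧ Le y q' q ∧ ∀ i, Pr i q' y := by
  classical
  have key : ∀ S : Finset ι, ∃ q' y, Good q' ∧ Le y q' q ∧ ∀ i ∈ S, Pr i q' y := by
    intro S
    induction S using Finset.induction_on with
    | empty =>
      exact ⟨q, [], hq, le_nil_of_leS (leS_refl q) hq, fun i hi => by simp at hi⟩
    | insert i S hi ih =>
      obtain ⟨q1, y1, hq1, hle1, hP1⟩ := ih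
      obtain ⟨q2, y2, hq2, hle2, hP2⟩ := hreach i q1 y1 hq1 hle1
      refine ⟨q2, y1 ++ y2, hq2, le_trans' hq hq1 hle1 hle2, ?_⟩
      intro j hj
      rcases Finset.mem_insert.mp hj with rfl | hjS
      · exact hP2
      · exact hered j q1 q2 y1 y2 hq1 hq2 hle1 hle2 (hP1 j hjS)
  have := Fintype.ofFinite ι
  obtain ⟨q', y, hq', hle, hP⟩ := key Finset.univ
  exact ⟨q', y, hq', hle, fun i => hP i (Finset.mem_univ i)⟩

/-- (3.4): one step of the fusion for an open dense set (third-order version: `C` arbitrary) -/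
theorem oneStep {C : Set Cond} (hC : Closed C) {𝒩 : List H → Cond → Prop} (ho : OpenIn C 𝒩)
    {q : Cond} (hq : q ∈ C) {κ : ℕ} (hc : Cut q κ) (a : List H) (ha : IsPiece q.t a)
    (hd : DenseIn C 𝒩 a q) (l : ℕ) :
    ∃ q' ∈ C, ∃ κ', LeK κ q' q ∧ κ < κ' ∧ Cut q' κ' ∧
      (∃ m, κ ≤ m ∧ m < κ' ∧ Large l (q'.V m)) ∧
      ∀ x ∈ q'.F, κ < plc x → plc x ≤ κ' → ∀ b, IsReal q' a x b → 𝒩 b (q'.cone x) := by
  have hgq : Good q := hC.good q hq
  obtain ⟨q1, hq1, κ1, m, hκm, -, hmκ, hle1, hc1, hex, -, hfr, -⟩ :=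
    block hC hq hc (max l 2) 0 (le_max_right l 2)
  have hpass := pass hC q κ (fun _ _ => True)
    (fun q x => ∀ b, IsReal q a x b → 𝒩 b (q.cone x))
    (by
      intro q2 q3 x hq2 hq3 hle hx hΨ b hb
      have hg2 := hC.good q2 hq2
      have hg3 := hC.good q3 hq3
      have hx2 : x ∈ q2.F := hle.2.2 hx
      have hb2 : IsReal q2 a x b := real_leS hle hg2 hg3 hx hb
      refine ho b (q2.cone x) b (q3.cone x) (hC.cone q2 hq2 x hx2) (hC.cone q3 hq3 x hx)
        hb.2.2.1 ⟨[], (List.append_nil b).symm, ?_⟩ (hΨ b hb2)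
      exact le_nil_of_leS (cone_leS_cone hle hg2 hx2) (cone_good hg2 hx2))
    (by
      intro q2 κ2 x hq2 hle2 hc2 hκ2 hfr2 _ hx hκx hxκ2
      have hg2 := hC.good q2 hq2
      have hleaf : Leaf q2 κ2 x := hfr2 x hx hκx hxκ2
      obtain ⟨y, q3, hq3, hle3, hN3⟩ := nelong hC ho (hC.cone q2 hq2 x hx)
        (R := {b | IsReal q2 a x b}) (fun b hb => hb.2.2.1)
        (by
          intro b hb a' q' hq' hle'
          have h1 : LeP a' q' a q2 := leP_of_cone hg2 hx hb hle'
          have h2 : LeP a q2 a q :=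
            ⟨[], (List.append_nil a).symm, le_nil_of_leS hle2.1 hgq⟩
          exact hd a' q' hq' (leP_trans hgq hg2 h2 h1))
      have hg3 := hC.good q3 hq3
      obtain ⟨q4, hq4, κ4, -, hre, hcone, hV⟩ := reach_of_le hC hq2 hq3 hc2 hleaf hle3 0
      have hg4 := hC.good q4 hq4
      refine ⟨q4, hq4, κ4, q3.t, hre, trivial, ?_⟩
      intro c hcr
      have hle4 : LeS q4 q2 := hre.1
      have hx'2 : q3.t ∈ q2.F ∧ x <+: q3.t := hle3.1
      have hx'4 : q3.t ∈ q4.F := ((hre.2.2.2.2.2.2 q3.t).2 (Or.inl rfl)).1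
      have hc2' : IsReal q2 a q3.t c := real_leS hle4 hg2 hg4 hx'4 hcr
      obtain ⟨hb, -⟩ := real_take hg2 hx hx'2.1 hx'2.2 hc2'
      have hlen : c.length = plc x + y.length := by
        rw [hcr.2.2.1.1]
        exact hle3.2.1.symm
      have hct : c = c.take (plc x) ++ y := by
        have htl : (c.take (plc x)).length = plc x := by
          rw [List.length_take, hlen]
          omega
        refine list_ext_getD (by rw [List.length_append, htl, hlen]) ?_
        intro p hp
        by_cases hpx : p < plc x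
        · have h1 := getD_prefix (List.take_prefix (plc x) c) (p := p) (by rw [htl]; exact hpx)
          have h2 := getD_prefix (List.prefix_append (c.take (plc x)) y) (p := p)
            (by rw [htl]; exact hpx)
          rw [h1, h2]
        · have hpx' : plc x ≤ p := Nat.le_of_not_lt hpx
          obtain ⟨i, rfl⟩ := Nat.exists_eq_add_of_le hpx'
          have hi : i < y.length := by
            rw [hlen] at hp
            omega
          have h1 : c.getD (plc x + i) 0 ∈ q4.V (plc x + i) := by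
            refine hcr.2.2.2 (plc x + i) ?_ ?_
            · rw [hle4.1]
              exact le_trans (plc_mono (hg2.above x hx)) (Nat.le_add_right _ _)
            · rw [← hcr.2.2.1.1]
              exact hp
          rw [hV i hi, Finset.mem_singleton] at h1
          rw [h1, List.getD_append_right _ _ _ _ (by rw [htl]; omega), htl]
          congr 1
          omega
      have hN := hN3 (c.take (plc x)) hb
      rw [← hct] at hN
      refine ho c q3 c (q4.cone q3.t) hq3 (hC.cone q4 hq4 q3.t hx'4) hcr.2.2.1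
        ⟨[], (List.append_nil c).symm, le_nil_of_leS hcone hg3⟩ hN)
    q1 κ1 hq1 hle1 hc1 (le_trans hκm hmκ.le) hfr trivial
  obtain ⟨q', hq', κ', hle', hκ', hc', -, -, hV', -, hΨ'⟩ := hpass
  refine ⟨q', hq', κ', leK_trans le_rfl hle1 hle', lt_of_le_of_lt hκm (lt_of_lt_of_le hmκ hκ'), hc',
    ⟨m, hκm, lt_of_lt_of_le hmκ hκ', ?_⟩, hΨ'⟩
  rw [hV' m hmκ]
  exact Large_anti (le_max_left l 2) (Exact_large hex)

end Helper99.TT
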