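import Pool.Agent.Helper99.TT.Sec7B
import Pool.Agent.Helper99.TT.Fuse

/-! TT-F3: the case FA of the canonization theorem. -/

set_option autoImplicit false

namespace Helper99.TT

/-- (C0) -/
def C0 (f : Fn) (q : Cond) (a : List H) : Prop :=
  ∀ A B A' B', Br q a A B → Br q a A' B' → f A B = f A' B'

/-- (C1) -/
def C1 (f : Fn) (q : Cond) (a : List H) (n : ℕ) : Prop :=
  ∀ A B A' B', Br q a A B → Br q a A' B' → (f A B = f A' B' ↔ ∀ p, Eqv n (A p) (A' p))

/-- (C2) -/
def C2 (f : Fn) (q : Cond) (a : List H) : Prop :=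
  FB f q a ∧ ∀ x ∈ q.F, Decode f q a x

/-- (C3) -/
def C3 (f : Fn) (q : Cond) (a : List H) : Prop :=
  (∀ x ∈ q.F, Decode f q a x) ∧
    ∀ x ∈ q.F, ∀ b b', IsReal q a x b → IsReal q a x b' → b ≠ b' → Sepd f (q.cone x) b b'

/-- thin one finite set to a singleton or an exact tree, keeping all largeness -/
theorem thin_one (V : Finset H) (hV : V.Nonempty) : ∃ V' ⊆ V, V'.Nonempty ∧
    (V'.card = 1 ∨ ∃ N, 2 ≤ N ∧ Exact N V') ∧ ∀ M, 2 ≤ M → Large M V → Large M V' := by
  classical
  by_cases h : ∃ M, 2 ≤ M ∧ Large M V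
  · obtain ⟨M0, hM0, hL0⟩ := h
    let N := Nat.findGreatest (fun M => Large M V) V.card
    have hN1 : Large N V := by
      have := Nat.findGreatest_spec (P := fun M => Large M V) (Large_card hL0) hL0
      exact this
    have hN2 : ∀ M, Large M V → M ≤ N := fun M hM =>
      Nat.le_findGreatest (P := fun M => Large M V) (Large_card hM) hM
    obtain ⟨V', hV', hE⟩ := exists_exact (le_refl N) hN1
    refine ⟨V', hV', Exact_nonempty hE, Or.inr ⟨N, le_trans hM0 (hN2 _ hL0), hE⟩, ?_⟩
    intro M _ hM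
    exact Large_anti (hN2 M hM) (Exact_large hE)
  · push Not at h
    obtain ⟨v, hv⟩ := hV
    refine ⟨{v}, by simpa using hv, by simp, Or.inl (by simp), ?_⟩
    intro M hM hL
    exact absurd hL (h M hM)

/-- thin a family to singletons and exact trees -/
theorem thin_fam (V : Fam) (hV : IsX V) : ∃ V' : Fam, IsX V' ∧ (∀ p, V' p ⊆ V p) ∧
    ExactFrom V' 0 := by
  choose V' h1 h2 h3 h4 using fun p => thin_one (V p) (hV.1 p)
  refine ⟨V', ⟨h2, ?_⟩, h1, fun p _ => h3 p⟩
  intro M N
  obtain ⟨i, hi, hL⟩ := hV.2 (max M 2) N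
  exact ⟨i, hi, Large_anti (le_max_left _ _) (h4 i _ (le_max_right _ _) hL)⟩

theorem canonFA {f : Fn} {q : Cond} (hq : Good q) {a : List H} (ha : IsPiece q.t a)
    (hf : Cont f q a) (hFA : FA f q a) :
    ∃ q', Good q' ∧ LeS q' q ∧ ExactFrom q'.V (plc q'.t) ∧ (C0 f q' a ∨ ∃ n, C1 f q' a n) := by
  classical
  obtain ⟨V1, hV1, hV1s, hV1e⟩ := thin_fam q.V hq.isX
  have hs1 : SubX (plc q.t) V1 q.V := fun p _ => hV1s p
  set q1 : Cond := q.restr V1 with hq1def
  have hq1 : Good q1 := restr_good hq hV1 hs1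
  have hle1 : LeS q1 q := restr_leS hs1
  have ht1 : q1.t = q.t := rfl
  have hV1' : q1.V = V1 := rfl
  have hf1 : Cont f q1 a := Cont.leS hq hle1 hf
  have hFA1 : FA f q1 a := fun A B B' h h' => hFA A B B' (Br.of_leS hq hle1 h) (Br.of_leS hq hle1 h')
  set k := plc q.t with hk
  have hex : ∀ x ∈ q1.F, ExactFrom (q1.cone x).V (plc (q1.cone x).t) := fun x _ p _ =>
    hV1e p (Nat.zero_le _)
  -- the family used for Theorem 7
  let W : Fam := fun p => if p < k then {a.getD p 0} else V1 p
  have hWlt : ∀ p, p < k → W p = {a.getD p 0} := fun p hp => by simp [W, hp]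
  have hWge : ∀ p, k ≤ p → W p = V1 p := fun p hp => by simp [W, Nat.not_lt.2 hp]
  have hWX : IsX W := by
    constructor
    · intro p
      by_cases hp : p < k
      · rw [hWlt p hp]; simp
      · rw [hWge p (not_lt.1 hp)]; exact hV1.1 p
    · intro M N
      obtain ⟨i, hi, hL⟩ := hV1.2 M (max N k)
      exact ⟨i, le_trans (le_max_left _ _) hi, by
        rw [hWge i (le_trans (le_max_right _ _) hi)]; exact hL⟩
  have hal : a.length = k := ha.1
  have hpre : ∀ A, InX W 0 A → preA A k = a := by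
    intro A hA
    refine list_ext_getD (by rw [preA_length, hal]) ?_
    intro p hp
    rw [preA_length] at hp
    rw [preA_getD A hp]
    have := hA p (Nat.zero_le _)
    rw [hWlt p hp] at this
    exact Finset.mem_singleton.1 this
  have hInX : ∀ A, InX W 0 A → InX q1.V k A := by
    intro A hA p hp
    have := hA p (Nat.zero_le _)
    rwa [hWge p hp] at this
  have hbr : ∀ A, InX W 0 A → ∃ B, Br q1 a A B := by
    intro A hA
    exact exists_br_along hq1 ha (fun p _ => hV1e p (Nat.zero_le _)) (hInX A hA) (hpre A hA)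
  let g : (ℕ → H) → ℕ → Bool := fun A =>
    if h : ∃ B, Br q1 a A B then f A (Classical.choose h) else fun _ => false
  have hg : ∀ A B, Br q1 a A B → g A = f A B := by
    intro A B hB
    have h : ∃ B, Br q1 a A B := ⟨B, hB⟩
    have : g A = f A (Classical.choose h) := by simp only [g, dif_pos h]
    rw [this]
    exact hFA1 A _ _ (Classical.choose_spec h) hB
  have hgc : ∀ A, InX W 0 A → ∀ l : ℕ, ∃ m : ℕ, ∀ A', InX W 0 A' →
      (∀ p, p < m → A' p = A p) → ∀ i, i < l → g A' i = g A i := by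
    intro A hA l
    obtain ⟨B, hB⟩ := hbr A hA
    obtain ⟨x, hxF, hBx, _, _, hx⟩ := Cont.exists_node hq1 hf1 hB l 0
    obtain ⟨hcone, hreal⟩ := Br.cone hq1 hB hxF hBx
    have hkx : k ≤ plc x := by
      have := plc_mono (hq1.above x hxF)
      simpa [hk, ht1] using this
    refine ⟨plc x, fun A' hA' hagree i hi => ?_⟩
    have hpreA : preA A' (plc x) = preA A (plc x) := preA_eq_of_agree fun p hp => hagree p hp
    obtain ⟨B', hB'⟩ := exists_br_along (cone_good hq1 hxF) (a := preA A (plc x)) hreal.2.2.1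
      (hex x hxF) (A := A') (fun p hp => hInX A' hA' p (le_trans hkx hp)) hpreA
    have h1 := hx A' B' hB' i hi
    have h2 : Br q1 a A' B' := Br.of_cone hq1 hxF hreal hB'
    rw [hg A' B' h2, hg A B hB]
    exact h1
  obtain ⟨V', hV'X, hV's, hV'e, hdich⟩ := canonA g hWX hgc
  have hs' : SubX (plc q1.t) V' q1.V := by
    intro p hp
    have : k ≤ p := hp
    rw [hV1', ← hWge p this]
    exact hV's p
  have hle' : LeS (q1.restr V') q1 := restr_leS hs'
  have hInV' : ∀ A B, Br (q1.restr V') a A B → InX V' 0 A := by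
    intro A B hB p _
    by_cases hp : p < k
    · have h1 : V' p ⊆ {a.getD p 0} := by rw [← hWlt p hp]; exact hV's p
      have h2 : A p = a.getD p 0 := by
        have h3 : preA A (plc q.t) = a := hB.1
        rw [← h3, preA_getD A (by rw [← hk]; exact hp)]
      obtain ⟨z, hz⟩ := hV'X.1 p
      have hz' := Finset.mem_singleton.1 (h1 hz)
      rw [h2, ← hz']
      exact hz
    · exact hB.2.2.2.1 p (by simpa [Cond.restr, hq1def] using not_lt.1 hp)
  have hgf : ∀ A B, Br (q1.restr V') a A B → g A = f A B := fun A B hB =>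
    hg A B (Br.of_leS hq1 hle' hB)
  refine ⟨q1.restr V', restr_good hq1 hV'X hs', leS_trans hle1 hle',
    fun p _ => hV'e p (Nat.zero_le _), ?_⟩
  rcases hdich with h | ⟨n, h⟩
  · left
    intro A B A' B' hB hB'
    rw [← hgf A B hB, ← hgf A' B' hB']
    exact h A A' (hInV' A B hB) (hInV' A' B' hB')
  · right
    refine ⟨n, fun A B A' B' hB hB' => ?_⟩
    rw [← hgf A B hB, ← hgf A' B' hB']
    exact h A A' (hInV' A B hB) (hInV' A' B' hB')

end Helper99.TT
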