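import Pool.Agent.Helper99.TT.Reach

/-! TT-B6b: processing all new leaves. -/

set_option autoImplicit false

namespace Helper99.TT

/-- process all leaves with place in `(κ0, κ]` -/
theorem pass {C : Set Cond} (hC : Closed C) (q0 : Cond) (κ0 : ℕ) (Inv : Cond → ℕ → Prop)
    (Ψ : Cond → Node → Prop)
    (hΨ : ∀ q q' x, q ∈ C → q' ∈ C → LeS q' q → x ∈ q'.F → Ψ q x → Ψ q' x)
    (hreach : ∀ q κ x, q ∈ C → LeK κ0 q q0 → Cut q κ → κ0 ≤ κ → Fresh κ0 q κ → Inv q κ →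
      x ∈ q.F → κ0 < plc x → plc x ≤ κ →
      ∃ q' ∈ C, ∃ κ' x', Reach q κ x q' κ' x' ∧ Inv q' κ' ∧ Ψ q' x')
    (q : Cond) (κ : ℕ) (hq : q ∈ C) (hle : LeK κ0 q q0) (hc : Cut q κ) (hκ : κ0 ≤ κ)
    (hf : Fresh κ0 q κ) (hInv : Inv q κ) :
    ∃ q' ∈ C, ∃ κ', LeK κ0 q' q ∧ κ ≤ κ' ∧ Cut q' κ' ∧ Fresh κ0 q' κ' ∧ Inv q' κ' ∧
      (∀ p, p < κ → q'.V p = q.V p) ∧ (∀ p, κ ≤ p → p < κ' → (q'.V p).card = 1) ∧
      ∀ x ∈ q'.F, κ0 < plc x → plc x ≤ κ' → Ψ q' x := by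
  generalize hn : {x | x ∈ q.F ∧ κ0 < plc x ∧ plc x ≤ κ ∧ ¬ Ψ q x}.ncard = n
  induction n using Nat.strong_induction_on generalizing q κ with
  | _ n ih =>
  by_cases hall : ∀ x ∈ q.F, κ0 < plc x → plc x ≤ κ → Ψ q x
  · exact ⟨q, hq, κ, leK_refl _ _, le_rfl, hc, hf, hInv, fun _ _ => rfl,
      fun p h1 h2 => absurd h2 (by omega), hall⟩
  · push Not at hall
    obtain ⟨x, hx, h1, h2, h3⟩ := hall
    obtain ⟨q', hq', κ', x', hr, hI', hΨ'⟩ := hreach q κ x hq hle hc hκ hf hInv hx h1 h2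
    have hgq := hC.good q hq
    have hgq' := hC.good q' hq'
    have hLK : LeK κ0 q' q := Reach.leK hgq hgq' hr hκ h1
    have hxl : Leaf q κ x := hf x hx h1 h2
    have hr' := hr
    obtain ⟨hS, hκκ', hcut', hV, hV1, hxx', hnodes⟩ := hr'
    have hf' : Fresh κ0 q' κ' := by
      intro z hz h4 h5
      rcases (hnodes z).1 ⟨hz, h5⟩ with rfl | ⟨h6, h7, h8⟩
      · exact Reach.leaf_new hgq hgq' hr hxl
      · exact Reach.leaf hgq hgq' hr hxl (hf z h6 h4 h7) h8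
    have hsub : {x | x ∈ q'.F ∧ κ0 < plc x ∧ plc x ≤ κ' ∧ ¬ Ψ q' x} ⊂
        {x | x ∈ q.F ∧ κ0 < plc x ∧ plc x ≤ κ ∧ ¬ Ψ q x} := by
      refine (Set.ssubset_iff_of_subset ?_).2 ⟨x, ⟨hx, h1, h2, h3⟩, ?_⟩
      · rintro z ⟨hz, h4, h5, h6⟩
        rcases (hnodes z).1 ⟨hz, h5⟩ with rfl | ⟨h7, h8, h9⟩
        · exact absurd hΨ' h6
        · exact ⟨h7, h4, h8, fun h => h6 (hΨ q q' z hq hq' hS hz h)⟩
      · rintro ⟨hz, h4, h5, h6⟩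
        rcases (hnodes x).1 ⟨hz, h5⟩ with h | ⟨h7, h8, h9⟩
        · rw [← h] at hΨ'
          exact h6 hΨ'
        · exact h9 rfl
    have hfin : {x | x ∈ q.F ∧ κ0 < plc x ∧ plc x ≤ κ ∧ ¬ Ψ q x}.Finite :=
      (hgq.finite_le κ).subset fun z hz => ⟨hz.1, hz.2.2.1⟩
    have hlt := Set.ncard_lt_ncard hsub hfin
    rw [hn] at hlt
    obtain ⟨q'', hq'', κ'', g1, g2, g3, g4, g5, g6, g7, g8⟩ :=
      ih _ hlt q' κ' hq' (leK_trans le_rfl hle hLK) hcut' (hκ.trans hκκ') hf' hI' rfl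
    refine ⟨q'', hq'', κ'', leK_trans le_rfl hLK g1, hκκ'.trans g2, g3, g4, g5, ?_, ?_, g8⟩
    · intro p hp
      rw [g6 p (by omega), hV p hp]
    · intro p hp hp'
      rcases lt_or_ge p κ' with h | h
      · rw [g6 p h]
        exact hV1 p hp h
      · exact g7 p h hp'

end Helper99.TT
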