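import Pool.Agent.Helper99.TT.Reach

/-! TT-B6a: adding a block. -/

set_option autoImplicit false

namespace Helper99.TT

/-- add a block which is an exact `M`-tree beyond `bd` -/
theorem block {C : Set Cond} (hC : Closed C) {q : Cond} (hq : q ∈ C) {κ : ℕ} (hc : Cut q κ)
    (M bd : ℕ) (hM : 2 ≤ M) : ∃ q' ∈ C, ∃ κ' m, κ ≤ m ∧ bd ≤ m ∧ m < κ' ∧ LeK κ q' q ∧ Cut q' κ' ∧
      Exact M (q'.V m) ∧ (∀ p, κ ≤ p → p < κ' → p ≠ m → (q'.V p).card = 1) ∧
      Fresh κ q' κ' ∧ (∀ x ∈ q'.F, plc x ≤ κ' → plc x ≤ κ ∨ m < plc x) := by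
  classical
  have hg : Good q := hC.good q hq
  obtain ⟨m, hm, hL⟩ := hg.isX.2 M (max κ bd)
  have hκm : κ ≤ m := (le_max_left _ _).trans hm
  have hbm : bd ≤ m := (le_max_right _ _).trans hm
  obtain ⟨e, he⟩ := hL
  obtain ⟨W, hW, hex⟩ := Pool.Agent.Helper98.T.Lg.exists_ex he
  obtain ⟨κ', hκ', hcut, hone⟩ := exists_cut hg (m + 1)
  have hWne : W.Nonempty := by
    rw [← Finset.card_pos, hex.card]
    exact Nat.pow_pos (by omega)
  choose pt hpt using fun p => hg.isX.1 p
  set V' : Fam := fun p => if p < κ then q.V p else if p < m then {pt p} else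
    if p = m then W else q.V p with hV'
  have hlt : ∀ p, p < κ → V' p = q.V p := fun p hp => if_pos hp
  have hmid : ∀ p, κ ≤ p → p < m → V' p = {pt p} := by
    intro p h1 h2
    simp only [hV']
    rw [if_neg (by omega), if_pos h2]
  have hVm : V' m = W := by
    simp only [hV']
    rw [if_neg (by omega), if_neg (by omega), if_pos trivial]
  have hgt : ∀ p, m < p → V' p = q.V p := by
    intro p h1
    simp only [hV']
    rw [if_neg (by omega), if_neg (by omega), if_neg (by omega)]
  have hsub : ∀ p, V' p ⊆ q.V p := by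
    intro p
    rcases Nat.lt_or_ge p κ with h1 | h1
    · rw [hlt p h1]
    rcases lt_trichotomy p m with h2 | h2 | h2
    · rw [hmid p h1 h2]
      exact Finset.singleton_subset_iff.2 (hpt p)
    · rw [h2, hVm]
      exact hW
    · rw [hgt p h2]
  have hne : ∀ p, (V' p).Nonempty := by
    intro p
    rcases Nat.lt_or_ge p κ with h1 | h1
    · rw [hlt p h1]
      exact ⟨_, hpt p⟩
    rcases lt_trichotomy p m with h2 | h2 | h2
    · rw [hmid p h1 h2]
      exact Finset.singleton_nonempty _
    · rw [h2, hVm]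
      exact hWne
    · rw [hgt p h2]
      exact ⟨_, hpt p⟩
  have hfin : {p | V' p ≠ q.V p}.Finite := by
    refine (Set.finite_Iic m).subset fun p hp => ?_
    rw [Set.mem_Iic]
    by_contra h1
    exact hp (hgt p (by omega))
  have hsx : SubX (plc q.t) V' q.V := fun p _ => hsub p
  have hq' : q.restr V' ∈ C := hC.restr q hq V' hne hsx hfin
  have hg' : Good (q.restr V') := hC.good _ hq'
  have hleK : LeK κ (q.restr V') q := restr_leK hsx hlt
  have hcard : ∀ p, κ ≤ p → p < κ' → p ≠ m → ((q.restr V').V p).card = 1 := by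
    intro p h1 h2 h3
    change (V' p).card = 1
    rcases Nat.lt_or_ge p m with h4 | h4
    · rw [hmid p h1 h4]
      exact Finset.card_singleton _
    · rw [hgt p (by omega)]
      exact hone p (by omega) (hc.1.trans h1) h2
  have hlast : ∀ x ∈ (q.restr V').F, plc x ≤ κ' → plc x ≤ κ ∨ m < plc x := by
    intro x hx hxκ
    by_contra hcon
    push Not at hcon
    obtain ⟨h1, h2⟩ := hcon
    obtain ⟨x0, hx0, s, hs, hpre, h3, h4⟩ := hg.beyond hc hx.1 h1
    have hx0' : x0 ∈ (q.restr V').F := hleK.2.2 x0 hx0 h3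
    have hne0 : x0 ≠ x := by
      rintro rfl
      omega
    obtain ⟨s', hs', hpre'⟩ := hg'.chain hx0' hx ((List.prefix_append _ _).trans hpre) hne0
    have hss : x0 ++ [s] = x0 ++ [s'] := eq_of_prefix_of_length hpre hpre' (by simp)
    have hss' : s = s' := by simpa using hss
    subst hss'
    have h5 := sstep_card hs'
    have h6 := plc_mono hpre
    rw [plc_append, plc_singleton] at h6
    have h7 := hcard (plc x0 + s.u.length) h4 (by omega) (by omega)
    omega
  refine ⟨q.restr V', hq', κ', m, hκm, hbm, by omega, hleK, ⟨?_, ?_⟩, ?_, hcard, ?_, hlast⟩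
  · change plc q.t ≤ κ'
    exact hcut.1
  · change 1 < (V' κ').card
    rw [hgt κ' (by omega)]
    exact hcut.2
  · refine ⟨e, ?_⟩
    change Ex M M (V' m) e
    rw [hVm]
    exact hex
  · intro x hx h1 h2
    refine ⟨hx, ?_, h2, fun p h3 h4 => ?_⟩
    · rintro rfl
      have : plc q.t ≤ κ := hc.1
      have h5 : κ < plc q.t := h1
      omega
    · have h5 : m < plc x := (hlast x hx h2).resolve_left (by omega)
      exact hcard p (by omega) h4 (by omega)

end Helper99.TT
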