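import Pool.Agent.Helper99.TT.Ops

/-! TT-B8a: branches. -/

set_option autoImplicit false

namespace Helper99.TT

theorem Br.piece {q : Cond} {a : List H} {A : ℕ → H} {B : ℕ → Step} (h : Br q a A B) :
    IsPiece q.t a := by
  obtain ⟨h1, h2, h3, -, -⟩ := h
  subst h1
  refine ⟨preA_length _ _, fun p hp => ?_⟩
  rw [preA_getD _ hp]
  have h4 := h3 q.t.length p
  rw [h2] at h4
  exact h4 hp

/-- branches of an extension are branches -/
theorem Br.of_leP {q q' : Cond} (hq : Good q) {a a' : List H} (ha : IsPiece q.t a)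
    (h : LeP a' q' a q) {A : ℕ → H} {B : ℕ → Step} (hb : Br q' a' A B) : Br q a A B := by
  obtain ⟨y, hy, h1, h2, h3, h4, h5⟩ := h
  obtain ⟨b1, b2, b3, b4, b5⟩ := hb
  have ht : q.t <+: q'.t := hq.above _ h1
  refine ⟨?_, Thru_mono ht b2, b3, ?_, ?_⟩
  · have e1 : preA A (plc q.t) <+: a' := by
      rw [← b1]
      exact preA_mono A (by omega)
    have e2 : a <+: a' := by
      rw [hy]
      exact List.prefix_append _ _
    exact eq_of_prefix_of_length e1 e2 (by rw [preA_length, ha.1])
  · intro p hp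
    by_cases hpp : p < plc q'.t
    · have e1 : A p = y.getD (p - plc q.t) 0 := by
        rw [← preA_getD A hpp, b1, hy, List.getD_append_right _ _ _ _ (by rw [ha.1]; exact hp),
          ha.1]
      have e2 := (h3 (p - plc q.t) (by omega)).1
      rw [show plc q.t + (p - plc q.t) = p by omega] at e2
      rw [e1]
      exact e2
    · exact h4 p (by omega) (b4 p (by omega))
  · intro n
    obtain ⟨m, hm, hF⟩ := b5 n
    exact ⟨m, hm, h5 hF⟩

theorem Br.of_leS {q q' : Cond} (hq : Good q) {a : List H} (h : LeS q' q) {A : ℕ → H}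
    {B : ℕ → Step} (hb : Br q' a A B) : Br q a A B := by
  obtain ⟨h1, h2, h3⟩ := h
  obtain ⟨b1, b2, b3, b4, b5⟩ := hb
  rw [h1] at b1 b2 b4
  refine ⟨b1, b2, b3, fun p hp => h2 p hp (b4 p hp), fun n => ?_⟩
  obtain ⟨m, hm, hF⟩ := b5 n
  exact ⟨m, hm, h3 hF⟩

/-- a branch through a fat node is a branch of the cone -/
theorem Br.cone {q : Cond} (hq : Good q) {a : List H} {A : ℕ → H} {B : ℕ → Step}
    (hb : Br q a A B) {x : Node} (hx : x ∈ q.F) (hBx : Thru B x) :
    Br (q.cone x) (preA A (plc x)) A B ∧ IsReal q a x (preA A (plc x)) := by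
  have hp := hb.piece
  obtain ⟨b1, b2, b3, b4, b5⟩ := hb
  have ht : plc q.t ≤ plc x := plc_mono (hq.above x hx)
  have hpx : IsPiece x (preA A (plc x)) := by
    refine ⟨preA_length _ _, fun p hp => ?_⟩
    rw [preA_getD _ hp]
    have h4 := b3 x.length p
    rw [show preB B x.length = x from hBx] at h4
    exact h4 hp
  refine ⟨⟨rfl, hBx, b3, fun p hp => b4 p (ht.trans hp), fun n => ?_⟩, hp, ?_, hpx, ?_⟩
  · obtain ⟨m, hm, hF⟩ := b5 (max n x.length)
    exact ⟨m, (le_max_left _ _).trans hm, hF,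
      Thru_prefix_preB hBx ((le_max_right _ _).trans hm)⟩
  · rw [← b1]
    exact preA_mono A ht
  · intro p h1 h2
    rw [preA_getD _ h2]
    exact b4 p h1

theorem Br.of_cone {q : Cond} (hq : Good q) {a b : List H} {x : Node} (hx : x ∈ q.F)
    (hab : IsReal q a x b) {A : ℕ → H} {B : ℕ → Step} (hb : Br (q.cone x) b A B) :
    Br q a A B :=
  Br.of_leP hq hab.1 (cone_leP hq hx hab) hb

/-- a branch passes through fat nodes of arbitrarily large length (and place) -/
theorem Br.exists_fat {q : Cond} {a : List H} {A : ℕ → H} {B : ℕ → Step} (hb : Br q a A B)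
    (n : ℕ) : ∃ x ∈ q.F, Thru B x ∧ n ≤ x.length ∧ n ≤ plc x := by
  obtain ⟨m, hm, hF⟩ := hb.2.2.2.2 n
  refine ⟨preB B m, hF, prefix_preB (List.prefix_refl _), ?_, ?_⟩
  · rw [preB_length]
    exact hm
  · have h1 := length_le_plc (preB B m)
    rw [preB_length] at h1
    exact hm.trans h1

theorem Br.thru_stem {q : Cond} {a : List H} {A : ℕ → H} {B : ℕ → Step} (hb : Br q a A B) :
    Thru B q.t := hb.2.1

/-- change the piece -/
theorem Br.rep {q : Cond} (hq : Good q) {a a' : List H} (ha' : IsPiece q.t a') {A : ℕ → H}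
    {B : ℕ → Step} (hb : Br q a A B) : Br q a' (rep a' A) B := by
  obtain ⟨b1, b2, b3, b4, b5⟩ := hb
  refine ⟨?_, b2, ?_, ?_, b5⟩
  · rw [← ha'.1]
    exact preA_rep
  · intro n p hp
    by_cases hpt : p < plc q.t
    · rw [rep_lt (by rw [ha'.1]; exact hpt)]
      have e1 : ent (preB B (max n q.t.length)) p = ent (preB B n) p :=
        ent_prefix (preB_mono B (le_max_left _ _)) hp
      have e2 : ent (preB B (max n q.t.length)) p = ent q.t p :=
        ent_prefix (Thru_prefix_preB b2 (le_max_right _ _)) hpt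
      rw [← e1, e2]
      exact ha'.2 p hpt
    · rw [rep_ge (by rw [ha'.1]; omega)]
      exact b3 n p hp
  · intro p hp
    rw [rep_ge (by rw [ha'.1]; exact hp)]
    exact b4 p hp

/-- the next node along a branch is an initial segment of a fat node -/
private theorem Br.next {q : Cond} {a : List H} {A : ℕ → H} {B : ℕ → Step}
    (hb : Br q a A B) {x : Node} (hBx : Thru B x) :
    ∃ m, preB B m ∈ q.F ∧ (x ++ [B x.length]) <+: preB B m := by
  obtain ⟨m, hm, hF⟩ := hb.2.2.2.2 (x.length + 1)
  refine ⟨m, hF, ?_⟩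
  have h1 := preB_mono B hm
  rw [preB_succ, show preB B x.length = x from hBx] at h1
  exact h1

/-- a branch can be glued from a real piece at a fat node and a branch of the cone with another
piece; the first step of `B` at a fat node is a splitting step -/
theorem Br.sstep {q : Cond} (hq : Good q) {a : List H} {A : ℕ → H} {B : ℕ → Step}
    (hb : Br q a A B) {x : Node} (hx : x ∈ q.F) (hBx : Thru B x) : SStep q.V x (B x.length) := by
  obtain ⟨m, hF, hm⟩ := hb.next hBx
  exact hq.sstep_of_prefix hx hF hm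

/-- the successor of a fat node along a branch -/
theorem Br.succ {q : Cond} (hq : Good q) {a : List H} {A : ℕ → H} {B : ℕ → Step}
    (hb : Br q a A B) {x : Node} (hx : x ∈ q.F) (hBx : Thru B x) :
    ∃ y ∈ q.F, Thru B y ∧ GapExt q.V (x ++ [B x.length]) y := by
  obtain ⟨m, hF, hm⟩ := hb.next hBx
  obtain ⟨y, hy, hg, hmin⟩ := hq.succ x hx _ (hb.sstep hq hx hBx)
  exact ⟨y, hy, prefix_preB (hmin _ hF hm), hg⟩

end Helper99.TT
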