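import Pool.Agent.Helper99.TT.Lists
import Pool.Agent.Helper99.TT.Trees

/-! TT-B2: the chain of fat nodes, uniqueness of successors, finiteness, cuts. -/

set_option autoImplicit false

namespace Helper99.TT

theorem prefix_append_single (x : Node) (s : Step) : x <+: x ++ [s] := List.prefix_append _ _

theorem length_lt_of_gap {V : Fam} {x y : Node} {s : Step} (h : GapExt V (x ++ [s]) y) :
    x.length < y.length := by
  have h1 := h.1.length_le
  rw [List.length_append, List.length_singleton] at h1
  omega

theorem plc_lt_of_gap {V : Fam} {x y : Node} {s : Step} (h : GapExt V (x ++ [s]) y) :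
    plc x < plc y := by
  have h1 := plc_mono h.1
  rw [plc_append, plc_singleton] at h1
  omega

theorem Good.chain {q : Cond} (hq : Good q) {x y : Node} (hx : x ∈ q.F) (hy : y ∈ q.F)
    (hxy : x <+: y) (hne : x ≠ y) : ∃ s, SStep q.V x s ∧ (x ++ [s]) <+: y := by
  have main : ∀ n : ℕ, ∀ y : Node, y.length ≤ n → y ∈ q.F → x <+: y → x ≠ y →
      ∃ s, SStep q.V x s ∧ (x ++ [s]) <+: y := by
    intro n
    induction n with
    | zero =>
      intro y hn _ hxy hne
      exfalso
      apply hne
      have h1 : y = [] := List.length_eq_zero_iff.1 (by omega)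
      subst h1
      exact List.prefix_nil.1 hxy
    | succ n ih =>
      intro y hn hy hxy hne
      have hyt : y ≠ q.t := by
        rintro rfl
        exact hne (List.IsPrefix.eq_of_length_le hxy (hq.above x hx).length_le)
      obtain ⟨x1, hx1, s1, hs1, hg, hmax⟩ := hq.pred y hy hyt
      rcases hmax x hx hxy with h | h
      · exact absurd h hne
      · by_cases he : x = x1
        · subst he
          exact ⟨s1, hs1, hg.1⟩
        · obtain ⟨s, hs, hsp⟩ := ih x1 (by have := length_lt_of_gap hg; omega) hx1 h he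
          exact ⟨s, hs, hsp.trans ((prefix_append_single x1 s1).trans hg.1)⟩
  exact main y.length y le_rfl hy hxy hne

theorem Good.sstep_of_prefix {q : Cond} (hq : Good q) {x y : Node} {s : Step} (hx : x ∈ q.F)
    (hy : y ∈ q.F) (hxy : (x ++ [s]) <+: y) : SStep q.V x s := by
  have hne : x ≠ y := by
    rintro rfl
    have := hxy.length_le
    rw [List.length_append, List.length_singleton] at this
    omega
  obtain ⟨s', hs', h'⟩ := hq.chain hx hy ((prefix_append_single x s).trans hxy) hne
  have h1 : x ++ [s] = x ++ [s'] := eq_of_prefix_of_length hxy h' (by simp)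
  have h2 : [s] = [s'] := List.append_cancel_left h1
  have h3 : s = s' := by simpa using h2
  rw [h3]
  exact hs'

theorem sstep_card {V : Fam} {x : Node} {s : Step} (h : SStep V x s) :
    1 < (V (plc x + s.u.length)).card :=
  Finset.one_lt_card.2 ⟨s.v, h.2.1, s.w, h.2.2.1, IsPair_ne h.2.2.2⟩

theorem Good.eq_of_gap_prefix {q : Cond} (hq : Good q) {x y y' : Node} {s : Step}
    (hy : y ∈ q.F) (hy' : y' ∈ q.F) (h : GapExt q.V (x ++ [s]) y)
    (h' : GapExt q.V (x ++ [s]) y') (hp : y <+: y') : y = y' := by
  by_contra hne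
  obtain ⟨s', hs', h1⟩ := hq.chain hy hy' hp hne
  have h2 := sstep_card hs'
  have h3 := plc_mono h.1
  have h4 := plc_mono h1
  rw [plc_append y [s'], plc_singleton] at h4
  obtain ⟨z, hz, _⟩ := h'.2 (plc y + s'.u.length) (by omega) (by omega)
  rw [hz, Finset.card_singleton] at h2
  exact lt_irrefl _ h2

theorem Good.succ_unique {q : Cond} (hq : Good q) {x y y' : Node} {s : Step} (hx : x ∈ q.F)
    (hs : SStep q.V x s) (hy : y ∈ q.F) (hy' : y' ∈ q.F) (h : GapExt q.V (x ++ [s]) y)
    (h' : GapExt q.V (x ++ [s]) y') : y = y' := by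
  obtain ⟨y0, hy0, h0, hmin⟩ := hq.succ x hx s hs
  rw [← hq.eq_of_gap_prefix hy0 hy h0 h (hmin y hy h.1),
    ← hq.eq_of_gap_prefix hy0 hy' h0 h' (hmin y' hy' h'.1)]

/-- the successor of `x` through `s` is below every fat node through `x ++ [s]` -/
theorem Good.succ_min {q : Cond} (hq : Good q) {x y z : Node} {s : Step} (hx : x ∈ q.F)
    (hs : SStep q.V x s) (hy : y ∈ q.F) (h : GapExt q.V (x ++ [s]) y) (hz : z ∈ q.F)
    (hz' : (x ++ [s]) <+: z) : y <+: z := by
  obtain ⟨y0, hy0, h0, hmin⟩ := hq.succ x hx s hs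
  rw [hq.succ_unique hx hs hy hy0 h h0]
  exact hmin z hz hz'

/-- no fat node lies strictly between `x` and its successor -/
theorem Good.between {q : Cond} (hq : Good q) {x y z : Node} {s : Step} (hx : x ∈ q.F)
    (hs : SStep q.V x s) (hy : y ∈ q.F) (h : GapExt q.V (x ++ [s]) y) (hz : z ∈ q.F)
    (hz' : z <+: y) : z = y ∨ z <+: x := by
  rcases List.prefix_or_prefix_of_prefix hz' h.1 with h1 | h1
  · rcases Nat.lt_or_ge x.length z.length with h2 | h2
    · have h3 : z = x ++ [s] := by
        refine List.IsPrefix.eq_of_length_le h1 ?_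
        rw [List.length_append, List.length_singleton]
        omega
      left
      have h4 : y <+: z := hq.succ_min hx hs hy h hz (h3 ▸ List.prefix_refl _)
      exact List.IsPrefix.eq_of_length_le hz' h4.length_le
    · right
      exact List.prefix_of_prefix_length_le h1 (prefix_append_single x s) h2
  · left
    have h4 : y <+: z := hq.succ_min hx hs hy h hz h1
    exact List.IsPrefix.eq_of_length_le hz' h4.length_le

/-- two comparable or equal extensions: if `x ++ [s]` and `x' ++ [s']` are initial segments of the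
same fat node and `x, x'` are fat then they are nested -/
theorem Good.comparable {q : Cond} (hq : Good q) {x x' y : Node} (hx : x ∈ q.F) (hx' : x' ∈ q.F)
    (h : x <+: y) (h' : x' <+: y) : x = x' ∨ (∃ s, SStep q.V x s ∧ (x ++ [s]) <+: x') ∨
      (∃ s, SStep q.V x' s ∧ (x' ++ [s]) <+: x) := by
  by_cases he : x = x'
  · exact Or.inl he
  · rcases List.prefix_or_prefix_of_prefix h h' with h1 | h1
    · exact Or.inr (Or.inl (hq.chain hx hx' h1 he))
    · exact Or.inr (Or.inr (hq.chain hx' hx h1 (Ne.symm he)))

theorem finite_steps (V : Fam) (x : Node) (κ : ℕ) :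
    {s : Step | SStep V x s ∧ plc (x ++ [s]) ≤ κ}.Finite := by
  have hU : (⋃ n ∈ Finset.range (κ + 1), {u : List H | u.length = n ∧
      ∀ p, p < n → u.getD p 0 ∈ V (plc x + p)}).Finite :=
    Set.Finite.biUnion (Finset.finite_toSet _) fun n _ => finite_lists (fun p => V (plc x + p))
  have hW : ((Finset.range (κ + 1)).biUnion V : Set H).Finite := Finset.finite_toSet _
  refine ((hU.prod (hW.prod hW)).image (fun r : List H × H × H => Step.mk r.1 r.2.1 r.2.2)).subset ?_
  rintro ⟨u, v, w⟩ ⟨hs, hp⟩
  rw [plc_append, plc_singleton] at hp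
  have hp' : plc x + (u.length + 1) ≤ κ := hp
  refine ⟨(u, v, w), ⟨?_, ?_, ?_⟩, rfl⟩
  · simp only [Set.mem_iUnion]
    exact ⟨u.length, Finset.mem_range.2 (by omega), rfl, fun p h => path_iff.1 hs.1 p h⟩
  · exact Finset.mem_coe.2 (Finset.mem_biUnion.2 ⟨plc x + u.length, Finset.mem_range.2 (by omega),
      hs.2.1⟩)
  · exact Finset.mem_coe.2 (Finset.mem_biUnion.2 ⟨plc x + u.length, Finset.mem_range.2 (by omega),
      hs.2.2.1⟩)

theorem Good.finite_le {q : Cond} (hq : Good q) (κ : ℕ) : {x | x ∈ q.F ∧ plc x ≤ κ}.Finite := by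
  have key : ∀ κ : ℕ, {x | x ∈ q.F ∧ plc x < κ}.Finite := by
    intro κ
    induction κ with
    | zero =>
      refine Set.Finite.subset Set.finite_empty ?_
      rintro x ⟨_, hx⟩
      exact absurd hx (Nat.not_lt_zero _)
    | succ κ ih =>
      refine Set.Finite.subset (Set.Finite.union (Set.finite_singleton q.t)
        (Set.Finite.biUnion ih (t := fun x1 => ⋃ s ∈ {s : Step | SStep q.V x1 s ∧
          plc (x1 ++ [s]) ≤ κ}, {y | y ∈ q.F ∧ GapExt q.V (x1 ++ [s]) y}) fun x1 hx1 => ?_)) ?_
      · refine Set.Finite.biUnion (finite_steps q.V x1 κ) fun s hs => ?_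
        refine Set.Subsingleton.finite ?_
        intro y hy y' hy'
        exact hq.succ_unique hx1.1 hs.1 hy.1 hy'.1 hy.2 hy'.2
      · rintro y ⟨hy, hyκ⟩
        by_cases hyt : y = q.t
        · exact Or.inl hyt
        · right
          obtain ⟨x1, hx1, s1, hs1, hg, _⟩ := hq.pred y hy hyt
          have h1 := plc_lt_of_gap hg
          have h2 := plc_mono hg.1
          simp only [Set.mem_iUnion]
          exact ⟨x1, ⟨hx1, by omega⟩, s1, ⟨hs1, by omega⟩, hy, hg⟩
  refine (key (κ + 1)).subset ?_
  rintro x ⟨hx, hκ⟩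
  exact ⟨hx, by omega⟩

/-- no elongation crosses a cut -/
theorem Good.cut_succ {q : Cond} (hq : Good q) {κ : ℕ} (hc : Cut q κ) {x y : Node} {s : Step}
    (hx : x ∈ q.F) (hs : SStep q.V x s) (hy : y ∈ q.F) (h : GapExt q.V (x ++ [s]) y)
    (hle : plc (x ++ [s]) ≤ κ) : plc y ≤ κ := by
  by_contra hlt
  obtain ⟨z, hz, _⟩ := h.2 κ hle (by omega)
  have h1 := hc.2
  rw [hz, Finset.card_singleton] at h1
  exact lt_irrefl _ h1

/-- every fat node beyond a cut has a splitting step with last place `≥ κ` -/
theorem Good.beyond {q : Cond} (hq : Good q) {κ : ℕ} (hc : Cut q κ) {y : Node} (hy : y ∈ q.F)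
    (hκ : κ < plc y) : ∃ x ∈ q.F, ∃ s, SStep q.V x s ∧ (x ++ [s]) <+: y ∧ plc x ≤ κ ∧
      κ ≤ plc x + s.u.length := by
  have main : ∀ n : ℕ, ∀ y : Node, y.length ≤ n → y ∈ q.F → κ < plc y →
      ∃ x ∈ q.F, ∃ s, SStep q.V x s ∧ (x ++ [s]) <+: y ∧ plc x ≤ κ ∧
        κ ≤ plc x + s.u.length := by
    intro n
    induction n with
    | zero =>
      intro y hn _ hκ
      exfalso
      have h1 : y = [] := List.length_eq_zero_iff.1 (by omega)
      subst h1
      exact absurd hκ (Nat.not_lt_zero _)
    | succ n ih =>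
      intro y hn hy hκ
      have hyt : y ≠ q.t := by
        rintro rfl
        have := hc.1
        omega
      obtain ⟨x1, hx1, s1, hs1, hg, _⟩ := hq.pred y hy hyt
      rcases Nat.lt_or_ge κ (plc x1) with h1 | h1
      · obtain ⟨x, hx, s, hs, hsp, h2, h3⟩ :=
          ih x1 (by have := length_lt_of_gap hg; omega) hx1 h1
        exact ⟨x, hx, s, hs, hsp.trans ((prefix_append_single x1 s1).trans hg.1), h2, h3⟩
      · refine ⟨x1, hx1, s1, hs1, hg.1, h1, ?_⟩
        by_contra h2
        have h3 := hq.cut_succ hc hx1 hs1 hy hg (by rw [plc_append, plc_singleton]; omega)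
        omega
  exact main y.length y le_rfl hy hκ

/-- the entries of fat nodes at real places: a singleton of `V p`, a subset of `V p`, or a ghost at
a place where `V p` is a singleton -/
theorem Good.entry {q : Cond} (hq : Good q) {x : Node} (hx : x ∈ q.F) {p : ℕ}
    (hp : plc q.t ≤ p) (hp' : p < plc x) :
    (∃ z, q.V p = {z} ∧ z ∈ ent x p) ∨ (1 < (q.V p).card ∧ ent x p ⊆ q.V p) := by
  have main : ∀ n : ℕ, ∀ x : Node, x.length ≤ n → x ∈ q.F → p < plc x →
      (∃ z, q.V p = {z} ∧ z ∈ ent x p) ∨ (1 < (q.V p).card ∧ ent x p ⊆ q.V p) := by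
    intro n
    induction n with
    | zero =>
      intro x hn _ hx
      exfalso
      have h1 : x = [] := List.length_eq_zero_iff.1 (by omega)
      subst h1
      exact absurd hx (Nat.not_lt_zero _)
    | succ n ih =>
      intro x hn hx hp'
      have hxt : x ≠ q.t := by
        rintro rfl
        omega
      obtain ⟨x1, hx1, s1, hs1, hg, _⟩ := hq.pred x hx hxt
      have hxx : x1 <+: x := (prefix_append_single x1 s1).trans hg.1
      rcases Nat.lt_or_ge p (plc x1) with h1 | h1
      · rw [ent_prefix hxx h1]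
        exact ih x1 (by have := length_lt_of_gap hg; omega) hx1 h1
      · rcases Nat.lt_or_ge p (plc (x1 ++ [s1])) with h2 | h2
        · rw [ent_prefix hg.1 h2]
          rw [plc_append, plc_singleton] at h2
          obtain ⟨i, rfl⟩ := Nat.exists_eq_add_of_le h1
          rw [ent_append_right]
          rcases Nat.lt_or_ge i s1.u.length with h3 | h3
          · rw [ent_singleton_lt h3]
            have h4 : s1.u.getD i 0 ∈ q.V (plc x1 + i) := path_iff.1 hs1.1 i h3
            rcases Nat.lt_or_ge 1 (q.V (plc x1 + i)).card with h5 | h5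
            · right
              refine ⟨h5, ?_⟩
              rw [Finset.singleton_subset_iff]
              exact h4
            · left
              refine ⟨s1.u.getD i 0, ?_, Finset.mem_singleton_self _⟩
              symm
              refine Finset.eq_of_subset_of_card_le (Finset.singleton_subset_iff.2 h4) ?_
              rw [Finset.card_singleton]
              exact h5
          · have h4 : i = s1.u.length := by omega
            subst h4
            right
            refine ⟨sstep_card hs1, ?_⟩
            rw [ent_singleton_last]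
            intro h hh
            rw [Finset.mem_insert, Finset.mem_singleton] at hh
            rcases hh with rfl | rfl
            · exact hs1.2.1
            · exact hs1.2.2.1
        · exact Or.inl (hg.2 p h2 hp')
  exact main x.length x le_rfl hx hp'

end Helper99.TT
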