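import Pool.Agent.Helper98.T.LemS

/-!
# Project TT (MP_c2016b_lc, Q2): Shore's lattice T is an initial segment of the degrees of
constructibility.  Part A, combinatorics: definitions.

Proof text: `/team-store/helper99_T_Proof.md`.
-/

set_option autoImplicit false

noncomputable section

namespace Helper99.TT

/-- Finitely supported functions; `v i` is the `i`-th digit of `v`. -/
abbrev H := Pool.Agent.Helper98.T.H

/-- `v =_n w`: the digits from `n` on are equal. -/
abbrev Eqv (n : ℕ) (v w : H) : Prop := Pool.Agent.Helper98.T.EqN n v w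

/-- `(v, w)` is an (ordered) `j`-pair: `j` is the largest digit where they differ, `v j < w j`. -/
abbrev IsPair (j : ℕ) (v w : H) : Prop := Pool.Agent.Helper98.T.Pr j v w

/-- `V` contains a tree over `e` of height `i` and branching (at least) `M`. -/
abbrev Lg (i M : ℕ) (V : Finset H) (e : H) : Prop := Pool.Agent.Helper98.T.Lg i M V e

/-- `V` is `M`-large. -/
abbrev Large (M : ℕ) (V : Finset H) : Prop := Pool.Agent.Helper98.T.Large M V

/-- `V` is an exact tree over `e` of height `i` and branching `M`. -/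
abbrev Ex (i M : ℕ) (V : Finset H) (e : H) : Prop := Pool.Agent.Helper98.T.Ex i M V e

/-- `V` is an exact `M`-tree. -/
def Exact (M : ℕ) (V : Finset H) : Prop := ∃ e, Ex M M V e

/-- families `(V_i)` of finite sets -/
abbrev Fam := ℕ → Finset H

/-- The space `XX`: nonempty sets, for all `M` infinitely many `V_i` are `M`-large. -/
def IsX (V : Fam) : Prop := (∀ i, (V i).Nonempty) ∧ ∀ M N : ℕ, ∃ i, N ≤ i ∧ Large M (V i)

/-- `V' ≤ V` from the place `k` on. -/
def SubX (k : ℕ) (V' V : Fam) : Prop := ∀ i, k ≤ i → V' i ⊆ V i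

/-- `u` is a path through `V` starting at the place `k`. -/
abbrev Path (V : Fam) (k : ℕ) (u : List H) : Prop := Pool.Agent.Helper98.T.IsPath V k u

/-- points of the product `[V]` from the place `k` on -/
def InX (V : Fam) (k : ℕ) (A : ℕ → H) : Prop := ∀ p, k ≤ p → A p ∈ V p

/-- One step of the `B`-part: single values `u`, followed by the pair `{v, w}`. -/
structure Step where
  u : List H
  v : H
  w : H

/-- A node = a finite sequence of steps (the `j`-th step has the `j`-th pair of `B`). -/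
abbrev Node := List Step

/-- number of places of a step -/
def Step.size (s : Step) : ℕ := s.u.length + 1

/-- the first place after the node `x` -/
def plc (x : Node) : ℕ := (x.map Step.size).sum

/-- the entry (a set with one or two elements) of a step at its place `i` -/
def Step.ent (s : Step) (i : ℕ) : Finset H :=
  if i < s.u.length then {s.u.getD i 0} else {s.v, s.w}

/-- the entry of a node at the place `p < plc x` -/
def ent : Node → ℕ → Finset H
  | [], _ => ∅
  | s :: x, p => if p < s.size then s.ent p else ent x (p - s.size)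

/-- the `i`-th pair is an `i`-pair -/
def Idx (x : Node) : Prop := ∀ (i : ℕ) (s : Step), x[i]? = some s → IsPair i s.v s.w

/-- `s` is a splitting step at the node `x` over `V` -/
def SStep (V : Fam) (x : Node) (s : Step) : Prop :=
  Path V (plc x) s.u ∧ s.v ∈ V (plc x + s.u.length) ∧ s.w ∈ V (plc x + s.u.length) ∧
    IsPair x.length s.v s.w

/-- `y` is an elongation of `x` in a gap of `V`: all `V p` between are singletons `{z}`, `z` in the
entry of `y` at `p`. -/
def GapExt (V : Fam) (x y : Node) : Prop :=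
  x <+: y ∧ ∀ p, plc x ≤ p → p < plc y → ∃ z, V p = {z} ∧ z ∈ ent y p

/-- A pieceless condition: stem, product of finite trees, set of fat nodes. -/
structure Cond where
  t : Node
  V : Fam
  F : Set Node

/-- The conditions (3.0). -/
structure Good (q : Cond) : Prop where
  isX : IsX q.V
  stem : q.t ∈ q.F
  above : ∀ x ∈ q.F, q.t <+: x
  idx : ∀ x ∈ q.F, Idx x
  succ : ∀ x ∈ q.F, ∀ s, SStep q.V x s →
    ∃ y ∈ q.F, GapExt q.V (x ++ [s]) y ∧ ∀ z ∈ q.F, (x ++ [s]) <+: z → y <+: z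
  pred : ∀ y ∈ q.F, y ≠ q.t →
    ∃ x ∈ q.F, ∃ s, SStep q.V x s ∧ GapExt q.V (x ++ [s]) y ∧ ∀ z ∈ q.F, z <+: y → z = y ∨ z <+: x

/-- entries of `x` that are real for `V` are real for `V'` -/
def Fit (V V' : Fam) (k : ℕ) (x : Node) : Prop :=
  ∀ p, k ≤ p → p < plc x → ∀ h ∈ ent x p, h ∈ V p → h ∈ V' p

/-- restriction to `V'` -/
def Cond.restr (q : Cond) (V' : Fam) : Cond where
  t := q.t
  V := V'
  F := {x | x ∈ q.F ∧ Fit q.V V' (plc q.t) x}

/-- the cone above a fat node -/
def Cond.cone (q : Cond) (x : Node) : Cond where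
  t := x
  V := q.V
  F := {y | y ∈ q.F ∧ x <+: y}

/-- the family of the graft: `q.V` below `plc x`, the path `y`, then `q'.V` -/
def graftV (q : Cond) (x : Node) (y : List H) (q' : Cond) : Fam := fun p =>
  if p < plc x then q.V p else if p < plc q'.t then {y.getD (p - plc x) 0} else q'.V p

/-- graft: replace the cone of `q` at `x` by `q'` (which is an extension of it along `y`) -/
def Cond.graft (q : Cond) (x : Node) (y : List H) (q' : Cond) : Cond where
  t := q.t
  V := graftV q x y q'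
  F := {z | z ∈ q.F ∧ Fit q.V (graftV q x y q') (plc q.t) z ∧ ¬ x <+: z} ∪ q'.F

/-- `q' ≤_y q` -/
def Le (y : List H) (q' q : Cond) : Prop :=
  q'.t ∈ q.F ∧ plc q.t + y.length = plc q'.t ∧
  (∀ i, i < y.length → y.getD i 0 ∈ q.V (plc q.t + i) ∧ y.getD i 0 ∈ ent q'.t (plc q.t + i)) ∧
  SubX (plc q'.t) q'.V q.V ∧ q'.F ⊆ q.F

/-- `q' ≤ q` with the same stem -/
def LeS (q' q : Cond) : Prop := q'.t = q.t ∧ SubX (plc q.t) q'.V q.V ∧ q'.F ⊆ q.F

/-- `q' ≤ q` with the same stem and the same part up to `κ` -/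
def LeK (κ : ℕ) (q' q : Cond) : Prop :=
  LeS q' q ∧ (∀ p, p < κ → q'.V p = q.V p) ∧ ∀ x ∈ q.F, plc x ≤ κ → x ∈ q'.F

/-- `κ` is a cut of `q` -/
def Cut (q : Cond) (κ : ℕ) : Prop := plc q.t ≤ κ ∧ 1 < (q.V κ).card

/-- initial segments of `A` and `B` -/
def preA (A : ℕ → H) (n : ℕ) : List H := (List.range n).map A
def preB (B : ℕ → Step) (n : ℕ) : Node := (List.range n).map B

/-- `a` is a piece of the node `x` -/
def IsPiece (x : Node) (a : List H) : Prop :=
  a.length = plc x ∧ ∀ p, p < plc x → a.getD p 0 ∈ ent x p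

/-- `b` is a real piece of the fat node `x` of `q` over the piece `a` of the stem -/
def IsReal (q : Cond) (a : List H) (x : Node) (b : List H) : Prop :=
  IsPiece q.t a ∧ a <+: b ∧ IsPiece x b ∧ ∀ p, plc q.t ≤ p → p < plc x → b.getD p 0 ∈ q.V p

/-- the branches `[a, q]` -/
def Br (q : Cond) (a : List H) (A : ℕ → H) (B : ℕ → Step) : Prop :=
  preA A (plc q.t) = a ∧ preB B q.t.length = q.t ∧
  (∀ n p, p < plc (preB B n) → A p ∈ ent (preB B n) p) ∧
  (∀ p, plc q.t ≤ p → A p ∈ q.V p) ∧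
  ∀ n, ∃ m, n ≤ m ∧ preB B m ∈ q.F

/-- `B` passes through the node `x` -/
def Thru (B : ℕ → Step) (x : Node) : Prop := preB B x.length = x

/-- functions on branches -/
abbrev Fn := (ℕ → H) → (ℕ → Step) → ℕ → Bool

/-- `f` is continuous on `[a, q]` -/
def Cont (f : Fn) (q : Cond) (a : List H) : Prop :=
  ∀ A B, Br q a A B → ∀ l : ℕ, ∃ n : ℕ, ∀ A' B', Br q a A' B' →
    (∀ i, i < n → A' i = A i ∧ B' i = B i) → ∀ i, i < l → f A' B' i = f A B i

/-- change the beginning of `A` to `a` -/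
def rep (a : List H) (A : ℕ → H) : ℕ → H := fun p => if p < a.length then a.getD p 0 else A p

/-- `a ~ a'` at `q` -/
def Idn (f : Fn) (q : Cond) (a a' : List H) : Prop :=
  ∀ A B, Br q a A B → f (rep a' A) B = f A B

/-- `a # a'` at `q` -/
def Sepd (f : Fn) (q : Cond) (a a' : List H) : Prop :=
  ∃ (i : ℕ) (b : Bool), (∀ A B, Br q a A B → f A B i = b) ∧ (∀ A B, Br q a' A B → f A B i = !b)

/-- functions of `A` -/
def FA (f : Fn) (q : Cond) (a : List H) : Prop :=
  ∀ A B B', Br q a A B → Br q a A B' → f A B = f A B'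

/-- functions of `B` -/
def FB (f : Fn) (q : Cond) (a : List H) : Prop :=
  ∀ A A' B, Br q a A B → Br q a A' B → f A B = f A' B

/-- the stem is ID for `a` in `q`: after each splitting step the two real pieces are identified -/
def IDn (f : Fn) (q : Cond) (a : List H) : Prop :=
  ∀ s, SStep q.V q.t s → ∀ y ∈ q.F, GapExt q.V (q.t ++ [s]) y →
    ∀ b b', IsReal q a y b → IsReal q a y b' → Idn f (q.cone y) b b'

/-- the stem is SEP for `a` in `q`: after each splitting step the two real pieces are separated -/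
def SEPn (f : Fn) (q : Cond) (a : List H) : Prop :=
  ∀ s, SStep q.V q.t s → ∀ y ∈ q.F, GapExt q.V (q.t ++ [s]) y →
    ∀ b b', IsReal q a y b → IsReal q a y b' → b ≠ b' → Sepd f (q.cone y) b b'

/-- `(a, q)` has limits -/
def HasLim (f : Fn) (q : Cond) (a : List H) : Prop :=
  ∃ r : Bool → (ℕ → H) → ℕ → Bool, ∀ l : ℕ, ∃ m : ℕ,
    (∀ e A A', InX q.V (plc q.t) A → InX q.V (plc q.t) A' →
      (∀ p, plc q.t ≤ p → p < m → A p = A' p) → ∀ i, i < l → r e A i = r e A' i) ∧
    (∀ A B, Br q a A B → m ≤ plc q.t + (B q.t.length).u.length →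
      ∀ i, i < l → f A B i = r (decide (A (plc q.t + (B q.t.length).u.length) = (B q.t.length).w)) A i)

/-- `B`-decoding at the node `x` -/
def Decode (f : Fn) (q : Cond) (a : List H) (x : Node) : Prop :=
  ∃ l : ℕ, ∀ A B A' B', Br q a A B → Br q a A' B' → Thru B x → ¬ Thru B' x →
    ∃ i, i < l ∧ f A B i ≠ f A' B' i

/-- all blocks from `k` on are singletons or exact trees -/
def ExactFrom (V : Fam) (k : ℕ) : Prop :=
  ∀ p, k ≤ p → (V p).card = 1 ∨ ∃ N, 2 ≤ N ∧ Exact N (V p)

/-- `(a', q') ≤ (a, q)` -/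
def LeP (a' : List H) (q' : Cond) (a : List H) (q : Cond) : Prop :=
  ∃ y, a' = a ++ y ∧ Le y q' q

/-- `x` is a leaf at `κ`: nothing happens between `plc x` and `κ` -/
def Leaf (q : Cond) (κ : ℕ) (x : Node) : Prop :=
  x ∈ q.F ∧ x ≠ q.t ∧ plc x ≤ κ ∧ ∀ p, plc x ≤ p → p < κ → (q.V p).card = 1

/-- all fat nodes with place in `(κ0, κ]` are leaves at `κ` -/
def Fresh (κ0 : ℕ) (q : Cond) (κ : ℕ) : Prop :=
  ∀ x ∈ q.F, κ0 < plc x → plc x ≤ κ → Leaf q κ x

/-- `(q', κ')` arises from `(q, κ)` by replacing the leaf `x` by `x'` -/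
def Reach (q : Cond) (κ : ℕ) (x : Node) (q' : Cond) (κ' : ℕ) (x' : Node) : Prop :=
  LeS q' q ∧ κ ≤ κ' ∧ Cut q' κ' ∧ (∀ p, p < κ → q'.V p = q.V p) ∧
  (∀ p, κ ≤ p → p < κ' → (q'.V p).card = 1) ∧ x <+: x' ∧
  ∀ z, (z ∈ q'.F ∧ plc z ≤ κ') ↔ (z = x' ∨ (z ∈ q.F ∧ plc z ≤ κ ∧ z ≠ x))

/-- classes of conditions closed under the finitary operations -/
structure Closed (C : Set Cond) : Prop where
  good : ∀ q ∈ C, Good q
  cone : ∀ q ∈ C, ∀ x ∈ q.F, q.cone x ∈ C
  restr : ∀ q ∈ C, ∀ V' : Fam, (∀ p, (V' p).Nonempty) → SubX (plc q.t) V' q.V →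
    {p | V' p ≠ q.V p}.Finite → q.restr V' ∈ C
  graft : ∀ q ∈ C, ∀ x ∈ q.F, x ≠ q.t → ∀ y, ∀ q' ∈ C, Le y q' (q.cone x) → q.graft x y q' ∈ C

/-- limit of a fusion sequence -/
def flim (Q : ℕ → Cond) (K : ℕ → ℕ) : Cond where
  t := (Q 0).t
  V := fun p => (Q (p + 1)).V p
  F := {x | ∃ n, plc x ≤ K n ∧ x ∈ (Q n).F}

/-- fusion sequences -/
structure FSeq (Q : ℕ → Cond) (K : ℕ → ℕ) : Prop where
  good : ∀ n, Good (Q n)
  cut : ∀ n, Cut (Q n) (K n)
  lt : ∀ n, K n < K (n + 1)
  le : ∀ n, LeK (K n) (Q (n + 1)) (Q n)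
  large : ∀ n, ∃ m, K n ≤ m ∧ m < K (n + 1) ∧ Large n ((Q (n + 1)).V m)

/-- the top condition -/
def topV : Fam := fun i => (Finset.range (i + 1)).finsupp (fun _ => Finset.range (i + 1))

def topC : Cond where
  t := []
  V := topV
  F := {x | Idx x ∧ ∀ p, p < plc x → ent x p ⊆ topV p}

end Helper99.TT
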