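import Pool.Agent.Helper99.TT.Trees

/-! TT-A8: Lemmas W and S in the form used here (from helper98's files). -/

set_option autoImplicit false

namespace Helper99.TT

theorem isX_iff {V : Fam} : IsX V ↔ (∀ i, (V i).Nonempty) ∧
    ∀ M, ∃ᶠ i in Filter.atTop, Large M (V i) := by
  constructor
  · rintro ⟨h1, h2⟩
    refine ⟨h1, fun M => Filter.frequently_atTop.2 fun N => ?_⟩
    obtain ⟨i, hi, h⟩ := h2 M N
    exact ⟨i, hi, h⟩
  · rintro ⟨h1, h2⟩
    refine ⟨h1, fun M N => ?_⟩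
    obtain ⟨i, hi, h⟩ := Filter.frequently_atTop.1 (h2 M) N
    exact ⟨i, hi, h⟩

theorem isXX_of_isX {V : Fam} (h : IsX V) (k : ℕ) : Pool.Agent.Helper98.T.IsXX k V :=
  ⟨fun i _ => h.1 i, (isX_iff.1 h).2⟩

/-- Lemma S from the place `k0` on -/
theorem lemmaS_from {κ : Type} [Finite κ] (k0 : ℕ) (V : Fam) (hV : IsX V) (j : ℕ)
    (c : List H → H → H → κ) :
    ∃ V' : Fam, IsX V' ∧ (∀ p, V' p ⊆ V p) ∧ (∀ p, p < k0 → V' p = V p) ∧
      ∃ k : κ, ∀ (u : List H) (v w : H), Path V' k0 u → v ∈ V' (k0 + u.length) →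
        w ∈ V' (k0 + u.length) → IsPair j v w → c u v w = k := by
  obtain ⟨X', h1, h2, e, h3⟩ := Pool.Agent.Helper98.T.lemmaS (isXX_of_isX hV k0) j c
  refine ⟨fun p => if p < k0 then V p else X' p, ⟨?_, ?_⟩, ?_, ?_, e, ?_⟩
  · intro i
    by_cases hi : i < k0
    · simpa [hi] using hV.1 i
    · simpa [hi] using h2.1 i (by omega)
  · intro M N
    obtain ⟨i, hi, h⟩ := Filter.frequently_atTop.1 (h2.2 M) (max N k0)
    have hi1 : N ≤ i := le_trans (le_max_left _ _) hi
    have hi2 : k0 ≤ i := le_trans (le_max_right _ _) hi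
    refine ⟨i, hi1, ?_⟩
    simpa [show ¬ i < k0 by omega] using h
  · intro p
    by_cases hp : p < k0
    · simp [hp]
    · simpa [hp] using h1 p (by omega)
  · intro p hp
    simp [hp]
  · intro u v w hu hv hw hp
    simp only [show ¬ (k0 + u.length < k0) by omega, if_false] at hv hw
    refine h3 u (hu.mono ?_) v hv w hw hp
    intro i hi _
    simp [show ¬ i < k0 by omega]

end Helper99.TT
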