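import Pool.Agent.Helper99.TT.Chain

/-! TT-B3a: restriction and cone. -/

set_option autoImplicit false

namespace Helper99.TT

theorem isX_of_finite {V V' : Fam} (hV : IsX V) (hne : ∀ p, (V' p).Nonempty)
    (hf : {p | V' p ≠ V p}.Finite) : IsX V' := by
  refine ⟨hne, fun M N => ?_⟩
  obtain ⟨b, hb⟩ := hf.bddAbove
  obtain ⟨i, hi, hl⟩ := hV.2 M (max N (b + 1))
  refine ⟨i, le_trans (le_max_left _ _) hi, ?_⟩
  have h1 : V' i = V i := by
    by_contra hc
    have h2 : i ≤ b := hb hc
    have h3 := le_trans (le_max_right N (b + 1)) hi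
    omega
  rw [h1]
  exact hl

private theorem gap_sub {V V' : Fam} {k : ℕ} {x y : Node} (hne : ∀ p, (V' p).Nonempty)
    (hs : SubX k V' V) (hk : k ≤ plc x) (h : GapExt V x y) : GapExt V' x y := by
  refine ⟨h.1, fun p hp hp' => ?_⟩
  obtain ⟨z, hz, hze⟩ := h.2 p hp hp'
  refine ⟨z, ?_, hze⟩
  have h1 : V' p ⊆ {z} := by
    rw [← hz]
    exact hs p (by omega)
  exact (hne p).subset_singleton_iff.1 h1

private theorem gap_fit {V V' : Fam} {k : ℕ} {x y : Node} (hne : ∀ p, (V' p).Nonempty)
    (hs : SubX k V' V) (hk : k ≤ plc x) (h : GapExt V x y) {p : ℕ} (hp : plc x ≤ p)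
    (hp' : p < plc y) {g : H} (hg : g ∈ V p) : g ∈ V' p := by
  obtain ⟨z, hz, _⟩ := h.2 p hp hp'
  obtain ⟨z', hz', _⟩ := (gap_sub hne hs hk h).2 p hp hp'
  have h1 : V' p ⊆ V p := hs p (by omega)
  rw [hz', hz, Finset.singleton_subset_iff, Finset.mem_singleton] at h1
  rw [hz, Finset.mem_singleton] at hg
  rw [hz', Finset.mem_singleton, hg, h1]

theorem restr_good {q : Cond} (hq : Good q) {V' : Fam} (hV' : IsX V')
    (hs : SubX (plc q.t) V' q.V) : Good (q.restr V') := by
  have hk : ∀ x ∈ q.F, plc q.t ≤ plc x := fun x hx => plc_mono (hq.above x hx)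
  refine ⟨hV', ⟨hq.stem, fun p h1 h2 => ?_⟩, fun x hx => hq.above x hx.1,
    fun x hx => hq.idx x hx.1, ?_, ?_⟩
  · exact absurd h2 (not_lt.2 h1)
  · rintro x ⟨hx, hfit⟩ s hst
    have hkx := hk x hx
    have hst' : SStep q.V x s := by
      refine ⟨path_iff.2 fun i hi => hs _ (by omega) (path_iff.1 hst.1 i hi),
        hs _ (by omega) hst.2.1, hs _ (by omega) hst.2.2.1, hst.2.2.2⟩
    obtain ⟨y, hy, hg, hmin⟩ := hq.succ x hx s hst'
    have hkx' : plc q.t ≤ plc (x ++ [s]) := le_trans hkx (plc_mono (prefix_append_single x s))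
    refine ⟨y, ⟨hy, ?_⟩, gap_sub hV'.1 hs hkx' hg, fun z hz hz' => hmin z hz.1 hz'⟩
    intro p hp hp' g hge hgV
    rcases Nat.lt_or_ge p (plc x) with h1 | h1
    · rw [ent_prefix ((prefix_append_single x s).trans hg.1) h1] at hge
      exact hfit p hp h1 g hge hgV
    · rcases Nat.lt_or_ge p (plc (x ++ [s])) with h2 | h2
      · rw [ent_prefix hg.1 h2] at hge
        obtain ⟨i, rfl⟩ := Nat.exists_eq_add_of_le h1
        rw [ent_append_right] at hge
        rw [plc_append, plc_singleton] at h2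
        rcases Nat.lt_or_ge i s.u.length with h3 | h3
        · rw [ent_singleton_lt h3, Finset.mem_singleton] at hge
          rw [hge]
          exact path_iff.1 hst.1 i h3
        · have h4 : i = s.u.length := by omega
          subst h4
          rw [ent_singleton_last, Finset.mem_insert, Finset.mem_singleton] at hge
          rcases hge with rfl | rfl
          · exact hst.2.1
          · exact hst.2.2.1
      · exact gap_fit hV'.1 hs hkx' hg h2 hp' hgV
  · rintro y ⟨hy, hfit⟩ hne
    obtain ⟨x, hx, s, hst, hg, hmax⟩ := hq.pred y hy hne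
    have hkx := hk x hx
    have hkx' : plc q.t ≤ plc (x ++ [s]) := le_trans hkx (plc_mono (prefix_append_single x s))
    have hxy : x <+: y := (prefix_append_single x s).trans hg.1
    have hle := plc_mono hxy
    have hle' := plc_mono hg.1
    refine ⟨x, ⟨hx, ?_⟩, s, ?_, gap_sub hV'.1 hs hkx' hg, fun z hz hz' => hmax z hz.1 hz'⟩
    · intro p hp hp' g hge hgV
      refine hfit p hp (by omega) g ?_ hgV
      rw [ent_prefix hxy hp']
      exact hge
    · rw [plc_append, plc_singleton] at hle'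
      have hent : ∀ i, i ≤ s.u.length → ent y (plc x + i) = ent [s] i := by
        intro i hi
        rw [ent_prefix hg.1 (by rw [plc_append, plc_singleton]; omega), ent_append_right]
      refine ⟨path_iff.2 fun i hi => ?_, ?_, ?_, hst.2.2.2⟩
      · refine hfit _ (by omega) (by omega) _ ?_ (path_iff.1 hst.1 i hi)
        rw [hent i (by omega), ent_singleton_lt hi]
        exact Finset.mem_singleton_self _
      · refine hfit _ (by omega) (by omega) _ ?_ hst.2.1
        rw [hent _ le_rfl, ent_singleton_last]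
        exact Finset.mem_insert_self _ _
      · refine hfit _ (by omega) (by omega) _ ?_ hst.2.2.1
        rw [hent _ le_rfl, ent_singleton_last]
        exact Finset.mem_insert_of_mem (Finset.mem_singleton_self _)

theorem cone_good {q : Cond} (hq : Good q) {x : Node} (hx : x ∈ q.F) : Good (q.cone x) := by
  refine ⟨hq.isX, ⟨hx, List.prefix_refl _⟩, fun y hy => hy.2, fun y hy => hq.idx y hy.1, ?_, ?_⟩
  · rintro y ⟨hy, hxy⟩ s hst
    obtain ⟨z, hz, hg, hmin⟩ := hq.succ y hy s hst
    exact ⟨z, ⟨hz, hxy.trans ((prefix_append_single y s).trans hg.1)⟩, hg,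
      fun w hw hw' => hmin w hw.1 hw'⟩
  · rintro y ⟨hy, hxy⟩ hne
    have hyt : y ≠ q.t := by
      rintro rfl
      apply hne
      exact (List.IsPrefix.eq_of_length_le hxy (hq.above x hx).length_le).symm
    obtain ⟨z, hz, s, hst, hg, hmax⟩ := hq.pred y hy hyt
    rcases hmax x hx hxy with h | h
    · exact absurd h.symm hne
    · exact ⟨z, ⟨hz, h⟩, s, hst, hg, fun w hw hw' => hmax w hw.1 hw'⟩

theorem restr_leS {q : Cond} {V' : Fam} (hs : SubX (plc q.t) V' q.V) : LeS (q.restr V') q :=
  ⟨rfl, hs, fun _ hx => hx.1⟩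

/-- nodes of the restriction up to a place where nothing has been changed -/
theorem restr_leK {q : Cond} {V' : Fam} {κ : ℕ} (hs : SubX (plc q.t) V' q.V)
    (h : ∀ p, p < κ → V' p = q.V p) : LeK κ (q.restr V') q := by
  refine ⟨restr_leS hs, h, fun x hx hκ => ⟨hx, fun p _ hp' g _ hgV => ?_⟩⟩
  rw [h p (by omega)]
  exact hgV

end Helper99.TT
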