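import Pool.Agent.Helper99.TT.OpsA

/-! TT-B3b: the order. -/

set_option autoImplicit false

namespace Helper99.TT

theorem cone_leS_cone {q q' : Cond} (h : LeS q' q) {x : Node} (hq : Good q) (hx : x ∈ q.F) :
    LeS (q'.cone x) (q.cone x) :=
  ⟨rfl, fun i hi => h.2.1 i ((plc_mono (hq.above x hx)).trans hi),
    fun _ hy => ⟨h.2.2 hy.1, hy.2⟩⟩

theorem leS_refl (q : Cond) : LeS q q :=
  ⟨rfl, fun _ _ => Finset.Subset.refl _, subset_rfl⟩

theorem leS_trans {q q' q'' : Cond} (h : LeS q' q) (h' : LeS q'' q') : LeS q'' q :=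
  ⟨h'.1.trans h.1, fun i hi => (h'.2.1 i (by rw [h.1]; exact hi)).trans (h.2.1 i hi),
    h'.2.2.trans h.2.2⟩

theorem leK_trans {κ κ' : ℕ} {q q' q'' : Cond} (hκ : κ ≤ κ') (h : LeK κ q' q)
    (h' : LeK κ' q'' q') : LeK κ q'' q :=
  ⟨leS_trans h.1 h'.1, fun p hp => (h'.2.1 p (hp.trans_le hκ)).trans (h.2.1 p hp),
    fun x hx hp => h'.2.2 x (h.2.2 x hx hp) (hp.trans hκ)⟩

theorem leK_refl (κ : ℕ) (q : Cond) : LeK κ q q :=
  ⟨leS_refl q, fun _ _ => rfl, fun _ hx _ => hx⟩

theorem leS_of_le_nil {q q' : Cond} (h : Le [] q' q) (hq : Good q) : LeS q' q := by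
  obtain ⟨h1, h2, -, h4, h5⟩ := h
  have h6 : q.t = q'.t := by
    by_contra hne
    have := plc_lt (hq.above _ h1) hne
    simp only [List.length_nil] at h2
    omega
  exact ⟨h6.symm, fun i hi => h4 i (by rw [← h6]; exact hi), h5⟩

theorem le_nil_of_leS {q q' : Cond} (h : LeS q' q) (hq : Good q) : Le [] q' q := by
  obtain ⟨h1, h2, h3⟩ := h
  refine ⟨by rw [h1]; exact hq.stem, by rw [h1]; simp, fun i hi => ?_, fun i hi => ?_, h3⟩
  · simp at hi
  · exact h2 i (by rw [← h1]; exact hi)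

/-- transitivity of the order -/
theorem le_trans' {q q' q'' : Cond} {y y' : List H} (hq : Good q) (hq' : Good q') (h : Le y q' q)
    (h' : Le y' q'' q') : Le (y ++ y') q'' q := by
  obtain ⟨h1, h2, h3, h4, h5⟩ := h
  obtain ⟨h1', h2', h3', h4', h5'⟩ := h'
  have hpre := hq'.above _ h1'
  have hplc := plc_mono hpre
  refine ⟨h5 h1', by rw [List.length_append]; omega, fun i hi => ?_,
    fun i hi => (h4' i hi).trans (h4 i (hplc.trans hi)), h5'.trans h5⟩
  rw [List.length_append] at hi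
  rcases lt_or_ge i y.length with hi' | hi'
  · rw [List.getD_append _ _ _ _ hi', ent_prefix hpre (by omega)]
    exact h3 i hi'
  · rw [List.getD_append_right _ _ _ _ hi']
    have h6 := h3' (i - y.length) (by omega)
    have h7 : plc q'.t + (i - y.length) = plc q.t + i := by omega
    rw [h7] at h6
    exact ⟨h4 _ (by omega) h6.1, h6.2⟩

theorem leP_trans {a a' a'' : List H} {q q' q'' : Cond} (hq : Good q) (hq' : Good q')
    (h : LeP a' q' a q) (h' : LeP a'' q'' a' q') : LeP a'' q'' a q := by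
  obtain ⟨y, rfl, hy⟩ := h
  obtain ⟨y', rfl, hy'⟩ := h'
  exact ⟨y ++ y', List.append_assoc _ _ _, le_trans' hq hq' hy hy'⟩

theorem leP_piece {a a' : List H} {q q' : Cond} (hq : Good q) (ha : IsPiece q.t a)
    (h : LeP a' q' a q) : IsPiece q'.t a' := by
  obtain ⟨y, rfl, h1, h2, h3, h4, h5⟩ := h
  obtain ⟨ha1, ha2⟩ := ha
  have hpre := hq.above _ h1
  refine ⟨by rw [List.length_append]; omega, fun p hp => ?_⟩
  rcases lt_or_ge p (plc q.t) with hp' | hp'
  · rw [List.getD_append _ _ _ _ (by omega), ent_prefix hpre hp']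
    exact ha2 p hp'
  · rw [List.getD_append_right _ _ _ _ (by omega), ha1]
    have h6 := (h3 (p - plc q.t) (by omega)).2
    have h7 : plc q.t + (p - plc q.t) = p := by omega
    rw [h7] at h6
    exact h6

end Helper99.TT
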