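import Pool.Agent.Helper99.TT.OpsB

/-! TT-B3c: real pieces. -/

set_option autoImplicit false

namespace Helper99.TT

private theorem h55_getD_append (a y : List H) (i : ℕ) :
    (a ++ y).getD (a.length + i) 0 = y.getD i 0 := by
  rw [List.getD_eq_getElem?_getD, List.getD_eq_getElem?_getD,
    List.getElem?_append_right (Nat.le_add_right _ _), Nat.add_sub_cancel_left]

/-- the cone at a fat node, with a real piece, is an extension -/
theorem cone_leP {q : Cond} (hq : Good q) {a b : List H} {x : Node} (hx : x ∈ q.F)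
    (hb : IsReal q a x b) : LeP b (q.cone x) a q := by
  obtain ⟨ha, ⟨y, hy⟩, hbx, hbr⟩ := hb
  have hal : a.length = plc q.t := ha.1
  have hlen : plc q.t + y.length = plc x := by
    rw [← hal, ← List.length_append, hy]
    exact hbx.1
  refine ⟨y, hy.symm, hx, hlen, ?_, ?_, ?_⟩
  · intro i hi
    have h1 : y.getD i 0 = b.getD (plc q.t + i) 0 := by
      rw [← hy, ← hal, h55_getD_append]
    rw [h1]
    exact ⟨hbr _ (by omega) (by omega), hbx.2 _ (by omega)⟩
  · intro i _
    exact subset_rfl
  · intro z hz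
    exact hz.1

/-- conversely, the stem of an extension is a fat node with a real piece -/
theorem real_of_leP {q q' : Cond} (hq : Good q) {a a' : List H} (ha : IsPiece q.t a)
    (h : LeP a' q' a q) : IsReal q a q'.t a' := by
  have hp := leP_piece hq ha h
  obtain ⟨y, rfl, h1, h2, h3, h4, h5⟩ := h
  refine ⟨ha, List.prefix_append _ _, hp, ?_⟩
  intro p hp1 hp2
  obtain ⟨i, rfl⟩ := Nat.exists_eq_add_of_le hp1
  have hal : a.length = plc q.t := ha.1
  have h6 := (h3 i (by omega)).1
  rw [← h55_getD_append a y i, hal] at h6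
  exact h6

/-- a condition below a cone, pulled back -/
theorem leP_of_cone {q q' : Cond} (hq : Good q) {a b b' : List H} {x : Node} (hx : x ∈ q.F)
    (hb : IsReal q a x b) (h : LeP b' q' b (q.cone x)) : LeP b' q' a q :=
  leP_trans hq (cone_good hq hx) (cone_leP hq hx hb) h

/-- real pieces of a restriction (same-stem extension) are real pieces -/
theorem real_leS {q q' : Cond} (h : LeS q' q) (hq : Good q) (hq' : Good q') {a b : List H}
    {x : Node} (hx : x ∈ q'.F) (hb : IsReal q' a x b) : IsReal q a x b := by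
  obtain ⟨ht, hV, _⟩ := h
  obtain ⟨h1, h2, h3, h4⟩ := hb
  rw [ht] at h1 h4
  exact ⟨h1, h2, h3, fun p hp hp' => hV p hp (h4 p hp hp')⟩

/-- real pieces are transitive -/
theorem real_trans {q : Cond} (hq : Good q) {a b c : List H} {x z : Node} (hx : x ∈ q.F)
    (hz : z ∈ q.F) (hxz : x <+: z) (hb : IsReal q a x b) (hc : IsReal (q.cone x) b z c) :
    IsReal q a z c := by
  obtain ⟨h1, h2, h3, h4⟩ := hb
  obtain ⟨g1, g2, g3, g4⟩ := hc
  refine ⟨h1, h2.trans g2, g3, ?_⟩
  intro p hp hp'
  rcases Nat.lt_or_ge p (plc x) with hpx | hpx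
  · have hbl : b.length = plc x := h3.1
    rw [getD_prefix g2 (by omega)]
    exact h4 p hp hpx
  · exact g4 p hpx hp'

/-- real pieces can be decomposed -/
theorem real_take {q : Cond} (hq : Good q) {a c : List H} {x z : Node} (hx : x ∈ q.F)
    (hz : z ∈ q.F) (hxz : x <+: z) (hc : IsReal q a z c) :
    IsReal q a x (c.take (plc x)) ∧ IsReal (q.cone x) (c.take (plc x)) z c := by
  obtain ⟨h1, h2, h3, h4⟩ := hc
  have hal : a.length = plc q.t := h1.1
  have hcl : c.length = plc z := h3.1
  have hxz' := plc_mono hxz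
  have htx := plc_mono (hq.above x hx)
  have hlen : (c.take (plc x)).length = plc x := by
    rw [List.length_take]
    omega
  have hpre : c.take (plc x) <+: c := List.take_prefix _ _
  have hpiece : IsPiece x (c.take (plc x)) := by
    refine ⟨hlen, ?_⟩
    intro p hp
    rw [← getD_prefix hpre (by omega : p < (c.take (plc x)).length), ← ent_prefix hxz hp]
    exact h3.2 p (by omega)
  refine ⟨⟨h1, ?_, hpiece, ?_⟩, hpiece, hpre, h3, ?_⟩
  · apply prefix_of_getD
    · omega
    · intro p hp
      rw [← getD_prefix hpre (by omega : p < (c.take (plc x)).length)]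
      exact getD_prefix h2 hp
  · intro p hp hp'
    rw [← getD_prefix hpre (by omega : p < (c.take (plc x)).length)]
    exact h4 p hp (by omega)
  · intro p hp hp'
    have hp1 : plc x ≤ p := hp
    exact h4 p (by omega) hp'

/-- the real pieces of the stem -/
theorem real_stem {q : Cond} {a b : List H} (ha : IsPiece q.t a) :
    IsReal q a q.t b ↔ b = a := by
  constructor
  · rintro ⟨h1, h2, h3, _⟩
    exact (h2.eq_of_length (by rw [h1.1, h3.1])).symm
  · rintro rfl
    exact ⟨ha, List.prefix_refl _, ha, fun p hp hp' => absurd hp' (not_lt.2 hp)⟩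

/-- every fat node has a real piece -/
theorem real_exists {q : Cond} (hq : Good q) {a : List H} (ha : IsPiece q.t a) {x : Node}
    (hx : x ∈ q.F) : ∃ b, IsReal q a x b := by
  have key : ∀ p, ∃ z : H, plc q.t ≤ p → p < plc x → z ∈ q.V p ∧ z ∈ ent x p := by
    intro p
    by_cases hp : plc q.t ≤ p ∧ p < plc x
    · rcases hq.entry hx hp.1 hp.2 with ⟨z, hz, hz'⟩ | ⟨_, hsub⟩
      · exact ⟨z, fun _ _ => ⟨by rw [hz]; exact Finset.mem_singleton_self _, hz'⟩⟩
      · obtain ⟨z, hz⟩ := ent_nonempty hp.2
        exact ⟨z, fun _ _ => ⟨hsub hz, hz⟩⟩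
    · exact ⟨0, fun h1 h2 => absurd ⟨h1, h2⟩ hp⟩
  choose f hf using key
  have hal : a.length = plc q.t := ha.1
  have htx := plc_mono (hq.above x hx)
  set A : ℕ → H := fun p => if p < plc q.t then a.getD p 0 else f p with hA
  have hbl : (preA A (plc x)).length = plc x := preA_length A _
  refine ⟨preA A (plc x), ha, ?_, ⟨hbl, ?_⟩, ?_⟩
  · apply prefix_of_getD
    · omega
    · intro p hp
      rw [preA_getD A (by omega), hA]
      simp only
      rw [if_pos (by omega)]
  · intro p hp
    rw [preA_getD A hp, hA]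
    simp only
    split_ifs with h
    · rw [ent_prefix (hq.above x hx) h]
      exact ha.2 p h
    · exact (hf p (by omega) hp).2
  · intro p hp hp'
    rw [preA_getD A hp', hA]
    simp only
    rw [if_neg (by omega)]
    exact (hf p hp hp').1

end Helper99.TT
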