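import Pool.Agent.Helper99.TT.Graft

/-! TT-B5: replacing a leaf by an extension. -/

set_option autoImplicit false

namespace Helper99.TT

/-- there is a cut beyond every bound -/
theorem exists_cut {q : Cond} (hq : Good q) (κ : ℕ) : ∃ κ', κ ≤ κ' ∧ Cut q κ' ∧
    ∀ p, κ ≤ p → plc q.t ≤ p → p < κ' → (q.V p).card = 1 := by
  classical
  have hex : ∃ p, κ ≤ p ∧ plc q.t ≤ p ∧ 1 < (q.V p).card := by
    obtain ⟨i, hi, hL⟩ := hq.isX.2 2 (max κ (plc q.t))
    exact ⟨i, (le_max_left _ _).trans hi, (le_max_right _ _).trans hi,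
      lt_of_lt_of_le Nat.one_lt_two (Large_card hL)⟩
  refine ⟨Nat.find hex, (Nat.find_spec hex).1, ⟨(Nat.find_spec hex).2.1, (Nat.find_spec hex).2.2⟩,
    fun p h1 h2 h3 => ?_⟩
  have h4 := Nat.find_min hex h3
  have h5 : ¬ 1 < (q.V p).card := fun h => h4 ⟨h1, h2, h⟩
  have h6 : 0 < (q.V p).card := Finset.card_pos.2 (hq.isX.1 p)
  omega

/-- two different elements of a set with one element -/
theorem card_one_absurd {S : Finset H} (h : S.card = 1) {v w : H} (hv : v ∈ S) (hw : w ∈ S)
    (hne : v ≠ w) : False := by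
  have := Finset.one_lt_card.2 ⟨v, hv, w, hw, hne⟩
  omega

/-- a node for which an entry at a splitting place is real does not fit to a family which is a
singleton at this place -/
theorem fit_absurd {q : Cond} {V' : Fam} {x z : Node} {s : Step} (hs : SStep q.V x s)
    (hxz : (x ++ [s]) <+: z) (hk : plc q.t ≤ plc x) (hf : Fit q.V V' (plc q.t) z)
    (h1 : (V' (plc x + s.u.length)).card = 1) : False := by
  have hlt : plc x + s.u.length < plc (x ++ [s]) := by
    rw [plc_append, plc_singleton]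
    omega
  have hent : ent z (plc x + s.u.length) = {s.v, s.w} := by
    rw [ent_prefix hxz hlt, ent_append_right, ent_singleton_last]
  have hltz := hlt.trans_le (plc_mono hxz)
  refine card_one_absurd h1 (v := s.v) (w := s.w) ?_ ?_ (IsPair_ne hs.2.2.2)
  · refine hf _ (by omega) hltz s.v ?_ hs.2.1
    rw [hent]
    exact Finset.mem_insert_self _ _
  · refine hf _ (by omega) hltz s.w ?_ hs.2.2.1
    rw [hent]
    exact Finset.mem_insert_of_mem (Finset.mem_singleton_self _)

/-- push the cut beyond a bound, following a path -/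
theorem push_cut {C : Set Cond} (hC : Closed C) {q : Cond} (hq : q ∈ C) {κ : ℕ} (hc : Cut q κ)
    (bd : ℕ) : ∃ q' ∈ C, ∃ κ', bd ≤ κ' ∧ LeK κ q' q ∧ κ ≤ κ' ∧ Cut q' κ' ∧
      (∀ p, κ ≤ p → p < κ' → (q'.V p).card = 1) ∧ (∀ z ∈ q'.F, plc z ≤ κ' → plc z ≤ κ) := by
  classical
  have hg : Good q := hC.good q hq
  obtain ⟨κ', hκ', hc', -⟩ := exists_cut hg (max κ bd)
  have hne := hg.isX.1
  choose z hz using fun p => hne p
  set V' : Fam := fun p => if κ ≤ p ∧ p < κ' then {z p} else q.V p with hV'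
  have hV1 : ∀ p, κ ≤ p → p < κ' → V' p = {z p} := fun p h1 h2 => if_pos ⟨h1, h2⟩
  have hV2 : ∀ p, ¬ (κ ≤ p ∧ p < κ') → V' p = q.V p := fun p h => if_neg h
  have hsub : SubX (plc q.t) V' q.V := by
    intro p _
    by_cases h : κ ≤ p ∧ p < κ'
    · rw [hV1 p h.1 h.2, Finset.singleton_subset_iff]
      exact hz p
    · rw [hV2 p h]
  have hne' : ∀ p, (V' p).Nonempty := by
    intro p
    by_cases h : κ ≤ p ∧ p < κ'
    · rw [hV1 p h.1 h.2]
      exact Finset.singleton_nonempty _
    · rw [hV2 p h]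
      exact hne p
  have hfin : {p | V' p ≠ q.V p}.Finite := by
    refine (Set.finite_lt_nat κ').subset ?_
    intro p hp
    by_contra h
    exact hp (hV2 p fun h' => h h'.2)
  refine ⟨q.restr V', hC.restr q hq V' hne' hsub hfin, κ', (le_max_right _ _).trans hκ',
    restr_leK hsub fun p hp => hV2 p fun h => by omega, (le_max_left _ _).trans hκ',
    ⟨hc'.1, ?_⟩, ?_, ?_⟩
  · show 1 < (V' κ').card
    rw [hV2 κ' fun h => lt_irrefl _ h.2]
    exact hc'.2
  · intro p h1 h2
    show (V' p).card = 1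
    rw [hV1 p h1 h2, Finset.card_singleton]
  · intro y hy hyκ
    by_contra hlt
    push Not at hlt
    obtain ⟨hyF, hfit⟩ := hy
    obtain ⟨x, hx, s, hs, hsp, h1, h2⟩ := hg.beyond hc hyF hlt
    have h3 : plc x + s.u.length < plc y := by
      have := plc_mono hsp
      rw [plc_append, plc_singleton] at this
      omega
    refine fit_absurd hs hsp (plc_mono (hg.above x hx)) hfit ?_
    rw [hV1 _ h2 (by omega), Finset.card_singleton]

/-- The main tool: `q'` is an extension, along `y`, of the cone of `q` at the leaf `x`.  Then the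
leaf can be replaced by `q'.t`; the new cut is beyond the bound `bd`. -/
theorem reach_of_le {C : Set Cond} (hC : Closed C) {q q' : Cond} (hq : q ∈ C) (hq' : q' ∈ C)
    {κ : ℕ} (hc : Cut q κ) {x : Node} (hx : Leaf q κ x) {y : List H} (h : Le y q' (q.cone x))
    (bd : ℕ) : ∃ q'' ∈ C, ∃ κ'', bd ≤ κ'' ∧ Reach q κ x q'' κ'' q'.t ∧ LeS (q''.cone q'.t) q' ∧
      (∀ i, i < y.length → q''.V (plc x + i) = {y.getD i 0}) := by
  have hg : Good q := hC.good q hq
  have hg' : Good q' := hC.good q' hq'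
  obtain ⟨hxF, hxt, hxκ, hxl⟩ := hx
  have hg1C : q.graft x y q' ∈ C := hC.graft q hq x hxF hxt y q' hq' h
  have hg1 : Good (q.graft x y q') := hC.good _ hg1C
  have hS1 : LeS (q.graft x y q') q := graft_leS hg hg' hxF h
  have hS2 : LeS ((q.graft x y q').cone q'.t) q' := graft_cone_leS hg hg' hxF hxt h
  have hxt' : x <+: q'.t := h.1.2
  have hlen : plc x + y.length = plc q'.t := h.2.1
  have htx : plc q.t ≤ plc x := plc_mono (hg.above x hxF)
  -- the family of the graft
  have hA : ∀ p, p < plc x → (q.graft x y q').V p = q.V p := fun p hp => if_pos hp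
  have hB : ∀ p, plc x ≤ p → p < plc q'.t →
      (q.graft x y q').V p = {y.getD (p - plc x) 0} := by
    intro p h1 h2
    show graftV q x y q' p = _
    unfold graftV
    rw [if_neg (by omega), if_pos h2]
  have hD : ∀ p, plc q'.t ≤ p → (q.graft x y q').V p = q'.V p := by
    intro p h1
    show graftV q x y q' p = _
    unfold graftV
    rw [if_neg (by omega), if_neg (by omega)]
  have hE : ∀ p, p < κ → (q.graft x y q').V p = q.V p := by
    intro p hp
    rcases Nat.lt_or_ge p (plc x) with h1 | h1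
    · exact hA p h1
    · refine Finset.eq_of_subset_of_card_le (hS1.2.1 p (htx.trans h1)) ?_
      rw [hxl p h1 hp]
      exact Finset.card_pos.2 (hg1.isX.1 p)
  have hmem : q'.t ∈ (q.graft x y q').F := Or.inr hg'.stem
  have hF1 : ∀ z ∈ (q.graft x y q').F, (z ∈ q.F ∧ Fit q.V (q.graft x y q').V (plc q.t) z ∧
      ¬ x <+: z) ∨ z ∈ q'.F := fun z hz => hz
  have hF2 : ∀ z, z ∈ q.F → Fit q.V (q.graft x y q').V (plc q.t) z → ¬ x <+: z →
      z ∈ (q.graft x y q').F := fun z h1 h2 h3 => Or.inl ⟨h1, h2, h3⟩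
  have ht1 : (q.graft x y q').t = q.t := rfl
  generalize hq1 : q.graft x y q' = q1 at *
  obtain ⟨κ1, hκ1, hc1, hsing⟩ := exists_cut hg1 (max κ (plc q'.t))
  have hκκ1 : κ ≤ κ1 := (le_max_left _ _).trans hκ1
  have htκ1 : plc q'.t ≤ κ1 := (le_max_right _ _).trans hκ1
  -- singletons between `κ` and `κ1`
  have hs1 : ∀ p, κ ≤ p → p < κ1 → (q1.V p).card = 1 := by
    intro p h1 h2
    rcases Nat.lt_or_ge p (plc q'.t) with h3 | h3
    · rw [hB p (hxκ.trans h1) h3, Finset.card_singleton]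
    · exact hsing p (max_le h1 h3) (by rw [ht1]; omega) h2
  -- the nodes of the graft up to `κ1`
  have hn1 : ∀ z, (z ∈ q1.F ∧ plc z ≤ κ1) ↔ (z = q'.t ∨ (z ∈ q.F ∧ plc z ≤ κ ∧ z ≠ x)) := by
    intro z
    constructor
    · rintro ⟨hz, hzκ⟩
      rcases hF1 z hz with ⟨hzF, hfit, hnx⟩ | hz'
      · right
        refine ⟨hzF, ?_, fun he => hnx (he ▸ List.prefix_refl _)⟩
        by_contra hlt
        push Not at hlt
        obtain ⟨x1, hx1, s, hs, hsp, h1, h2⟩ := hg.beyond hc hzF hlt
        have h3 : plc x1 + s.u.length < plc z := by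
          have := plc_mono hsp
          rw [plc_append, plc_singleton] at this
          omega
        exact fit_absurd hs hsp (plc_mono (hg.above x1 hx1)) hfit (hs1 _ h2 (by omega))
      · left
        by_contra hne
        obtain ⟨s, hs, hsp⟩ := hg'.chain hg'.stem hz' (hg'.above z hz') (Ne.symm hne)
        have h2 := sstep_card hs
        have h3 : plc q'.t + s.u.length < plc z := by
          have := plc_mono hsp
          rw [plc_append, plc_singleton] at this
          omega
        rcases Nat.lt_or_ge (plc q'.t + s.u.length) κ with h4 | h4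
        · have h5 := hxl (plc q'.t + s.u.length) (by omega) h4
          rw [← hE _ h4, hD _ (by omega)] at h5
          omega
        · have h5 := hs1 _ h4 (by omega)
          rw [hD _ (by omega)] at h5
          omega
    · rintro (rfl | ⟨hzF, hzκ, hzx⟩)
      · exact ⟨hmem, htκ1⟩
      · refine ⟨hF2 z hzF ?_ ?_, hzκ.trans hκκ1⟩
        · intro p _ hp e _ he
          rw [hE p (by omega)]
          exact he
        · intro hxz
          obtain ⟨s, hs, hsp⟩ := hg.chain hxF hzF hxz (Ne.symm hzx)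
          have h2 := sstep_card hs
          have h3 : plc x + s.u.length < plc z := by
            have := plc_mono hsp
            rw [plc_append, plc_singleton] at this
            omega
          have h4 := hxl (plc x + s.u.length) (by omega) (by omega)
          omega
  obtain ⟨q'', hq'', κ'', hbd, hK, hκ1'', hc'', hs'', hn''⟩ := push_cut hC hg1C hc1 bd
  refine ⟨q'', hq'', κ'', hbd, ⟨leS_trans hS1 hK.1, hκκ1.trans hκ1'', hc'', ?_, ?_, hxt', ?_⟩, ?_, ?_⟩
  · intro p hp
    rw [hK.2.1 p (by omega), hE p hp]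
  · intro p h1 h2
    rcases Nat.lt_or_ge p κ1 with h3 | h3
    · rw [hK.2.1 p h3]
      exact hs1 p h1 h3
    · exact hs'' p h3 h2
  · intro z
    rw [← hn1 z]
    constructor
    · rintro ⟨h1, h2⟩
      exact ⟨hK.1.2.2 h1, hn'' z h1 h2⟩
    · rintro ⟨h1, h2⟩
      exact ⟨hK.2.2 z h1 h2, h2.trans hκ1''⟩
  · exact leS_trans hS2 (cone_leS_cone hK.1 hg1 hmem)
  · intro i hi
    rw [hK.2.1 _ (by omega), hB _ (by omega) (by omega), Nat.add_sub_cancel_left]

theorem Reach.leK {q q' : Cond} {κ κ' κ0 : ℕ} {x x' : Node} (hq : Good q) (hq' : Good q')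
    (h : Reach q κ x q' κ' x') (h0 : κ0 ≤ κ) (hx : κ0 < plc x) : LeK κ0 q' q := by
  obtain ⟨hS, hκ, hc, hV, -, -, hn⟩ := h
  refine ⟨hS, fun p hp => hV p (hp.trans_le h0), fun z hz hzκ => ?_⟩
  refine ((hn z).2 (Or.inr ⟨hz, hzκ.trans h0, ?_⟩)).1
  rintro rfl
  omega

/-- leaves remain leaves -/
theorem Reach.leaf {q q' : Cond} {κ κ' : ℕ} {x x' z : Node} (hq : Good q) (hq' : Good q')
    (h : Reach q κ x q' κ' x') (hx : Leaf q κ x) (hz : Leaf q κ z) (hne : z ≠ x) :
    Leaf q' κ' z := by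
  obtain ⟨hS, hκ, hc, hV, hs, -, hn⟩ := h
  obtain ⟨h1, h2, h3, h4⟩ := hz
  have h5 := (hn z).2 (Or.inr ⟨h1, h3, hne⟩)
  refine ⟨h5.1, by rw [hS.1]; exact h2, h5.2, fun p hp hp' => ?_⟩
  rcases Nat.lt_or_ge p κ with h6 | h6
  · rw [hV p h6]
    exact h4 p hp h6
  · exact hs p h6 hp'

theorem Reach.leaf_new {q q' : Cond} {κ κ' : ℕ} {x x' : Node} (hq : Good q) (hq' : Good q')
    (h : Reach q κ x q' κ' x') (hx : Leaf q κ x) : Leaf q' κ' x' := by
  obtain ⟨hS, hκ, hc, hV, hs, hxx, hn⟩ := h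
  obtain ⟨h1, h2, h3, h4⟩ := hx
  have h5 := (hn x').2 (Or.inl rfl)
  refine ⟨h5.1, ?_, h5.2, fun p hp hp' => ?_⟩
  · intro he
    apply h2
    rw [hS.1] at he
    rw [he] at hxx
    exact List.IsPrefix.eq_of_length_le hxx (hq.above x h1).length_le
  · rcases Nat.lt_or_ge p κ with h6 | h6
    · rw [hV p h6]
      exact h4 p ((plc_mono hxx).trans hp) h6
    · exact hs p h6 hp'

end Helper99.TT
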