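import Pool.Agent.Helper99.TT.Fuse
import Pool.Agent.Helper99.TT.LemmaS

/-! TT-C1, C2, C3: section 4 (identification and separation), statements. -/

set_option autoImplicit false

namespace Helper99.TT

/-- branches of the cone at a longer fat node are branches of the cone at a shorter one -/
theorem Br.cone_cone {q : Cond} (hq : Good q) {a : List H} {A : ℕ → H} {B : ℕ → Step}
    (hb : Br q a A B) {x z : Node} (hx : x ∈ q.F) (hz : z ∈ q.F) (hBz : Thru B z) (hxz : x <+: z)
    {A' : ℕ → H} {B' : ℕ → Step} (hb' : Br (q.cone z) (preA A (plc z)) A' B') :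
    Br (q.cone x) (preA A (plc x)) A' B' := by
  have hreal : IsReal q a z (preA A (plc z)) := (hb.cone hq hz hBz).2
  have hbr : Br q a A' B' := Br.of_cone hq hz hreal hb'
  have hth : Thru B' z := hb'.thru_stem
  have hthx : Thru B' x := Thru_mono hxz hth
  have h1 := (hbr.cone hq hx hthx).1
  have hpre : preA A' (plc z) = preA A (plc z) := hb'.1
  have hpre' : preA A' (plc x) = preA A (plc x) := by
    rw [preA_eq_iff] at hpre ⊢
    intro i hi
    exact hpre i (lt_of_lt_of_le hi (plc_mono hxz))
  rw [hpre'] at h1
  exact h1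

/-- (4.1) -/
theorem separate {f : Fn} {q : Cond} (hq : Good q) {a a' : List H} (ha : IsPiece q.t a)
    (ha' : IsPiece q.t a') (hf : Cont f q a) (hf' : Cont f q a') (h : ¬ Idn f q a a') :
    ∃ y q', Good q' ∧ Le y q' q ∧ Sepd f q' (a ++ y) (a' ++ y) := by
  unfold Idn at h
  push Not at h
  obtain ⟨A, B, hb, hne⟩ := h
  obtain ⟨i, hi⟩ : ∃ i, f (rep a' A) B i ≠ f A B i := by
    by_contra hcon
    push Not at hcon
    exact hne (funext hcon)
  have hbr' : Br q a' (rep a' A) B := Br.rep hq ha' hb
  obtain ⟨x, hx, hBx, -, -, hxc⟩ := hf.exists_node hq hb (i + 1) 0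
  obtain ⟨z, hz, hBz, hzl, hzp, hzc⟩ := hf'.exists_node hq hbr' (i + 1) (x.length)
  have hxz : x <+: z := by
    have h1 : x <+: preB B z.length := Thru_prefix_preB hBx hzl
    rwa [show preB B z.length = z from hBz] at h1
  -- the path y
  have hqz : plc q.t ≤ plc z := plc_mono (hq.above z hz)
  have hrz := (hb.cone hq hz hBz).2
  obtain ⟨y, hy, hle⟩ := cone_leP hq hz hrz
  have hy' : preA (rep a' A) (plc z) = a' ++ y := by
    have hal : a.length = plc q.t := ha.1
    have hal' : a'.length = plc q.t := ha'.1
    have hyl : a.length + y.length = plc z := by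
      have := congrArg List.length hy
      rw [preA_length, List.length_append] at this
      omega
    apply list_ext_getD
    · rw [preA_length, List.length_append]; omega
    · intro p hp
      rw [preA_length] at hp
      rw [preA_getD _ hp]
      by_cases hpl : p < a'.length
      · rw [rep_lt hpl]
        exact (getD_prefix (List.prefix_append a' y) hpl).symm
      · push Not at hpl
        rw [rep_ge hpl, List.getD_append_right _ _ _ _ hpl]
        have h2 := preA_getD A hp
        rw [hy, List.getD_append_right _ _ _ _ (by omega)] at h2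
        rw [← h2, hal, hal']
  refine ⟨y, q.cone z, cone_good hq hz, hle, i, f A B i, ?_, ?_⟩
  · intro A' B' hb'
    rw [← hy] at hb'
    exact hxc A' B' (Br.cone_cone hq hb hx hz hBz hxz hb') i (Nat.lt_succ_self i)
  · intro A' B' hb'
    rw [← hy'] at hb'
    have h3 := hzc A' B' hb' i (Nat.lt_succ_self i)
    rw [h3]
    revert hi
    cases f (rep a' A) B i <;> cases f A B i <;> simp

end Helper99.TT
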