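import Pool.Agent.Helper99.TT.Sec4

/-! TT-C2: (4.2). -/

set_option autoImplicit false

namespace Helper99.TT

/-- two real pieces of a first-level node differ at most at the place of the pair -/
private theorem h45_first {q : Cond} {s : Step} {y : Node} (hg : GapExt q.V (q.t ++ [s]) y)
    {a b b' : List H} (hb : IsReal q a y b) (hb' : IsReal q a y b') :
    ∀ p, p ≠ plc q.t + s.u.length → p < plc y → b.getD p 0 = b'.getD p 0 := by
  obtain ⟨ha, hab, hby, hbV⟩ := hb
  obtain ⟨-, hab', hby', hbV'⟩ := hb'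
  intro p hpm hpy
  rcases lt_or_ge p (plc q.t) with h | h
  · rw [getD_prefix hab (by rw [ha.1]; exact h), getD_prefix hab' (by rw [ha.1]; exact h)]
  · rcases lt_or_ge p (plc q.t + s.u.length) with h1 | h1
    · obtain ⟨i, rfl⟩ := Nat.exists_eq_add_of_le h
      have hi : i < s.u.length := by omega
      have hlt : plc q.t + i < plc (q.t ++ [s]) := by
        rw [plc_append, plc_singleton]; omega
      have hent : ent y (plc q.t + i) = {s.u.getD i 0} := by
        rw [ent_prefix hg.1 hlt, ent_append_right, ent_singleton_lt hi]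
      have e1 := hby.2 _ hpy
      have e2 := hby'.2 _ hpy
      rw [hent, Finset.mem_singleton] at e1 e2
      rw [e1, e2]
    · have h2 : plc (q.t ++ [s]) ≤ p := by
        rw [plc_append, plc_singleton]; omega
      obtain ⟨z, hz, -⟩ := hg.2 p h2 hpy
      have e1 := hbV p h hpy
      have e2 := hbV' p h hpy
      rw [hz, Finset.mem_singleton] at e1 e2
      rw [e1, e2]

private theorem h45_pair {q : Cond} {s : Step} {y : Node} (hg : GapExt q.V (q.t ++ [s]) y)
    {a b : List H} (hb : IsReal q a y b) :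
    b.getD (plc q.t + s.u.length) 0 = s.v ∨ b.getD (plc q.t + s.u.length) 0 = s.w := by
  have hlt : plc q.t + s.u.length < plc (q.t ++ [s]) := by
    rw [plc_append, plc_singleton]; omega
  have hent : ent y (plc q.t + s.u.length) = {s.v, s.w} := by
    rw [ent_prefix hg.1 hlt, ent_append_right, ent_singleton_last]
  have e1 := hb.2.2.1.2 _ (lt_of_lt_of_le hlt (plc_mono hg.1))
  rw [hent] at e1
  simpa using e1

/-- equality of real pieces of a first-level node is decided at the place of the pair -/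
private theorem h45_ext {q : Cond} {s : Step} {y : Node} (hg : GapExt q.V (q.t ++ [s]) y)
    {a b b' : List H} (hb : IsReal q a y b) (hb' : IsReal q a y b')
    (h : b.getD (plc q.t + s.u.length) 0 = b'.getD (plc q.t + s.u.length) 0) : b = b' := by
  refine list_ext_getD (by rw [hb.2.2.1.1, hb'.2.2.1.1]) ?_
  intro p hp
  rw [hb.2.2.1.1] at hp
  by_cases hpm : p = plc q.t + s.u.length
  · rw [hpm]; exact h
  · exact h45_first hg hb hb' p hpm hp

/-- at a first-level node there are at most two real pieces over a piece of the stem -/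
private theorem h45_two {q : Cond} {s : Step} {y : Node} (hg : GapExt q.V (q.t ++ [s]) y)
    {a b b' c c' : List H} (hb : IsReal q a y b) (hb' : IsReal q a y b')
    (hc : IsReal q a y c) (hc' : IsReal q a y c') (hne : b ≠ b') (hne' : c ≠ c') :
    (b = c ∧ b' = c') ∨ (b = c' ∧ b' = c) := by
  have e := h45_pair hg hb
  have e' := h45_pair hg hb'
  have f := h45_pair hg hc
  have f' := h45_pair hg hc'
  have hb1 : b.getD (plc q.t + s.u.length) 0 ≠ b'.getD (plc q.t + s.u.length) 0 :=
    fun h => hne (h45_ext hg hb hb' h)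
  have hc1 : c.getD (plc q.t + s.u.length) 0 ≠ c'.getD (plc q.t + s.u.length) 0 :=
    fun h => hne' (h45_ext hg hc hc' h)
  rcases e with e | e <;> rcases e' with e' | e' <;> rcases f with f | f <;>
    rcases f' with f' | f'
  · exact absurd (e.trans e'.symm) hb1
  · exact absurd (e.trans e'.symm) hb1
  · exact absurd (e.trans e'.symm) hb1
  · exact absurd (e.trans e'.symm) hb1
  · exact absurd (f.trans f'.symm) hc1
  · exact Or.inl ⟨h45_ext hg hb hc (e.trans f.symm), h45_ext hg hb' hc' (e'.trans f'.symm)⟩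
  · exact Or.inr ⟨h45_ext hg hb hc' (e.trans f'.symm), h45_ext hg hb' hc (e'.trans f.symm)⟩
  · exact absurd (f.trans f'.symm) hc1
  · exact absurd (f.trans f'.symm) hc1
  · exact Or.inr ⟨h45_ext hg hb hc' (e.trans f'.symm), h45_ext hg hb' hc (e'.trans f.symm)⟩
  · exact Or.inl ⟨h45_ext hg hb hc (e.trans f.symm), h45_ext hg hb' hc' (e'.trans f'.symm)⟩
  · exact absurd (f.trans f'.symm) hc1
  · exact absurd (e.trans e'.symm) hb1
  · exact absurd (e.trans e'.symm) hb1
  · exact absurd (e.trans e'.symm) hb1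
  · exact absurd (e.trans e'.symm) hb1

/-- real pieces of the new node after a graft -/
private theorem h45_take {q'' : Cond} {x z : Node} {a c y : List H} (hcr : IsReal q'' a z c)
    (hlen : plc x + y.length = plc z) (ht : plc q''.t ≤ plc x)
    (hV : ∀ i, i < y.length → q''.V (plc x + i) = {y.getD i 0}) : c = c.take (plc x) ++ y := by
  have hl : c.length = plc x + y.length := by
    rw [hcr.2.2.1.1]
    exact hlen.symm
  have htl : (c.take (plc x)).length = plc x := by
    rw [List.length_take, hl]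
    omega
  refine list_ext_getD (by rw [List.length_append, htl, hl]) ?_
  intro p hp
  by_cases hpx : p < plc x
  · have h1 := getD_prefix (List.take_prefix (plc x) c) (p := p) (by rw [htl]; exact hpx)
    have h2 := getD_prefix (List.prefix_append (c.take (plc x)) y) (p := p)
      (by rw [htl]; exact hpx)
    rw [h1, h2]
  · have hpx' : plc x ≤ p := Nat.le_of_not_lt hpx
    obtain ⟨i, rfl⟩ := Nat.exists_eq_add_of_le hpx'
    have hi : i < y.length := by
      rw [hl] at hp
      omega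
    have h1 : c.getD (plc x + i) 0 ∈ q''.V (plc x + i) := by
      refine hcr.2.2.2 (plc x + i) (le_trans ht (Nat.le_add_right _ _)) ?_
      rw [← hcr.2.2.1.1]
      exact hp
    rw [hV i hi, Finset.mem_singleton] at h1
    rw [h1, List.getD_append_right _ _ _ _ (by rw [htl]; omega), htl]
    congr 1
    omega

private theorem h45_idn_leS {f : Fn} {q q' : Cond} (hq : Good q) (hq' : Good q')
    {a b : List H} (ha : IsPiece q.t a) (hb : IsPiece q.t b) (hle : LeS q' q)
    (h : Idn f q a b) : Idn f q' a b := by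
  have := Idn.le hq hq' ha hb (le_nil_of_leS hle hq) h
  rwa [List.append_nil, List.append_nil] at this

private theorem h45_sepd_leS {f : Fn} {q q' : Cond} (hq : Good q) (hq' : Good q')
    {a b : List H} (ha : IsPiece q.t a) (hb : IsPiece q.t b) (hle : LeS q' q)
    (h : Sepd f q a b) : Sepd f q' a b := by
  have := Sepd.le hq hq' ha hb (le_nil_of_leS hle hq) h
  rwa [List.append_nil, List.append_nil] at this

/-- the fusion of (4.2) -/
private theorem h45_fusion {f : Fn} {q : Cond} (hq : Good q) (P : Set (List H))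
    (hP : ∀ a ∈ P, IsPiece q.t a) (hf : ∀ a ∈ P, Cont f q a) :
    ∃ q', Good q' ∧ LeS q' q ∧ ∀ x ∈ q'.F, x ≠ q'.t → ∀ a ∈ P, ∀ b b', IsReal q' a x b →
      IsReal q' a x b' → Idn f (q'.cone x) b b' ∨ Sepd f (q'.cone x) b b' := by
  obtain ⟨q', hq', hle, -, h⟩ := fuse q hq
    (fun q' x => ∀ a ∈ P, ∀ b b', IsReal q' a x b →
      IsReal q' a x b' → Idn f (q'.cone x) b b' ∨ Sepd f (q'.cone x) b b')
    (by
      intro q1 q2 x hq1 hq2 _ hle hx hΨ a ha b b' hb hb'
      have hx1 : x ∈ q1.F := hle.2.2 hx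
      have h1 := real_leS hle hq1 hq2 hx hb
      have h2 := real_leS hle hq1 hq2 hx hb'
      have hcc := cone_leS_cone hle hq1 hx1
      rcases hΨ a ha b b' h1 h2 with h | h
      · exact Or.inl (h45_idn_leS (cone_good hq1 hx1) (cone_good hq2 hx) h1.2.2.1 h2.2.2.1 hcc h)
      · exact Or.inr (h45_sepd_leS (cone_good hq1 hx1) (cone_good hq2 hx) h1.2.2.1 h2.2.2.1
          hcc h))
    (by
      intro q1 x hq1 hle1 hx hxt _
      have hgc : Good (q1.cone x) := cone_good hq1 hx
      -- the pairs of real pieces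
      let I : Set (List H × List H) := {bb | ∃ a ∈ P, IsReal q1 a x bb.1 ∧ IsReal q1 a x bb.2}
      have hI : I.Finite := by
        refine ((finite_pieces x).prod (finite_pieces x)).subset ?_
        rintro ⟨b, b'⟩ ⟨a, -, h1, h2⟩
        exact ⟨h1.2.2.1, h2.2.2.1⟩
      have hIf : Finite I := hI.to_subtype
      have hcont : ∀ a ∈ P, ∀ b, IsReal q1 a x b → Cont f (q1.cone x) b := by
        intro a ha b hb
        exact Cont.leP hq1 hb.1 (cone_leP hq1 hx hb) (Cont.leS hq hle1 (hf a ha))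
      obtain ⟨q2, y, hq2, hle2, hall⟩ := nelong' (ι := I)
        (fun i q' y => Idn f q' (i.1.1 ++ y) (i.1.2 ++ y) ∨ Sepd f q' (i.1.1 ++ y) (i.1.2 ++ y))
        (q1.cone x) hgc
        (by
          rintro ⟨⟨b, b'⟩, a, ha, hb, hb'⟩ q2 q3 y1 y2 hq2 hq3 hle2 hle3 h
          have p1 : IsPiece q2.t (b ++ y1) := leP_piece hgc hb.2.2.1 ⟨y1, rfl, hle2⟩
          have p2 : IsPiece q2.t (b' ++ y1) := leP_piece hgc hb'.2.2.1 ⟨y1, rfl, hle2⟩
          show Idn f q3 (b ++ (y1 ++ y2)) (b' ++ (y1 ++ y2)) ∨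
            Sepd f q3 (b ++ (y1 ++ y2)) (b' ++ (y1 ++ y2))
          rw [← List.append_assoc, ← List.append_assoc]
          rcases h with h | h
          · exact Or.inl (Idn.le hq2 hq3 p1 p2 hle3 h)
          · exact Or.inr (Sepd.le hq2 hq3 p1 p2 hle3 h))
        (by
          rintro ⟨⟨b, b'⟩, a, ha, hb, hb'⟩ q2 y1 hq2 hle2
          have p1 : IsPiece q2.t (b ++ y1) := leP_piece hgc hb.2.2.1 ⟨y1, rfl, hle2⟩
          have p2 : IsPiece q2.t (b' ++ y1) := leP_piece hgc hb'.2.2.1 ⟨y1, rfl, hle2⟩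
          have c1 : Cont f q2 (b ++ y1) := Cont.leP hgc hb.2.2.1 ⟨y1, rfl, hle2⟩
            (hcont a ha b hb)
          have c2 : Cont f q2 (b' ++ y1) := Cont.leP hgc hb'.2.2.1 ⟨y1, rfl, hle2⟩
            (hcont a ha b' hb')
          by_cases hid : Idn f q2 (b ++ y1) (b' ++ y1)
          · refine ⟨q2, [], hq2, le_nil_of_leS (leS_refl q2) hq2, Or.inl ?_⟩
            show Idn f q2 (b ++ (y1 ++ [])) (b' ++ (y1 ++ []))
            rw [List.append_nil]
            exact hid
          · obtain ⟨y2, q3, hq3, hle3, hs⟩ := separate hq2 p1 p2 c1 c2 hid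
            refine ⟨q3, y2, hq3, hle3, Or.inr ?_⟩
            show Sepd f q3 (b ++ (y1 ++ y2)) (b' ++ (y1 ++ y2))
            rw [← List.append_assoc, ← List.append_assoc]
            exact hs)
      refine ⟨y, q2, hq2, hle2, ?_⟩
      intro q3 hq3 hle3 ht3 hcone hV _ a ha b b' hb hb'
      have hx2 : q2.t ∈ q1.F ∧ x <+: q2.t := hle2.1
      have hlen : plc x + y.length = plc q2.t := hle2.2.1
      have htx : plc q3.t ≤ plc x := by
        rw [hle3.1]
        exact plc_mono (hq1.above x hx)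
      have e1 := h45_take hb hlen htx hV
      have e2 := h45_take hb' hlen htx hV
      have r1 := real_take hq1 hx hx2.1 hx2.2 (real_leS hle3 hq1 hq3 ht3 hb)
      have r2 := real_take hq1 hx hx2.1 hx2.2 (real_leS hle3 hq1 hq3 ht3 hb')
      have hmem : (b.take (plc x), b'.take (plc x)) ∈ I := ⟨a, ha, r1.1, r2.1⟩
      have hh := hall ⟨(b.take (plc x), b'.take (plc x)), hmem⟩
      simp only at hh
      rw [← e1, ← e2] at hh
      have g3 : Good (q3.cone q2.t) := cone_good hq3 ht3
      rcases hh with hh | hh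
      · exact Or.inl (h45_idn_leS hq2 g3 hb.2.2.1 hb'.2.2.1 hcone hh)
      · exact Or.inr (h45_sepd_leS hq2 g3 hb.2.2.1 hb'.2.2.1 hcone hh))
  exact ⟨q', hq', hle, h⟩

/-- (4.2) -/
theorem id_or_sep {f : Fn} {q : Cond} (hq : Good q) (P : Set (List H))
    (hP : ∀ a ∈ P, IsPiece q.t a) (hf : ∀ a ∈ P, Cont f q a) :
    ∃ q', Good q' ∧ LeS q' q ∧ ∀ a ∈ P, IDn f q' a ∨ SEPn f q' a := by
  classical
  obtain ⟨q1, hq1, hle1, hΨ⟩ := h45_fusion hq P hP hf
  have hPf : Finite P := ((finite_pieces q.t).subset hP).to_subtype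
  -- colouring
  let c : List H → H → H → Set P := fun u v w =>
    {a | ∀ y ∈ q1.F, GapExt q1.V (q1.t ++ [⟨u, v, w⟩]) y →
      ∀ b b', IsReal q1 a.1 y b → IsReal q1 a.1 y b' → Idn f (q1.cone y) b b'}
  obtain ⟨V', hX', hV'1, -, k, hk⟩ := lemmaS_from (plc q1.t) q1.V hq1.isX q1.t.length c
  have hsub : SubX (plc q1.t) V' q1.V := fun p _ => hV'1 p
  have hq2 : Good (q1.restr V') := restr_good hq1 hX' hsub
  have hle2 : LeS (q1.restr V') q1 := restr_leS hsub
  refine ⟨q1.restr V', hq2, leS_trans hle1 hle2, ?_⟩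
  -- the successors in the restriction are the old ones
  have hsucc : ∀ s, SStep V' q1.t s → ∀ y ∈ (q1.restr V').F, GapExt V' (q1.t ++ [s]) y →
      SStep q1.V q1.t s ∧ GapExt q1.V (q1.t ++ [s]) y := by
    intro s hs y hy hg
    have hs1 : SStep q1.V q1.t s := by
      obtain ⟨h1, h2, h3, h4⟩ := hs
      refine ⟨?_, hV'1 _ h2, hV'1 _ h3, h4⟩
      rw [path_iff] at h1 ⊢
      exact fun i hi => hV'1 _ (h1 i hi)
    obtain ⟨y0, hy0, hg0, hmin⟩ := hq1.succ q1.t hq1.stem s hs1
    have hy0y : y0 <+: y := hmin y hy.1 hg.1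
    have hy0' : y0 ∈ (q1.restr V').F := by
      refine ⟨hy0, ?_⟩
      intro p hp hp' h hh hhV
      refine hy.2 p hp (lt_of_lt_of_le hp' (plc_mono hy0y)) h ?_ hhV
      rw [ent_prefix hy0y hp']
      exact hh
    have hyy0 : y <+: y0 := Good.succ_min hq2 (x := q1.t) hq2.stem hs hy hg hy0' hg0.1
    have : y = y0 := hyy0.eq_of_length (le_antisymm hyy0.length_le hy0y.length_le)
    rw [this]
    exact ⟨hs1, hg0⟩
  have hcol : ∀ s, SStep V' q1.t s → c s.u s.v s.w = k := by
    intro s hs
    exact hk s.u s.v s.w hs.1 hs.2.1 hs.2.2.1 hs.2.2.2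
  intro a ha
  by_cases hak : (⟨a, ha⟩ : P) ∈ k
  · left
    intro s hs y hy hg b b' hb hb'
    obtain ⟨hs1, hg1⟩ := hsucc s hs y hy hg
    have hmem : (⟨a, ha⟩ : P) ∈ c s.u s.v s.w := by
      rw [hcol s hs]; exact hak
    have r1 := real_leS hle2 hq1 hq2 hy hb
    have r2 := real_leS hle2 hq1 hq2 hy hb'
    have hi : Idn f (q1.cone y) b b' := hmem y hy.1 hg1 b b' r1 r2
    exact h45_idn_leS (cone_good hq1 hy.1) (cone_good hq2 hy) r1.2.2.1 r2.2.2.1
      (cone_leS_cone hle2 hq1 hy.1) hi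
  · right
    intro s hs y hy hg b b' hb hb' hne
    obtain ⟨hs1, hg1⟩ := hsucc s hs y hy hg
    have hmem : (⟨a, ha⟩ : P) ∉ c s.u s.v s.w := by
      rw [hcol s hs]; exact hak
    have r1 := real_leS hle2 hq1 hq2 hy hb
    have r2 := real_leS hle2 hq1 hq2 hy hb'
    have hyt : y ≠ q1.t := by
      intro h
      have h1 := hg1.1.length_le
      rw [h, List.length_append, List.length_singleton] at h1
      omega
    have hnot : ¬ ∀ y ∈ q1.F, GapExt q1.V (q1.t ++ [s]) y →
      ∀ b b', IsReal q1 a y b → IsReal q1 a y b' → Idn f (q1.cone y) b b' := hmem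
    push Not at hnot
    obtain ⟨y1, hy1, hgy1, b1, b1', hb1, hb1', hni⟩ := hnot
    have hyy : y1 = y := Good.succ_unique hq1 hq1.stem hs1 hy1 hy.1 hgy1 hg1
    subst hyy
    have hne1 : b1 ≠ b1' := by
      rintro rfl
      exact hni Idn.refl
    have hS : Sepd f (q1.cone y1) b b' := by
      rcases hΨ y1 hy1 hyt a ha b b' r1 r2 with h | h
      · exfalso
        rcases h45_two hg1 r1 r2 hb1 hb1' hne hne1 with ⟨rfl, rfl⟩ | ⟨rfl, rfl⟩
        · exact hni h
        · exact hni (Idn.symm (cone_good hq1 hy1) r1.2.2.1 r2.2.2.1 h)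
      · exact h
    exact h45_sepd_leS (cone_good hq1 hy.1) (cone_good hq2 hy) r1.2.2.1 r2.2.2.1
      (cone_leS_cone hle2 hq1 hy.1) hS

end Helper99.TT
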