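import Pool.Agent.Helper99.TT.Sec4

/-! TT-C3: (4.3). -/

set_option autoImplicit false

namespace Helper99.TT

private theorem cone_cone4 {q : Cond} {x y : Node} (h : x <+: y) :
    (q.cone x).cone y = q.cone y := by
  unfold Cond.cone
  congr 1
  ext z
  constructor
  · rintro ⟨⟨h1, _⟩, h2⟩
    exact ⟨h1, h2⟩
  · rintro ⟨h1, h2⟩
    exact ⟨⟨h1, h.trans h2⟩, h2⟩

/-- the property of nodes used in (4.3) -/
private def Psi4 (f : Fn) (a : List H) (q : Cond) (x : Node) : Prop :=
  (∀ b b', IsReal q a x b → IsReal q a x b' → Idn f (q.cone x) b b') ∧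
    ∀ b, IsReal q a x b → IDn f (q.cone x) b

private theorem idn_real4 {f : Fn} {q : Cond} (hq : Good q) {a : List H} (ha : IsPiece q.t a)
    (hI : IDn f q a) {x : Node} (hx : x ∈ q.F)
    (hP : ∀ z ∈ q.F, z <+: x → z ≠ x → z ≠ q.t → Psi4 f a q z) :
    ∀ b b', IsReal q a x b → IsReal q a x b' → Idn f (q.cone x) b b' := by
  intro b b' hb hb'
  by_cases hxt : x = q.t
  · subst hxt
    rw [real_stem ha] at hb hb'
    subst hb
    subst hb'
    exact Idn.refl
  · obtain ⟨x0, hx0, s, hs, hg, -⟩ := hq.pred x hx hxt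
    have hp1 : x0 <+: x0 ++ [s] := List.prefix_append _ _
    have hpre : x0 <+: x := hp1.trans hg.1
    have hne : x0 ≠ x := by
      rintro rfl
      have := hg.1.length_le
      simp at this
    by_cases hx0t : x0 = q.t
    · subst hx0t
      exact hI s hs x hx hg b b' hb hb'
    · obtain ⟨h1, h2⟩ := hP x0 hx0 hpre hne hx0t
      obtain ⟨hb0, hb1⟩ := real_take hq hx0 hx hpre hb
      obtain ⟨hb0', hb1'⟩ := real_take hq hx0 hx hpre hb'
      have h3 := IDn.succ (f := f) (q := q.cone x0) (cone_good hq hx0) (a := b.take (plc x0))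
        (b := b'.take (plc x0)) hb0.2.2.1 hb0'.2.2.1 (h1 _ _ hb0 hb0') (h2 _ hb0) (s := s) hs
        (y := x) ⟨hx, hpre⟩ hg hb1 hb1'
      rwa [cone_cone4 hpre] at h3

private theorem Psi4_leS {f : Fn} {a : List H} {q q' : Cond} {x : Node} (hq : Good q)
    (hq' : Good q') (hle : LeS q' q) (hx : x ∈ q'.F) (h : Psi4 f a q x) : Psi4 f a q' x := by
  have hxq : x ∈ q.F := hle.2.2 hx
  have hcl : LeS (q'.cone x) (q.cone x) := cone_leS_cone hle hq hxq
  refine ⟨fun b b' hb hb' => ?_, fun b hb => ?_⟩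
  · have h1 := h.1 b b' (real_leS hle hq hq' hx hb) (real_leS hle hq hq' hx hb')
    have h2 := Idn.le (cone_good hq hxq) (cone_good hq' hx) (y := []) hb.2.2.1 hb'.2.2.1
      (le_nil_of_leS hcl (cone_good hq hxq)) h1
    rwa [List.append_nil, List.append_nil] at h2
  · exact IDn.leS (cone_good hq hxq) (cone_good hq' hx) hb.2.2.1 hcl
      (h.2 b (real_leS hle hq hq' hx hb))

private theorem leP_leS {a : List H} {q q' : Cond} (hq : Good q) (h : LeS q' q) : LeP a q' a q :=
  ⟨[], (List.append_nil a).symm, le_nil_of_leS h hq⟩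

/-- (4.3), the fusion: if every extension of `(a, q)` has an extension whose stem is ID then there is
an extension which is FB -/
theorem fb_of_id {f : Fn} {q : Cond} (hq : Good q) {a : List H} (ha : IsPiece q.t a)
    (hf : Cont f q a)
    (h : ∀ a' q', Good q' → LeP a' q' a q → ∃ a'' q'', Good q'' ∧ LeP a'' q'' a' q' ∧ IDn f q'' a'') :
    ∃ a' q', Good q' ∧ LeP a' q' a q ∧ FB f q' a' := by
  obtain ⟨a1, q1, hq1, hle1, hI1⟩ := h a q hq (leP_leS hq (leS_refl q))
  have ha1 : IsPiece q1.t a1 := leP_piece hq ha hle1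
  obtain ⟨r, hr, hrle, -, hrP⟩ := fuse q1 hq1 (Psi4 f a1)
    (fun q q' x hq hq' _ hle hx hP => Psi4_leS hq hq' hle hx hP) (by
      intro p x hp hple hx hxt hz
      have hap : IsPiece p.t a1 := by rw [hple.1]; exact ha1
      have hIp : IDn f p a1 := IDn.leS hq1 hp ha1 hple hI1
      have hall := idn_real4 hp hap hIp hx hz
      obtain ⟨b1, hb1⟩ := real_exists hp hap hx
      have hgc := cone_good hp hx
      have hl1 : LeP b1 (p.cone x) a1 p := cone_leP hp hx hb1
      have hl2 : LeP a1 p a1 q1 := leP_leS hq1 hple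
      have hl3 : LeP b1 (p.cone x) a q :=
        leP_trans hq hq1 hle1 (leP_trans hq1 hp hl2 hl1)
      obtain ⟨b2, q2, hq2, ⟨y, rfl, hy⟩, hI2⟩ := h b1 (p.cone x) hgc hl3
      refine ⟨y, q2, hq2, hy, ?_⟩
      intro q3 hq3 hle3 hF3 hcone hVy hbet
      have ha3 : IsPiece q3.t a1 := by rw [hle3.1]; exact hap
      have hI3 : IDn f q3 a1 := IDn.leS hp hq3 hap hle3 hIp
      refine ⟨?_, ?_⟩
      · refine idn_real4 hq3 ha3 hI3 hF3 ?_
        intro z hzF hzp hzne hzt
        obtain ⟨h1, h2⟩ := hbet z hzF hzp hzne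
        refine Psi4_leS hp hq3 hle3 hzF (hz z (hle3.2.2 hzF) h1 h2 ?_)
        rw [← hle3.1]
        exact hzt
      · intro c hc
        have hcp := real_leS hle3 hp hq3 hF3 hc
        obtain ⟨hq2F, hxq2⟩ := hy.1
        obtain ⟨hb, -⟩ := real_take hp hx hq2F hxq2 hcp
        have hlen : plc x + y.length = plc q2.t := hy.2.1
        have hstem : plc p.t ≤ plc x := plc_mono (hp.above x hx)
        have hclen : c.length = plc q2.t := hc.2.2.1.1
        have hceq : c = c.take (plc x) ++ y := by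
          have htl : (c.take (plc x)).length = plc x := by
            rw [List.length_take, hclen]
            omega
          apply list_ext_getD
          · rw [List.length_append, htl, hclen, hlen]
          · intro i hi
            rw [hclen] at hi
            by_cases hix : i < plc x
            · rw [getD_prefix (List.prefix_append _ _) (by rw [htl]; exact hix)]
              rw [← getD_prefix (List.take_prefix (plc x) c) (by rw [htl]; exact hix)]
            · push Not at hix
              have h1 := hc.2.2.2 i (by rw [hle3.1]; omega) hi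
              have h2 := hVy (i - plc x) (by omega)
              rw [show plc x + (i - plc x) = i by omega] at h2
              rw [h2, Finset.mem_singleton] at h1
              rw [h1, List.getD_append_right _ _ _ _ (by rw [htl]; exact hix), htl]
        have hi1 : Idn f (p.cone x) b1 (c.take (plc x)) := hall _ _ hb1 hb
        have hi2 := Idn.le hgc hq2 hb1.2.2.1 hb.2.2.1 hy hi1
        rw [← hceq] at hi2
        have hpc : IsPiece q2.t (b1 ++ y) := leP_piece hgc hb1.2.2.1 ⟨y, rfl, hy⟩
        have hi3 : IDn f q2 c := IDn.of_idn hq2 hpc hc.2.2.1 hi2 hI2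
        exact IDn.leS hq2 (cone_good hq3 hF3) hc.2.2.1 hcone hi3)
  have har : IsPiece r.t a1 := by rw [hrle.1]; exact ha1
  have hler : LeP a1 r a q := leP_trans hq hq1 hle1 (leP_leS hq1 hrle)
  refine ⟨a1, r, hr, hler, ?_⟩
  intro A A' B hA hA'
  have hfr : Cont f r a1 := Cont.leP hq ha hler hf
  funext i
  obtain ⟨x, hx, hBx, hlx, -, hconst⟩ := hfr.exists_node hr hA' (i + 1) (r.t.length + 1)
  have hxt : x ≠ r.t := by
    rintro rfl
    omega
  obtain ⟨h1, h2⟩ := hA.cone hr hx hBx
  obtain ⟨h1', h2'⟩ := hA'.cone hr hx hBx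
  have h3 := (hrP x hx hxt).1 _ _ h2 h2' A B h1
  have h4 := hconst _ _ (Br.rep (cone_good hr hx) h2'.2.2.1 h1) i (Nat.lt_succ_self i)
  rw [← h3]
  exact h4

/-- (4.3) -/
theorem zz_dense {f : Fn} {q : Cond} (hq : Good q) {a : List H} (ha : IsPiece q.t a)
    (hf : Cont f q a) (hFB : ∀ a' q', Good q' → LeP a' q' a q → ¬ FB f q' a') :
    ∃ a' q', Good q' ∧ LeP a' q' a q ∧
      ∀ a'' q'', Good q'' → LeP a'' q'' a' q' → ¬ IDn f q'' a'' := by
  by_contra hcon
  push Not at hcon
  obtain ⟨a', q', h1, h2, h3⟩ := fb_of_id hq ha hf hcon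
  exact hFB a' q' h1 h2 h3

end Helper99.TT
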