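import Pool.Agent.Helper99.TT.Sec4B
import Pool.Agent.Helper99.TT.Sec4C

/-! TT-C4: (4.4). -/

set_option autoImplicit false

namespace Helper99.TT

/-- (4.4) -/
theorem reach_sep {f : Fn} {q : Cond} (hq : Good q) (R : Set (List H))
    (hR : ∀ b ∈ R, IsPiece q.t b) (hf : ∀ b ∈ R, Cont f q b)
    (hFB : ∀ b ∈ R, ∀ a' q', Good q' → LeP a' q' b q → ¬ FB f q' a') :
    ∃ y q', Good q' ∧ Le y q' q ∧ ∀ b ∈ R, SEPn f q' (b ++ y) := by
  have ho : OpenIn {q | Good q}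
      (fun a q => ∀ a'' q'', Good q'' → LeP a'' q'' a q → ¬ IDn f q'' a'') := by
    intro a1 q1 a2 q2 hq1 hq2 _ hle hN a3 q3 hq3 hle3
    exact hN a3 q3 hq3 (leP_trans hq1 hq2 hle hle3)
  have hd : ∀ b ∈ R, DenseIn {q | Good q}
      (fun a q => ∀ a'' q'', Good q'' → LeP a'' q'' a q → ¬ IDn f q'' a'') b q := by
    intro b hb a1 q1 hq1 hle1
    obtain ⟨a2, q2, hq2, hle2, hN⟩ := zz_dense hq1 (leP_piece hq (hR b hb) hle1)
      (Cont.leP hq (hR b hb) hle1 (hf b hb))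
      (fun a' q' hq' hle' => hFB b hb a' q' hq' (leP_trans hq hq1 hle1 hle'))
    exact ⟨a2, q2, hq2, hle2, hN⟩
  obtain ⟨y, q1, hq1, hle, hN⟩ := nelong closed_good ho hq hR hd
  have hq1' : Good q1 := hq1
  have hpc : ∀ b ∈ R, IsPiece q1.t (b ++ y) := fun b hb =>
    leP_piece hq (hR b hb) ⟨y, rfl, hle⟩
  obtain ⟨q2, hq2, hle2, hor⟩ := id_or_sep (f := f) hq1' {c | ∃ b ∈ R, c = b ++ y}
    (by rintro c ⟨b, hb, rfl⟩; exact hpc b hb)
    (by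
      rintro c ⟨b, hb, rfl⟩
      exact Cont.leP hq (hR b hb) ⟨y, rfl, hle⟩ (hf b hb))
  have hnil : Le [] q2 q1 := le_nil_of_leS hle2 hq1'
  refine ⟨y, q2, hq2, ?_, fun b hb => ?_⟩
  · have h := le_trans' hq hq1' hle hnil
    rwa [List.append_nil] at h
  · rcases hor (b ++ y) ⟨b, hb, rfl⟩ with h | h
    · exact absurd h (hN b hb (b ++ y) q2 hq2 ⟨[], by simp, hnil⟩)
    · exact h

end Helper99.TT
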