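import Pool.Agent.Helper99.TT.Fuse
import Pool.Agent.Helper99.TT.LemmaS

/-! TT-D1: (5.1), one stage: decide and homogenize. -/

set_option autoImplicit false

namespace Helper99.TT

namespace Sec5A

/-- `f i`, `i < n`, is constant on the branches `[b, q]` -/
def Cst (f : Fn) (n : ℕ) (q : Cond) (b : List H) : Prop :=
  ∀ A B A' B', Br q b A B → Br q b A' B' → ∀ i, i < n → f A B i = f A' B' i

theorem Cst.leP {f : Fn} {n : ℕ} {q q' : Cond} {a a' : List H} (hq : Good q)
    (ha : IsPiece q.t a) (h : LeP a' q' a q) (hc : Cst f n q a) : Cst f n q' a' :=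
  fun A B A' B' h1 h2 => hc A B A' B' (Br.of_leP hq ha h h1) (Br.of_leP hq ha h h2)

theorem Cst.leS {f : Fn} {n : ℕ} {q q' : Cond} {a : List H} (hq : Good q)
    (h : LeS q' q) (hc : Cst f n q a) : Cst f n q' a :=
  fun A B A' B' h1 h2 => hc A B A' B' (Br.of_leS hq h h1) (Br.of_leS hq h h2)

/-- one piece can be decided -/
theorem exists_cst {f : Fn} (n : ℕ) {q : Cond} (hq : Good q) {a : List H} (ha : IsPiece q.t a)
    (hf : Cont f q a) : ∃ q' y, Good q' ∧ Le y q' q ∧ Cst f n q' (a ++ y) := by
  obtain ⟨A, B, hb⟩ := exists_br hq ha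
  obtain ⟨x, hx, hBx, -, -, h⟩ := hf.exists_node hq hb n 0
  obtain ⟨y, hy, hle⟩ := cone_leP hq hx (Br.cone hq hb hx hBx).2
  refine ⟨q.cone x, y, cone_good hq hx, hle, ?_⟩
  rw [← hy]
  intro A1 B1 A2 B2 h1 h2 i hi
  rw [h A1 B1 h1 i hi, h A2 B2 h2 i hi]

/-- the nodes beyond `κ` decide the first `n` digits -/
theorem decideAll {f : Fn} {q : Cond} (hq : Good q) {κ : ℕ} (hc : Cut q κ) (P : Set (List H))
    (hP : ∀ a ∈ P, IsPiece q.t a) (hf : ∀ a ∈ P, Cont f q a) (n : ℕ) :
    ∃ q', Good q' ∧ LeK κ q' q ∧ ∀ x ∈ q'.F, κ < plc x → ∀ a ∈ P, ∀ b, IsReal q' a x b →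
      Cst f n (q'.cone x) b := by
  have hPf : P.Finite := (finite_pieces q.t).subset hP
  have hA : ∀ (q1 q2 : Cond) (x : Node), Good q1 → Good q2 → LeK κ q1 q → LeS q2 q1 → x ∈ q2.F →
      (∀ a ∈ P, ∀ b, IsReal q1 a x b → Cst f n (q1.cone x) b) →
      ∀ a ∈ P, ∀ b, IsReal q2 a x b → Cst f n (q2.cone x) b := by
    intro q1 q2 x hq1 hq2 _ h12 hx h a ha b hb
    have hx1 : x ∈ q1.F := h12.2.2 hx
    exact (h a ha b (real_leS h12 hq1 hq2 hx hb)).leS (cone_good hq1 hx1)
      (cone_leS_cone h12 hq1 hx1)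
  obtain ⟨q', h1, h2, -, h3⟩ := fuseK q κ hq hc
    (fun q x => ∀ a ∈ P, ∀ b, IsReal q a x b → Cst f n (q.cone x) b) hA (by
    intro q1 x hq1 hq1q hx _ _
    have ht : q1.t = q.t := hq1q.1.1
    have hfin : {b | ∃ a ∈ P, IsReal q1 a x b}.Finite := by
      have h := hPf.biUnion (t := fun a => {b | IsReal q1 a x b}) (fun a _ => finite_real q1 a x)
      refine h.subset ?_
      rintro b ⟨a, ha, hb⟩
      exact Set.mem_biUnion ha hb
    haveI : Finite {b // ∃ a ∈ P, IsReal q1 a x b} := hfin
    have hcone := cone_good hq1 hx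
    obtain ⟨q', y, hq', hle, hall⟩ := nelong' (ι := {b // ∃ a ∈ P, IsReal q1 a x b})
      (fun b q2 y => Cst f n q2 (b.1 ++ y)) (q1.cone x) hcone (by
      rintro ⟨b, a, ha, hb⟩ q2 q3 y1 y2 hq2 hq3 h1 h2 hc2
      have hpb : IsPiece q2.t (b ++ y1) := leP_piece hcone hb.2.2.1 ⟨y1, rfl, h1⟩
      exact hc2.leP hq2 hpb ⟨y2, by simp, h2⟩) (by
      rintro ⟨b, a, ha, hb⟩ q2 y1 hq2 h1
      have hpb : IsPiece q2.t (b ++ y1) := leP_piece hcone hb.2.2.1 ⟨y1, rfl, h1⟩
      have hpa : IsPiece q1.t a := by rw [ht]; exact hP a ha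
      have hcont : Cont f q2 (b ++ y1) := by
        have h3 : Cont f q1 a := (hf a ha).leS hq hq1q.1
        have h4 : Cont f (q1.cone x) b := h3.leP hq1 hpa (cone_leP hq1 hx hb)
        exact h4.leP hcone hb.2.2.1 ⟨y1, rfl, h1⟩
      obtain ⟨q', y, hq', hle, hcst⟩ := exists_cst n hq2 hpb hcont
      refine ⟨q', y, hq', hle, ?_⟩
      show Cst f n q' (b ++ (y1 ++ y))
      rw [← List.append_assoc]
      exact hcst)
    refine ⟨y, q', hq', hle, ?_⟩
    intro q'' hq'' h1 h2 h3 h4 _ a ha b' hb'
    have hq't : q'.t ∈ (q1.cone x).F := hle.1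
    have hb1 : IsReal q1 a q'.t b' := real_leS h1 hq1 hq'' h2 hb'
    obtain ⟨hb2, hb3⟩ := real_take hq1 hx hq't.1 hq't.2 hb1
    have hlen : b'.length = plc q'.t := hb1.2.2.1.1
    have hpl : plc x + y.length = plc q'.t := hle.2.1
    have hxq : plc q''.t ≤ plc x := by
      rw [h1.1]
      exact plc_mono (hq1.above x hx)
    have htk : (b'.take (plc x)).length = plc x := by
      rw [List.length_take]
      omega
    have hsplit : b' = b'.take (plc x) ++ y := by
      have hd : b'.drop (plc x) = y := by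
        refine list_ext_getD ?_ ?_
        · rw [List.length_drop]
          omega
        · intro p hp
          rw [List.length_drop] at hp
          have h5 := hb'.2.2.2 (plc x + p) (by omega) (by omega)
          rw [h4 p (by omega), Finset.mem_singleton] at h5
          rw [← h5]
          simp [List.getD_eq_getElem?_getD]
      rw [← hd, List.take_append_drop]
    have h5 := hall ⟨b'.take (plc x), a, ha, hb2⟩
    have h6 : Cst f n q' b' := by
      rw [hsplit]
      exact h5
    exact h6.leS hq' h3)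
  exact ⟨q', h1, h2, h3⟩

open Classical in
/-- the value of `f i` on the branches with first step `s` and choice `e` -/
noncomputable def dval (f : Fn) (q : Cond) (a : List H) (s : Step) (e : Bool) (i : ℕ) : Bool :=
  if ∃ A B, Br q a A B ∧ B q.t.length = s ∧
    decide (A (plc q.t + s.u.length) = s.w) = e ∧ f A B i = true then true else false

/-- two branches with the same first step and the same choice agree beyond `κ` -/
theorem agree {f : Fn} {q : Cond} (hq : Good q) {κ n : ℕ} {P : Set (List H)}
    (h : ∀ x ∈ q.F, κ < plc x → ∀ a ∈ P, ∀ b, IsReal q a x b → Cst f n (q.cone x) b)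
    {a : List H} (ha : a ∈ P) {A A' : ℕ → H} {B B' : ℕ → Step} (hb : Br q a A B)
    (hb' : Br q a A' B') (hB : B q.t.length = B' q.t.length)
    (hκ : κ ≤ plc q.t + (B q.t.length).u.length)
    (he : A (plc q.t + (B q.t.length).u.length) = A' (plc q.t + (B q.t.length).u.length)) :
    ∀ i, i < n → f A B i = f A' B' i := by
  obtain ⟨y, hy, hBy, hg⟩ := Br.succ hq hb hq.stem hb.thru_stem
  obtain ⟨y', hy', hBy', hg'⟩ := Br.succ hq hb' hq.stem hb'.thru_stem
  have hs := Br.sstep hq hb hq.stem hb.thru_stem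
  rw [← hB] at hg'
  have hyy := hq.succ_unique hq.stem hs hy hy' hg hg'
  subst hyy
  have hpl : plc (q.t ++ [B q.t.length]) = plc q.t + (B q.t.length).u.length + 1 := by
    rw [plc_append, plc_singleton]
    omega
  have hply : plc (q.t ++ [B q.t.length]) ≤ plc y := plc_mono hg.1
  -- entries of `y`
  have hent : ∀ {A : ℕ → H} {B1 : ℕ → Step}, Br q a A B1 → Thru B1 y → ∀ p, p < plc y →
      A p ∈ ent y p := by
    intro A B1 hbr hth p hp
    have h1 := (Br.cone hq hbr hy hth).2.2.2.1.2 p hp
    rwa [preA_getD _ hp] at h1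
  have hpre : preA A (plc y) = preA A' (plc y) := by
    refine preA_eq_of_agree ?_
    intro p hp
    have h1 := hent hb hBy p hp
    have h2 := hent hb' hBy' p hp
    by_cases hp1 : p < plc q.t
    · have h3 := hb.1
      have h4 := hb'.1
      have h5 := preA_getD A hp1
      have h6 := preA_getD A' hp1
      rw [h3] at h5
      rw [h4] at h6
      rw [← h5, ← h6]
    · push Not at hp1
      by_cases hp2 : p < plc (q.t ++ [B q.t.length])
      · rw [ent_prefix hg.1 hp2] at h1 h2
        obtain ⟨r, rfl⟩ := Nat.exists_eq_add_of_le hp1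
        rw [ent_append_right] at h1 h2
        by_cases hr : r < (B q.t.length).u.length
        · rw [ent_singleton_lt hr, Finset.mem_singleton] at h1 h2
          rw [h1, h2]
        · have hr' : r = (B q.t.length).u.length := by omega
          rw [hr']
          exact he
      · push Not at hp2
        obtain ⟨z, hz, -⟩ := hg.2 p hp2 hp
        have h3 := hb.2.2.2.1 p hp1
        have h4 := hb'.2.2.2.1 p hp1
        rw [hz, Finset.mem_singleton] at h3 h4
        rw [h3, h4]
  have h1 := Br.cone hq hb hy hBy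
  have h2 := Br.cone hq hb' hy hBy'
  rw [← hpre] at h2
  exact h y hy (by omega) a ha _ h1.2 A B A' B' h1.1 h2.1

theorem dval_eq {f : Fn} {q : Cond} (hq : Good q) {κ n : ℕ} {P : Set (List H)}
    (h : ∀ x ∈ q.F, κ < plc x → ∀ a ∈ P, ∀ b, IsReal q a x b → Cst f n (q.cone x) b)
    {a : List H} (ha : a ∈ P) {A : ℕ → H} {B : ℕ → Step} (hb : Br q a A B)
    (hκ : κ ≤ plc q.t + (B q.t.length).u.length) {i : ℕ} (hi : i < n) :
    dval f q a (B q.t.length) (decide (A (plc q.t + (B q.t.length).u.length) =
      (B q.t.length).w)) i = f A B i := by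
  unfold dval
  -- the choice at the pair
  have hch : ∀ {A' : ℕ → H} {B' : ℕ → Step}, Br q a A' B' →
      A' (plc q.t + (B' q.t.length).u.length) = (B' q.t.length).v ∨
      A' (plc q.t + (B' q.t.length).u.length) = (B' q.t.length).w := by
    intro A' B' hb'
    have h1 := hb'.2.2.1 (q.t.length + 1) (plc q.t + (B' q.t.length).u.length) (by
      rw [preB_succ, hb'.2.1, plc_append, plc_singleton]
      omega)
    rw [preB_succ, hb'.2.1, ent_append_right, ent_singleton_last] at h1
    simpa using h1
  split_ifs with h1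
  · obtain ⟨A', B', hb', hB, he, hf⟩ := h1
    rw [← hf]
    symm
    refine agree hq h ha hb hb' hB.symm hκ ?_ i hi
    have hA := hch hb
    have hA' := hch hb'
    rw [hB] at hA'
    by_cases hw : A (plc q.t + (B q.t.length).u.length) = (B q.t.length).w
    · rw [hw]
      have h2 : A' (plc q.t + (B q.t.length).u.length) = (B q.t.length).w := by
        simpa [hw] using he
      rw [h2]
    · have h2 : ¬ A' (plc q.t + (B q.t.length).u.length) = (B q.t.length).w := by
        simpa [hw] using he
      rcases hA with hA | hA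
      · rcases hA' with hA' | hA'
        · rw [hA, hA']
        · exact absurd hA' h2
      · exact absurd hA hw
  · cases hfi : f A B i
    · rfl
    · exact absurd ⟨A, B, hb, rfl, rfl, hfi⟩ h1

theorem finite_paths (V : Fam) (k m : ℕ) : {y : List H | Path V k y ∧ y.length = m}.Finite := by
  classical
  let S : Finset H := (Finset.range m).biUnion fun i => V (k + i)
  have h1 : {l : List S | l.length = m}.Finite := List.finite_length_eq S m
  refine (h1.image (fun l => l.map Subtype.val)).subset ?_
  rintro y ⟨hy, hym⟩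
  rw [path_iff] at hy
  have hall : ∀ h ∈ y, h ∈ S := by
    intro h hh
    obtain ⟨i, hi, rfl⟩ := List.getElem_of_mem hh
    refine Finset.mem_biUnion.2 ⟨i, Finset.mem_range.2 (by omega), ?_⟩
    have h2 := hy i hi
    simpa [List.getD_eq_getElem?_getD, List.getElem?_eq_getElem hi] using h2
  lift y to List S using hall
  exact ⟨y, by simpa using hym, rfl⟩

end Sec5A

open Sec5A in
/-- one stage of (5.1): beyond `κ`, the first `n` digits of `f` depend only on the piece, the path up
to `κ`, and the type of the first step -/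
theorem limStage {f : Fn} {q : Cond} (hq : Good q) {κ : ℕ} (hc : Cut q κ) (P : Set (List H))
    (hP : ∀ a ∈ P, IsPiece q.t a) (hf : ∀ a ∈ P, Cont f q a) (n : ℕ) :
    ∃ q', Good q' ∧ LeK κ q' q ∧ ∀ a ∈ P, ∀ A B A' B', Br q' a A B → Br q' a A' B' →
      κ ≤ plc q.t + (B q.t.length).u.length → κ ≤ plc q.t + (B' q.t.length).u.length →
      (∀ p, plc q.t ≤ p → p < κ → A p = A' p) →
      (A (plc q.t + (B q.t.length).u.length) = (B q.t.length).w ↔
        A' (plc q.t + (B' q.t.length).u.length) = (B' q.t.length).w) →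
      ∀ i, i < n → f A B i = f A' B' i := by
  obtain ⟨q1, hq1, hle1, hdec⟩ := decideAll hq hc P hP hf n
  have ht : q1.t = q.t := hle1.1.1
  have hkκ : plc q.t ≤ κ := hc.1
  have hPf : P.Finite := (finite_pieces q.t).subset hP
  haveI : Finite P := hPf
  haveI : Finite {y : List H | Path q1.V (plc q.t) y ∧ y.length = κ - plc q.t} :=
    finite_paths _ _ _
  obtain ⟨V', hV', hsub, hbelow, kk, hkk⟩ := lemmaS_from κ q1.V hq1.isX q.t.length
    (fun u v w => fun (x : P × {y : List H | Path q1.V (plc q.t) y ∧ y.length = κ - plc q.t} ×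
      Bool × Fin n) => dval f q1 x.1.1 ⟨x.2.1.1 ++ u, v, w⟩ x.2.2.1 x.2.2.2.1)
  have hsubX : SubX (plc q1.t) V' q1.V := fun p _ => hsub p
  have hgood := restr_good hq1 hV' hsubX
  have hle2 : LeK κ (q1.restr V') q1 := restr_leK hsubX hbelow
  refine ⟨q1.restr V', hgood, leK_trans le_rfl hle1 hle2, ?_⟩
  intro a ha A B A' B' hb hb' hκ hκ' hAA hch i hi
  have hb1 : Br q1 a A B := Br.of_leS hq1 hle2.1 hb
  have hb1' : Br q1 a A' B' := Br.of_leS hq1 hle2.1 hb'
  have e1 := dval_eq hq1 hdec ha hb1 (by rw [ht]; exact hκ) hi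
  have e2 := dval_eq hq1 hdec ha hb1' (by rw [ht]; exact hκ') hi
  rw [ht] at e1 e2
  rw [← e1, ← e2]
  -- splitting of the first step
  have hsplit : ∀ {A : ℕ → H} {B : ℕ → Step}, Br (q1.restr V') a A B →
      κ ≤ plc q.t + (B q.t.length).u.length →
      ((B q.t.length).u.take (κ - plc q.t) = (List.range (κ - plc q.t)).map
        (fun i => A (plc q.t + i))) ∧
      Path q1.V (plc q.t) ((B q.t.length).u.take (κ - plc q.t)) ∧
      ((B q.t.length).u.take (κ - plc q.t)).length = κ - plc q.t ∧
      (fun (x : P × {y : List H | Path q1.V (plc q.t) y ∧ y.length = κ - plc q.t} ×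
        Bool × Fin n) => dval f q1 x.1.1 ⟨x.2.1.1 ++ (B q.t.length).u.drop (κ - plc q.t),
          (B q.t.length).v, (B q.t.length).w⟩ x.2.2.1 x.2.2.2.1) = kk := by
    intro A B hbr hκ
    have hs := Br.sstep hgood hbr hgood.stem hbr.thru_stem
    have hs' : SStep V' q.t (B q.t.length) := by
      have h1 : (q1.restr V').t = q.t := ht
      rw [h1] at hs
      exact hs
    obtain ⟨s1, s2, s3, s4⟩ := hs'
    have hlen : ((B q.t.length).u.take (κ - plc q.t)).length = κ - plc q.t := by
      rw [List.length_take]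
      omega
    have hp := s1
    rw [← List.take_append_drop (κ - plc q.t) (B q.t.length).u, path_append, hlen,
      show plc q.t + (κ - plc q.t) = κ by omega] at hp
    have hu : κ + ((B q.t.length).u.drop (κ - plc q.t)).length =
        plc q.t + (B q.t.length).u.length := by
      rw [List.length_drop]
      omega
    refine ⟨?_, ?_, hlen, ?_⟩
    · refine list_ext_getD ?_ ?_
      · rw [hlen]
        simp
      · intro p hp
        rw [hlen] at hp
        have h1 := hbr.2.2.1 (q.t.length + 1) (plc q.t + p) (by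
          have h2 : (q1.restr V').t = q.t := ht
          have h3 := hbr.2.1
          rw [h2] at h3
          rw [preB_succ, h3, plc_append, plc_singleton]
          omega)
        have h2 : (q1.restr V').t = q.t := ht
        have h3 := hbr.2.1
        rw [h2] at h3
        rw [preB_succ, h3, ent_append_right, ent_singleton_lt (by omega),
          Finset.mem_singleton] at h1
        rw [← getD_prefix (List.take_prefix (κ - plc q.t) (B q.t.length).u) (by omega), ← h1]
        simp [List.getD_eq_getElem?_getD, hp]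
    · rw [path_iff] at hp ⊢
      intro i hi
      exact hsub _ (hp.1 i hi)
    · refine hkk _ _ _ hp.2 ?_ ?_ s4
      · rw [hu]
        exact s2
      · rw [hu]
        exact s3
  obtain ⟨a1, a2, a3, a4⟩ := hsplit hb hκ
  obtain ⟨b1, b2, b3, b4⟩ := hsplit hb' hκ'
  have hy : (B q.t.length).u.take (κ - plc q.t) = (B' q.t.length).u.take (κ - plc q.t) := by
    rw [a1, b1]
    refine List.map_congr_left ?_
    intro p hp
    rw [List.mem_range] at hp
    exact hAA _ (by omega) (by omega)
  have hdec' : decide (A (plc q.t + (B q.t.length).u.length) = (B q.t.length).w) =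
      decide (A' (plc q.t + (B' q.t.length).u.length) = (B' q.t.length).w) := by
    simp only [hch]
  have c1 := congrFun a4 (⟨a, ha⟩, ⟨(B q.t.length).u.take (κ - plc q.t), a2, a3⟩,
    decide (A (plc q.t + (B q.t.length).u.length) = (B q.t.length).w), ⟨i, hi⟩)
  have c2 := congrFun b4 (⟨a, ha⟩, ⟨(B q.t.length).u.take (κ - plc q.t), a2, a3⟩,
    decide (A (plc q.t + (B q.t.length).u.length) = (B q.t.length).w), ⟨i, hi⟩)
  have c3 := c1.trans c2.symm
  simp only [List.take_append_drop] at c3
  rw [hy, List.take_append_drop, hdec'] at c3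
  rw [hdec']
  exact c3

end Helper99.TT
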