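import Pool.Agent.Helper99.TT.Sec5A

/-! TT-D2: (5.1). -/

set_option autoImplicit false

namespace Helper99.TT

namespace Sec5B

/-- beyond `κ` the first `n` digits depend only on the piece, the path up to `κ` and the choice at the
first pair -/
def Stg (f : Fn) (P : Set (List H)) (n κ : ℕ) (q : Cond) : Prop :=
  ∀ a ∈ P, ∀ A B A' B', Br q a A B → Br q a A' B' →
    κ ≤ plc q.t + (B q.t.length).u.length → κ ≤ plc q.t + (B' q.t.length).u.length →
    (∀ p, plc q.t ≤ p → p < κ → A p = A' p) →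
    (A (plc q.t + (B q.t.length).u.length) = (B q.t.length).w ↔
      A' (plc q.t + (B' q.t.length).u.length) = (B' q.t.length).w) →
    ∀ i, i < n → f A B i = f A' B' i

theorem Stg.mono {f : Fn} {P : Set (List H)} {n κ κ' : ℕ} {q q' : Cond} (hq : Good q)
    (hle : LeS q' q) (hκ : κ ≤ κ') (h : Stg f P n κ q) : Stg f P n κ' q' := by
  intro a ha A B A' B' hb hb' h1 h2 h3 h4 i hi
  rw [hle.1] at h1 h2 h3 h4
  exact h a ha A B A' B' (Br.of_leS hq hle hb) (Br.of_leS hq hle hb') (hκ.trans h1) (hκ.trans h2)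
    (fun p hp hp' => h3 p hp (hp'.trans_le hκ)) h4 i hi

end Sec5B

open Sec5B in
/-- (5.1) -/
theorem limits {f : Fn} {q : Cond} (hq : Good q) (P : Set (List H))
    (hP : ∀ a ∈ P, IsPiece q.t a) (hf : ∀ a ∈ P, Cont f q a) :
    ∃ q', Good q' ∧ LeS q' q ∧ ∀ a ∈ P, HasLim f q' a := by
  classical
  obtain ⟨κ0, -, hc, -⟩ := exists_cut hq (plc q.t)
  obtain ⟨Q, K, hF, hQ0, hK0, hS, hQle, q', hq', hle⟩ := fusion
    (fun n q κ => Stg f P n κ q) q κ0 hq hc (by
      intro a _ A B A' B' _ _ _ _ _ _ i hi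
      omega) (by
      intro n q1 κ hq1 hc1 hle1 hκ _
      have ht1 : q1.t = q.t := hle1.1.1
      obtain ⟨q2, hq2, hle2, h2⟩ := limStage hq1 hc1 P (fun a ha => by rw [ht1]; exact hP a ha)
        (fun a ha => (hf a ha).leS hq hle1.1) (n + 1)
      have ht2 : q2.t = q1.t := hle2.1.1
      obtain ⟨κ1, hκ1, hc2, -⟩ := exists_cut hq2 κ
      have hS2 : Stg f P (n + 1) κ q2 := by
        intro a ha A B A' B' hb hb' g1 g2 g3 g4
        rw [ht2] at g1 g2 g3 g4
        exact h2 a ha A B A' B' hb hb' g1 g2 g3 g4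
      obtain ⟨q3, hq3, κ', m, hm1, -, hm2, hle3, hcut3, hex, -, -, -⟩ :=
        block closed_good (C := {q | Good q}) hq2 hc2 (max n 2) 0 (le_max_right _ _)
      refine ⟨q3, κ', hq3, leK_trans hκ1 hle2 hle3, by omega, hcut3, ⟨m, by omega, hm2, ?_⟩, ?_⟩
      · exact Large_anti (le_max_left _ _) (Exact_large hex)
      · exact hS2.mono hq2 hle3.1 (by omega))
  have hKm : ∀ m n, m ≤ n → K m ≤ K n := fun m n hmn => by
    induction n, hmn using Nat.le_induction with
    | base => exact le_rfl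
    | succ n _ ih => exact ih.trans (hF.lt n).le
  have hS' : ∀ n, Stg f P n (K n) q' := fun n => (hS n).mono (hF.good n) (hle n).1 le_rfl
  have hle0 : LeS q' q := by
    have h := (hle 0).1
    rw [hQ0] at h
    exact h
  refine ⟨q', hq', hle0, fun a ha => ?_⟩
  refine ⟨fun e A i => if ∃ A' B', Br q' a A' B' ∧
      K (i + 1) ≤ plc q'.t + (B' q'.t.length).u.length ∧
      (∀ p, plc q'.t ≤ p → p < K (i + 1) → A' p = A p) ∧
      decide (A' (plc q'.t + (B' q'.t.length).u.length) = (B' q'.t.length).w) = e ∧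
      f A' B' i = true then true else false, fun l => ⟨K l, ?_, ?_⟩⟩
  · intro e A A' _ _ hAA i hi
    have hK := hKm (i + 1) l hi
    have key : ∀ A1 A2 : ℕ → H, (∀ p, plc q'.t ≤ p → p < K l → A1 p = A2 p) →
        (∃ A' B', Br q' a A' B' ∧
      K (i + 1) ≤ plc q'.t + (B' q'.t.length).u.length ∧
      (∀ p, plc q'.t ≤ p → p < K (i + 1) → A' p = A1 p) ∧
      decide (A' (plc q'.t + (B' q'.t.length).u.length) = (B' q'.t.length).w) = e ∧
      f A' B' i = true) → ∃ A' B', Br q' a A' B' ∧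
      K (i + 1) ≤ plc q'.t + (B' q'.t.length).u.length ∧
      (∀ p, plc q'.t ≤ p → p < K (i + 1) → A' p = A2 p) ∧
      decide (A' (plc q'.t + (B' q'.t.length).u.length) = (B' q'.t.length).w) = e ∧
      f A' B' i = true := by
      rintro A1 A2 h12 ⟨A', B', h1, h2, h3, h4, h5⟩
      exact ⟨A', B', h1, h2, fun p hp hp' => (h3 p hp hp').trans (h12 p hp (by omega)), h4, h5⟩
    have hiff := Iff.intro (key A A' hAA) (key A' A (fun p hp hp' => (hAA p hp hp').symm))
    simp only [hiff]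
  · intro A B hb hm i hi
    have hK := hKm (i + 1) l hi
    show f A B i = if _ then true else false
    split_ifs with h
    · obtain ⟨A', B', h1, h2, h3, h4, h5⟩ := h
      rw [← h5]
      refine hS' (i + 1) a ha A B A' B' hb h1 (hK.trans hm) h2 (fun p hp hp' => (h3 p hp hp').symm)
        ?_ i (Nat.lt_succ_self i)
      have h6 := decide_eq_decide.1 h4
      exact h6.symm
    · cases hfi : f A B i
      · rfl
      · exact absurd ⟨A, B, hb, hK.trans hm, fun p _ _ => rfl, rfl, hfi⟩ h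

end Helper99.TT
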