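import Pool.Agent.Helper99.TT.Fuse

/-! TT-D3: (5.2), deviation from finitely many functions of `A`. -/

set_option autoImplicit false

namespace Helper99.TT

namespace Sec5C

theorem inX_of_le {q q' : Cond} {y : List H} (hle : Le y q' q) {A : ℕ → H}
    (hA : ∀ j, j < y.length → A (plc q.t + j) = y.getD j 0) (hA' : InX q'.V (plc q'.t) A) :
    InX q.V (plc q.t) A := by
  obtain ⟨-, h2, h3, h4, -⟩ := hle
  intro p hp
  by_cases hpp : p < plc q'.t
  · have e1 := hA (p - plc q.t) (by omega)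
    have e2 := (h3 (p - plc q.t) (by omega)).1
    rw [show plc q.t + (p - plc q.t) = p by omega] at e1 e2
    rw [e1]
    exact e2
  · exact h4 p (by omega) (hA' p (by omega))

end Sec5C

open Sec5C in
/-- (5.2) -/
theorem deviate {f : Fn} {q : Cond} (hq : Good q) (R : Set (List H))
    (hR : ∀ b ∈ R, IsPiece q.t b) (hf : ∀ b ∈ R, Cont f q b)
    (hFA : ∀ b ∈ R, ∀ a' q', Good q' → LeP a' q' b q → ¬ FA f q' a')
    {ι : Type} [Finite ι] (r : ι → (ℕ → H) → ℕ → Bool)
    (hr : ∀ (i : ι) (l : ℕ), ∃ m : ℕ, ∀ A A', InX q.V (plc q.t) A → InX q.V (plc q.t) A' →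
      (∀ p, plc q.t ≤ p → p < m → A p = A' p) → ∀ j, j < l → r i A j = r i A' j) :
    ∃ y q' l, Good q' ∧ Le y q' q ∧ ∀ b ∈ R, ∀ i : ι, ∀ A B A', Br q' (b ++ y) A B →
      (∀ j, j < y.length → A' (plc q.t + j) = y.getD j 0) → InX q'.V (plc q'.t) A' →
      ∃ j, j < l ∧ f A B j ≠ r i A' j := by
  classical
  have hfin : R.Finite := (finite_pieces q.t).subset hR
  have : Finite R := hfin
  obtain ⟨q', y, hq', hle, hP⟩ := nelong' (ι := R × ι)
    (fun z q1 y1 => ∃ l : ℕ, ∀ A B A', Br q1 (z.1.1 ++ y1) A B →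
      (∀ j, j < y1.length → A' (plc q.t + j) = y1.getD j 0) → InX q1.V (plc q1.t) A' →
      ∃ j, j < l ∧ f A B j ≠ r z.2 A' j) q hq
    (by
      rintro ⟨⟨b, hb⟩, i⟩ q1 q2 y1 y2 hq1 hq2 hle1 hle2 ⟨l, hl⟩
      refine ⟨l, fun A B A' hbr hA hX => hl A B A' ?_ ?_ ?_⟩
      · have hbr' : Br q2 ((b ++ y1) ++ y2) A B := by
          rw [List.append_assoc]
          exact hbr
        exact Br.of_leP hq1 (leP_piece hq (hR b hb) ⟨y1, rfl, hle1⟩) ⟨y2, rfl, hle2⟩ hbr'
      · intro j hj
        rw [hA j (by rw [List.length_append]; omega), List.getD_append _ _ _ _ hj]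
      · refine inX_of_le hle2 (fun j hj => ?_) hX
        have h1 := hA (y1.length + j) (by rw [List.length_append]; omega)
        rw [List.getD_append_right _ _ _ _ (by omega), ← Nat.add_assoc, hle1.2.1,
          show y1.length + j - y1.length = j by omega] at h1
        exact h1)
    (by
      rintro ⟨⟨b, hb⟩, i⟩ q1 y1 hq1 hle1
      have hn := hFA b hb (b ++ y1) q1 hq1 ⟨y1, rfl, hle1⟩
      have hpc := leP_piece hq (hR b hb) ⟨y1, rfl, hle1⟩
      obtain ⟨A, B, hbr, hne⟩ : ∃ A B, Br q1 (b ++ y1) A B ∧ f A B ≠ r i A := by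
        by_contra hcon
        push Not at hcon
        exact hn fun A B B' h1 h2 => (hcon A B h1).trans (hcon A B' h2).symm
      obtain ⟨j, hj⟩ : ∃ j, f A B j ≠ r i A j := by
        by_contra hcon
        push Not at hcon
        exact hne (funext hcon)
      obtain ⟨m, hm⟩ := hr i (j + 1)
      obtain ⟨x, hx, hBx, -, hxm, hxc⟩ :=
        ((hf b hb).leP hq (hR b hb) ⟨y1, rfl, hle1⟩).exists_node hq1 hbr (j + 1) m
      obtain ⟨y2, hy2, hle2⟩ := cone_leP hq1 hx (hbr.cone hq1 hx hBx).2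
      refine ⟨q1.cone x, y2, cone_good hq1 hx, hle2, j + 1, fun A1 B1 A' hbr1 hA hX =>
        ⟨j, Nat.lt_succ_self j, ?_⟩⟩
      have hbr1' : Br (q1.cone x) (preA A (plc x)) A1 B1 := by
        rw [hy2, List.append_assoc]
        exact hbr1
      have hle12 : Le (y1 ++ y2) (q1.cone x) q := le_trans' hq hq1 hle1 hle2
      have hfe : f A1 B1 j = f A B j := hxc A1 B1 hbr1' j (Nat.lt_succ_self j)
      have hXA : InX q.V (plc q.t) A := (Br.of_leP hq (hR b hb) ⟨y1, rfl, hle1⟩ hbr).2.2.2.1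
      have hXA' : InX q.V (plc q.t) A' := inX_of_le hle12 hA hX
      have hre : r i A j = r i A' j := by
        refine hm A A' hXA hXA' (fun p hp hpm => ?_) j (Nat.lt_succ_self j)
        have hpx : p < plc x := hpm.trans_le hxm
        have hbl : b.length = plc q.t := (hR b hb).1
        have hlen : plc q.t + (y1 ++ y2).length = plc x := hle12.2.1
        have e1 := preA_getD A hpx
        rw [hy2, List.append_assoc, List.getD_append_right _ _ _ _ (by omega), hbl] at e1
        have e2 := hA (p - plc q.t) (by omega)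
        rw [show plc q.t + (p - plc q.t) = p by omega] at e2
        rw [← e1, e2]
      show f A1 B1 j ≠ r i A' j
      rw [hfe, ← hre]
      exact hj)
  choose l hl using hP
  obtain ⟨L, hL⟩ := (Set.finite_range l).bddAbove
  refine ⟨y, q', L, hq', hle, fun b hb i A B A' hbr hA hX => ?_⟩
  obtain ⟨j, hj, hne⟩ := hl (⟨b, hb⟩, i) A B A' hbr hA hX
  exact ⟨j, hj.trans_le (hL (Set.mem_range_self _)), hne⟩

end Helper99.TT
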