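import Pool.Agent.Helper99.TT.Sec6D
import Pool.Agent.Helper99.TT.Sec5C
import Pool.Agent.Helper99.TT.Sec4D

/-! TT-E2: section 6, processing one new node (Step 2). -/

set_option autoImplicit false

namespace Helper99.TT

theorem sec6A_finite_lists (n : ℕ) : ∀ (S : ℕ → Finset H),
    {u : List H | u.length = n ∧ ∀ i, i < n → u.getD i 0 ∈ S i}.Finite := by
  induction n with
  | zero =>
    intro S
    refine (Set.finite_singleton ([] : List H)).subset ?_
    rintro u ⟨hu, _⟩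
    exact Set.mem_singleton_iff.2 (List.eq_nil_of_length_eq_zero hu)
  | succ n ih =>
    intro S
    have h1 := ih (fun i => S (i + 1))
    refine (Set.Finite.image2 (fun a u => a :: u) (S 0).finite_toSet h1).subset ?_
    rintro u ⟨hu, h⟩
    cases u with
    | nil => simp at hu
    | cons a u =>
      refine ⟨a, ?_, u, ⟨?_, ?_⟩, rfl⟩
      · simpa using h 0 (by omega)
      · simpa using hu
      · intro i hi
        simpa using h (i + 1) (by omega)

/-- Step 2 of section 6 for one node: `S` = also make the new node SEP. -/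
theorem decodeNode {f : Fn} {q : Cond} (hq : Good q) {a : List H} (ha : IsPiece q.t a)
    (hf : Cont f q a) (hFA : ∀ a' q', Good q' → LeP a' q' a q → ¬ FA f q' a') {κ : ℕ}
    (hc : Cut q κ) (hL : LimInv f a q κ) {x : Node} (hx : Leaf q κ x) :
    ∃ q' κ' x', Good q' ∧ Reach q κ x q' κ' x' ∧ LimInv f a q' κ' ∧ Decode f q' a x' ∧
      ((∀ a' q', Good q' → LeP a' q' a q → ¬ FB f q' a') →
        ∀ b, IsReal q' a x' b → SEPn f (q'.cone x') b) := by
  have hxF : x ∈ q.F := hx.1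
  have hxκ : plc x ≤ κ := hx.2.2.1
  have hgx : Good (q.cone x) := cone_good hq hxF
  have htx : plc q.t ≤ plc x := plc_mono (hq.above x hxF)
  -- limits
  have hlim : ∀ (z : Node) (b : List H), ∃ (r : Bool → (ℕ → H) → ℕ → Bool) (m : ℕ → ℕ),
      z ∈ q.F → plc z ≤ κ → IsReal q a z b → ∀ l : ℕ,
        (∀ e A A', InX q.V (plc z) A → InX q.V (plc z) A' →
          (∀ p, plc z ≤ p → p < m l → A p = A' p) → ∀ i, i < l → r e A i = r e A' i) ∧
        (∀ A B, Br (q.cone z) b A B → m l ≤ plc z + (B z.length).u.length →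
          ∀ i, i < l → f A B i =
            r (decide (A (plc z + (B z.length).u.length) = (B z.length).w)) A i) := by
    intro z b
    by_cases h : z ∈ q.F ∧ plc z ≤ κ ∧ IsReal q a z b
    · obtain ⟨r, hr⟩ := hL z h.1 h.2.1 b h.2.2
      choose m hm using hr
      exact ⟨r, m, fun _ _ _ l => hm l⟩
    · exact ⟨fun _ _ _ => false, fun _ => 0, fun h1 h2 h3 => absurd ⟨h1, h2, h3⟩ h⟩
  choose r m hrm using hlim
  -- germs
  have hZ : {z | z ∈ q.F ∧ plc z ≤ κ}.Finite := hq.finite_le κ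
  obtain ⟨S, hSdef⟩ : ∃ S : Set (Node × List H × List H), S = {g | g.1 ∈ q.F ∧ plc g.1 ≤ κ ∧
    IsReal q a g.1 g.2.1 ∧ g.2.2.length = κ - plc g.1 ∧
    ∀ i, i < κ - plc g.1 → g.2.2.getD i 0 ∈ q.V (plc g.1 + i)} := ⟨_, rfl⟩
  have hS : S.Finite := by
    rw [hSdef]
    refine (hZ.prod ((hZ.biUnion (fun z _ => finite_real q a z)).prod
      (hZ.biUnion (fun z _ => sec6A_finite_lists (κ - plc z)
        (fun i => q.V (plc z + i)))))).subset ?_
    rintro ⟨z, b, u⟩ ⟨h1, h2, h3, h4, h5⟩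
    have hz : z ∈ {z | z ∈ q.F ∧ plc z ≤ κ} := ⟨h1, h2⟩
    exact ⟨hz, Set.mem_biUnion hz h3, Set.mem_biUnion hz ⟨h4, h5⟩⟩
  have : Finite S := hS.to_subtype
  obtain ⟨rr, hrrdef⟩ : ∃ rr : (S × Bool) → (ℕ → H) → ℕ → Bool, rr = fun g A =>
    r g.1.1.1 g.1.1.2.1 g.2 (fun p => if p < κ then g.1.1.2.2.getD (p - plc g.1.1.1) 0 else A p) :=
    ⟨_, rfl⟩
  have hrr : ∀ (i : S × Bool) (l : ℕ), ∃ m' : ℕ, ∀ A A', InX (q.cone x).V (plc (q.cone x).t) A →
      InX (q.cone x).V (plc (q.cone x).t) A' →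
      (∀ p, plc (q.cone x).t ≤ p → p < m' → A p = A' p) → ∀ j, j < l → rr i A j = rr i A' j := by
    rintro ⟨⟨⟨z, b, u⟩, hg⟩, e⟩ l
    obtain ⟨h1, h2, h3, h4, h5⟩ : z ∈ q.F ∧ plc z ≤ κ ∧ IsReal q a z b ∧ u.length = κ - plc z ∧
        ∀ i, i < κ - plc z → u.getD i 0 ∈ q.V (plc z + i) := by rw [hSdef] at hg; exact hg
    refine ⟨m z b l, fun A A' hA hA' hAA' j hj => ?_⟩
    have key : ∀ A, InX q.V (plc x) A → InX q.V (plc z)
        (fun p => if p < κ then u.getD (p - plc z) 0 else A p) := by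
      intro A hA p hp
      by_cases hpκ : p < κ
      · simp only [hpκ, if_true]
        have := h5 (p - plc z) (by omega)
        rwa [Nat.add_sub_cancel' hp] at this
      · simp only [hpκ, if_false]
        exact hA p (by omega)
    rw [hrrdef]
    refine (hrm z b h1 h2 h3 l).1 e _ _ (key A hA) (key A' hA') ?_ j hj
    intro p hp hpm
    by_cases hpκ : p < κ
    · simp [hpκ]
    · simp only [hpκ, if_false]
      exact hAA' p (show plc x ≤ p by omega) hpm
  -- deviation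
  obtain ⟨R0, hR0def⟩ : ∃ R0 : Set (List H), R0 = {b | IsReal q a x b} := ⟨_, rfl⟩
  have hR0r : ∀ b ∈ R0, IsReal q a x b := fun b hb => by rw [hR0def] at hb; exact hb
  have hR0 : ∀ b ∈ R0, LeP b (q.cone x) a q := fun b hb => cone_leP hq hxF (hR0r b hb)
  have hR0p : ∀ b ∈ R0, IsPiece (q.cone x).t b := fun b hb => (hR0r b hb).2.2.1
  have hR0c : ∀ b ∈ R0, Cont f (q.cone x) b := fun b hb => Cont.leP hq ha (hR0 b hb) hf
  have hR0A : ∀ b ∈ R0, ∀ a' q', Good q' → LeP a' q' b (q.cone x) → ¬ FA f q' a' :=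
    fun b hb a' q' hq' h => hFA a' q' hq' (leP_trans hq hgx (hR0 b hb) h)
  obtain ⟨y, q1, l, hq1, hle1, hdev⟩ := deviate hgx R0 hR0p hR0c hR0A rr hrr
  have hR1 : ∀ b ∈ R0, LeP (b ++ y) q1 b (q.cone x) := fun b hb => ⟨y, rfl, hle1⟩
  have hR1q : ∀ b ∈ R0, LeP (b ++ y) q1 a q := fun b hb =>
    leP_trans hq hgx (hR0 b hb) (hR1 b hb)
  have hR1p : ∀ b ∈ R0, IsPiece q1.t (b ++ y) := fun b hb =>
    leP_piece hgx (hR0p b hb) (hR1 b hb)
  -- separation
  have hsep : ∃ y2 q2, Good q2 ∧ Le y2 q2 q1 ∧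
      ((∀ a' q', Good q' → LeP a' q' a q → ¬ FB f q' a') →
        ∀ b ∈ R0, SEPn f q2 ((b ++ y) ++ y2)) := by
    by_cases hFB : ∀ a' q', Good q' → LeP a' q' a q → ¬ FB f q' a'
    · obtain ⟨y2, q2, h1, h2, h3⟩ := reach_sep hq1 ((fun b => b ++ y) '' R0)
        (by rintro _ ⟨b, hb, rfl⟩; exact hR1p b hb)
        (by rintro _ ⟨b, hb, rfl⟩; exact Cont.leP hq ha (hR1q b hb) hf)
        (by
          rintro _ ⟨b, hb, rfl⟩ a' q' hq' h
          exact hFB a' q' hq' (leP_trans hq hq1 (hR1q b hb) h))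
      exact ⟨y2, q2, h1, h2, fun _ b hb => h3 _ ⟨b, hb, rfl⟩⟩
    · exact ⟨[], q1, hq1, le_nil_of_leS (leS_refl q1) hq1, fun h => absurd h hFB⟩
  obtain ⟨y2, q2, hq2, hle2, hsep⟩ := hsep
  have hR2 : ∀ b ∈ R0, LeP ((b ++ y) ++ y2) q2 (b ++ y) q1 := fun b hb => ⟨y2, rfl, hle2⟩
  have hR2q : ∀ b ∈ R0, LeP ((b ++ y) ++ y2) q2 a q := fun b hb =>
    leP_trans hq hq1 (hR1q b hb) (hR2 b hb)
  have hR2p : ∀ b ∈ R0, IsPiece q2.t ((b ++ y) ++ y2) := fun b hb =>
    leP_piece hq1 (hR1p b hb) (hR2 b hb)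
  -- limits at the new stem
  obtain ⟨q3, hq3, hle3, hlim3⟩ := limits (f := f) hq2 ((fun b => (b ++ y) ++ y2) '' R0)
    (by rintro _ ⟨b, hb, rfl⟩; exact hR2p b hb)
    (by rintro _ ⟨b, hb, rfl⟩; exact Cont.leP hq ha (hR2q b hb) hf)
  have hR3p : ∀ b ∈ R0, IsPiece q3.t ((b ++ y) ++ y2) := fun b hb => by
    rw [hle3.1]; exact hR2p b hb
  have hle13 : Le (y2 ++ []) q3 q1 := le_trans' hq1 hq2 hle2 (le_nil_of_leS hle3 hq2)
  rw [List.append_nil] at hle13
  have hle03 : Le (y ++ y2) q3 (q.cone x) := le_trans' hgx hq1 hle1 hle13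
  -- the bound
  have hbd : ∃ bd, ∀ z b, z ∈ q.F → plc z ≤ κ → IsReal q a z b → m z b l ≤ bd := by
    have hfin : {g : Node × List H | g.1 ∈ q.F ∧ plc g.1 ≤ κ ∧ IsReal q a g.1 g.2}.Finite := by
      refine (hZ.prod (hZ.biUnion (fun z _ => finite_real q a z))).subset ?_
      rintro ⟨z, b⟩ ⟨h1, h2, h3⟩
      have hz : z ∈ {z | z ∈ q.F ∧ plc z ≤ κ} := ⟨h1, h2⟩
      exact ⟨hz, Set.mem_biUnion hz h3⟩
    obtain ⟨bd, hbd⟩ := (hfin.image (fun g => m g.1 g.2 l)).bddAbove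
    exact ⟨bd, fun z b h1 h2 h3 => hbd ⟨(z, b), ⟨h1, h2, h3⟩, rfl⟩⟩
  obtain ⟨bd, hbd⟩ := hbd
  obtain ⟨q4, hq4, κ4, hbκ, hreach, hle4, hV4⟩ := reach_of_le closed_good
    (show q ∈ {q | Good q} from hq) (show q3 ∈ {q | Good q} from hq3) hc hx hle03 bd
  replace hq4 : Good q4 := hq4
  obtain ⟨hS4, hκκ4, hcut4, hV4κ, hsing, hxpre, hiff⟩ := id hreach
  have hx'F : q3.t ∈ q4.F ∧ plc q3.t ≤ κ4 := (hiff q3.t).2 (Or.inl rfl)
  have hl03 : plc x + (y ++ y2).length = plc q3.t := hle03.2.1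
  have hl01 : plc x + y.length = plc q1.t := hle1.2.1
  have hl13 : plc q1.t + y2.length = plc q3.t := hle13.2.1
  have hreal : ∀ b, IsReal q4 a q3.t b → ∃ b0 ∈ R0, b = (b0 ++ y) ++ y2 := by
    intro b hb
    have hb' : IsReal q a q3.t b := real_leS hS4 hq hq4 hx'F.1 hb
    have h1 := (real_take hq hxF (hS4.2.2 hx'F.1) hxpre hb').1
    refine ⟨b.take (plc x), by rw [hR0def]; exact h1, ?_⟩
    rw [List.append_assoc]
    have hlen : b.length = plc q3.t := hb.2.2.1.1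
    have hd : b.drop (plc x) = y ++ y2 := by
      apply list_ext_getD
      · rw [List.length_drop, hlen]; omega
      · intro p hp
        rw [List.length_drop, hlen] at hp
        have h2 : b.getD (plc x + p) 0 ∈ q4.V (plc x + p) :=
          hb.2.2.2 (plc x + p) (by rw [hS4.1]; omega) (by omega)
        rw [hV4 p (by omega), Finset.mem_singleton] at h2
        rw [← h2]
        simp [List.getD_eq_getElem?_getD, List.getElem?_drop]
    rw [← hd, List.take_append_drop]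
  have hg4 : Good (q4.cone q3.t) := cone_good hq4 hx'F.1
  refine ⟨q4, κ4, q3.t, hq4, hreach, ?_, ?_, ?_⟩
  · intro z hz hzκ b hb
    rcases (hiff z).1 ⟨hz, hzκ⟩ with rfl | ⟨hzq, hzκ', hne⟩
    · obtain ⟨b0, hb0, rfl⟩ := hreal b hb
      exact HasLim.leS hq3 hg4 (hR3p b0 hb0) hle4 (hlim3 _ ⟨b0, hb0, rfl⟩)
    · have hb' := real_leS hS4 hq hq4 hz hb
      exact HasLim.leS (cone_good hq hzq) (cone_good hq4 hz) hb'.2.2.1
        (cone_leS_cone hS4 hq hzq) (hL z hzq hzκ' b hb')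
  · refine ⟨l, fun A B A' B' hAB hAB' hBx hBx' => ?_⟩
    obtain ⟨hbr, hre⟩ := Br.cone hq4 hAB hx'F.1 hBx
    obtain ⟨b0, hb0, hb0eq⟩ := hreal _ hre
    rw [hb0eq] at hbr
    have hbr3 : Br q3 ((b0 ++ y) ++ y2) A B := Br.of_leS hq3 hle4 hbr
    have hbr1 : Br q1 (b0 ++ y) A B :=
      Br.of_leP hq1 (hR1p b0 hb0) ⟨y2, rfl, hle13⟩ hbr3
    -- the last fat node of `B'`
    have hT : {z | z ∈ q4.F ∧ plc z ≤ κ4 ∧ Thru B' z}.Finite :=
      (hq4.finite_le κ4).subset (fun z hz => ⟨hz.1, hz.2.1⟩)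
    have hTne : {z | z ∈ q4.F ∧ plc z ≤ κ4 ∧ Thru B' z}.Nonempty :=
      ⟨q4.t, hq4.stem, hcut4.1, Br.thru_stem hAB'⟩
    obtain ⟨z, ⟨hz4, hzκ4, hzB⟩, hzmax⟩ := Set.exists_max_image _ (fun z => plc z) hT hTne
    have hzne : z ≠ q3.t := fun h => hBx' (h ▸ hzB)
    obtain ⟨hzq, hzκ, -⟩ : z ∈ q.F ∧ plc z ≤ κ ∧ z ≠ x :=
      ((hiff z).1 ⟨hz4, hzκ4⟩).resolve_left hzne
    obtain ⟨y', hy'4, hy'B, hgap⟩ := Br.succ hq4 hAB' hz4 hzB
    have hss := Br.sstep hq4 hAB' hz4 hzB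
    have hlast : κ4 ≤ plc z + (B' z.length).u.length := by
      by_contra hcon
      have h1 : plc (z ++ [B' z.length]) ≤ κ4 := by
        rw [plc_append, plc_singleton]; omega
      have h2 := hq4.cut_succ hcut4 hz4 hss hy'4 hgap h1
      have h3 : plc y' ≤ plc z := hzmax y' ⟨hy'4, h2, hy'B⟩
      have h4 := plc_mono hgap.1
      rw [plc_append, plc_singleton] at h4
      omega
    have hABq : Br q a A' B' := Br.of_leS hq hS4 hAB'
    obtain ⟨hbrz, hrez⟩ := Br.cone hq hABq hzq hzB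
    have htz : plc q.t ≤ plc z := plc_mono (hq.above z hzq)
    have hA'q : ∀ p, plc q.t ≤ p → A' p ∈ q.V p := hABq.2.2.2.1
    have hA'4 : ∀ p, plc q.t ≤ p → A' p ∈ q4.V p := fun p hp =>
      hAB'.2.2.2.1 p (by rw [hS4.1]; exact hp)
    -- the germ
    obtain ⟨u, hudef⟩ : ∃ u : List H, u = (List.range (κ - plc z)).map (fun i => A' (plc z + i)) :=
      ⟨_, rfl⟩
    have hu : ∀ i, i < κ - plc z → u.getD i 0 = A' (plc z + i) := by
      intro i hi
      rw [hudef]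
      simp [List.getD_eq_getElem?_getD, hi]
    have hgerm : ((z, preA A' (plc z), u) : Node × List H × List H) ∈ S := by
      rw [hSdef]
      refine ⟨hzq, hzκ, hrez, ?_, ?_⟩
      · simp [hudef]
      · intro i hi
        show u.getD i 0 ∈ q.V (plc z + i)
        rw [hu i hi]
        exact hA'q _ (by omega)
    have h1 : ∃ e : Bool, ∀ i, i < l →
        f A' B' i = rr (⟨(z, preA A' (plc z), u), hgerm⟩, e) A' i := by
      refine ⟨decide (A' (plc z + (B' z.length).u.length) = (B' z.length).w), ?_⟩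
      intro i hi
      rw [(hrm z (preA A' (plc z)) hzq hzκ hrez l).2 A' B' hbrz
        ((hbd z _ hzq hzκ hrez).trans (hbκ.trans hlast)) i hi, hrrdef]
      refine (hrm z (preA A' (plc z)) hzq hzκ hrez l).1 _ _ _ ?_ ?_ ?_ i hi
      · intro p hp
        exact hA'q p (by omega)
      · intro p hp
        by_cases hpκ : p < κ
        · simp only [hpκ, if_true]
          rw [hu _ (by omega), Nat.add_sub_cancel' hp]
          exact hA'q p (by omega)
        · simp only [hpκ, if_false]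
          exact hA'q p (by omega)
      · intro p hp _
        by_cases hpκ : p < κ
        · simp only [hpκ, if_true]
          rw [hu _ (by omega), Nat.add_sub_cancel' hp]
        · simp only [hpκ, if_false]
    obtain ⟨e, h1⟩ := h1
    have hy1 : ∀ j, j < y.length → A' (plc (q.cone x).t + j) = y.getD j 0 := by
      intro j hj
      have h2 := hA'4 (plc x + j) (by omega)
      rw [hV4 j (by rw [List.length_append]; omega), Finset.mem_singleton,
        List.getD_append _ _ _ _ hj] at h2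
      exact h2
    have hX1 : InX q1.V (plc q1.t) A' := by
      intro p hp
      by_cases hp3 : p < plc q3.t
      · have h2 := hA'4 p (by omega)
        have h3 := hle13.2.2.1 (p - plc q1.t) (by omega)
        have hp4 : p = plc x + (p - plc x) := by omega
        rw [hp4, hV4 (p - plc x) (by rw [List.length_append]; omega), Finset.mem_singleton,
          List.getD_append_right _ _ _ _ (by omega)] at h2
        rw [show p - plc x - y.length = p - plc q1.t by omega, ← hp4] at h2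
        rw [h2]
        have h4 := h3.1
        rwa [Nat.add_sub_cancel' hp] at h4
      · have h2 := hA'4 p (by omega)
        exact hle13.2.2.2.1 p (by omega) (hle4.2.1 p (by omega) h2)
    obtain ⟨j, hj, hne⟩ := hdev b0 hb0 (⟨_, hgerm⟩, e) A B A' hbr1 hy1 hX1
    exact ⟨j, hj, by rw [h1 j hj]; exact hne⟩
  · intro hFB b hb
    obtain ⟨b0, hb0, rfl⟩ := hreal b hb
    exact SEPn.leS hq3 hg4 (hR3p b0 hb0) hle4
      (SEPn.leS hq2 hq3 (hR2p b0 hb0) hle3 (hsep hFB b0 hb0))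

end Helper99.TT
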