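import Pool.Agent.Helper99.TT.Sec6D

/-! TT-E1: section 6, Step 1 for one node. -/

set_option autoImplicit false

namespace Helper99.TT

/-- Step 1 of section 6 for one node: make it have limits. -/
theorem limNode {f : Fn} {q : Cond} (hq : Good q) {a : List H} (ha : IsPiece q.t a)
    (hf : Cont f q a) {κ : ℕ} (hc : Cut q κ) {x : Node} (hx : Leaf q κ x) :
    ∃ q' κ', Good q' ∧ Reach q κ x q' κ' x ∧ ∀ b, IsReal q' a x b → HasLim f (q'.cone x) b := by
  have hxF : x ∈ q.F := hx.1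
  obtain ⟨q1, hq1, hle1, hlim⟩ := limits (f := f) (cone_good hq hxF) {b | IsReal q a x b}
    (fun b hb => hb.2.2.1) (fun b hb => Cont.leP hq ha (cone_leP hq hxF hb) hf)
  have ht : q1.t = x := hle1.1
  obtain ⟨q2, hq2, κ', _, hR, hle2, _⟩ := reach_of_le (C := {q | Good q}) closed_good hq hq1 hc hx
    (le_nil_of_leS hle1 (cone_good hq hxF)) 0
  rw [ht] at hR hle2
  have hx2 : x ∈ q2.F := ((hR.2.2.2.2.2.2 x).2 (Or.inl rfl)).1
  refine ⟨q2, κ', hq2, hR, fun b hb => ?_⟩
  have hb' : IsReal q a x b := real_leS hR.1 hq hq2 hx2 hb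
  exact HasLim.leS hq1 (cone_good hq2 hx2) (by rw [ht]; exact hb'.2.2.1) hle2 (hlim b hb')

end Helper99.TT
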