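import Pool.Agent.Helper99.TT.Sec6A
import Pool.Agent.Helper99.TT.Sec6L

/-! TT-E3: one stage of section 6. -/

set_option autoImplicit false

namespace Helper99.TT

/-- one stage of section 6 -/
theorem decodeStage {f : Fn} {q : Cond} (hq : Good q) {a : List H} (ha : IsPiece q.t a)
    (hf : Cont f q a) (hFA : ∀ a' q', Good q' → LeP a' q' a q → ¬ FA f q' a') {κ : ℕ}
    (hc : Cut q κ) (hL : LimInv f a q κ) (l : ℕ) :
    ∃ q' κ', Good q' ∧ LeK κ q' q ∧ κ < κ' ∧ Cut q' κ' ∧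
      (∃ m, κ ≤ m ∧ m < κ' ∧ Large l (q'.V m)) ∧ LimInv f a q' κ' ∧
      ∀ x ∈ q'.F, κ < plc x → plc x ≤ κ' → Decode f q' a x ∧
        ((∀ a' q', Good q' → LeP a' q' a q → ¬ FB f q' a') →
          ∀ b, IsReal q' a x b → SEPn f (q'.cone x) b) := by
  -- what passes to same-stem extensions of `q`
  have hP : ∀ q', LeK κ q' q → IsPiece q'.t a := fun q' h => by rw [h.1.1]; exact ha
  have hLP : ∀ q', LeK κ q' q → LeP a q' a q := fun q' h =>
    ⟨[], by simp, le_nil_of_leS h.1 hq⟩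
  -- heredity of limits
  have hlim : ∀ q1 q2 x, Good q1 → Good q2 → LeS q2 q1 → x ∈ q2.F →
      (∀ b, IsReal q1 a x b → HasLim f (q1.cone x) b) →
      ∀ b, IsReal q2 a x b → HasLim f (q2.cone x) b := by
    intro q1 q2 x h1 h2 hle hx h b hb
    have hx1 : x ∈ q1.F := hle.2.2 hx
    exact HasLim.leS (cone_good h1 hx1) (cone_good h2 hx) hb.2.2.1 (cone_leS_cone hle h1 hx1)
      (h b (real_leS hle h1 h2 hx hb))
  -- Step 0: the block
  obtain ⟨q1, hq1, κ1, m, hm1, -, hm2, hle1, hc1, hE, -, hfr1, -⟩ :=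
    block closed_good (q := q) hq hc (max 2 l) 0 (le_max_left _ _)
  -- Step 1: limits at the new nodes
  obtain ⟨q2, hq2, κ2, hle21, hκ2, hc2, hfr2, -, hV2, -, hL2⟩ :=
    pass closed_good q κ (fun _ _ => True)
      (fun q' x => ∀ b, IsReal q' a x b → HasLim f (q'.cone x) b)
      (fun q1 q2 x h1 h2 hle hx h => hlim q1 q2 x h1 h2 hle hx h)
      (by
        intro q' κ' x hg hle hc' _ hfr _ hx hx1 hx2
        obtain ⟨q'', κ'', hg'', hR, hlimx⟩ := limNode (f := f) (a := a) hg (hP q' hle)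
          (Cont.leS hq hle.1 hf) hc' (hfr x hx hx1 hx2)
        exact ⟨q'', hg'', κ'', x, hR, trivial, hlimx⟩)
      q1 κ1 hq1 hle1 hc1 (by omega) hfr1 trivial
  have hle2 : LeK κ q2 q := leK_trans le_rfl hle1 hle21
  have hInv2 : LimInv f a q2 κ2 := by
    intro x hx hxk
    by_cases hk : plc x ≤ κ
    · exact hlim q q2 x hq hq2 hle2.1 hx (hL x (hle2.1.2.2 hx) hk)
    · exact hL2 x hx (by omega) hxk
  -- Step 2: decode the new nodes
  obtain ⟨q3, hq3, κ3, hle32, hκ3, hc3, -, hInv3, hV3, -, hD3⟩ :=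
    pass closed_good q κ (fun q' κ' => LimInv f a q' κ')
      (fun q' x => IsPiece q'.t a ∧ Decode f q' a x ∧
        ((∀ a' q', Good q' → LeP a' q' a q → ¬ FB f q' a') →
          ∀ b, IsReal q' a x b → SEPn f (q'.cone x) b))
      (by
        rintro q1 q2 x h1 h2 hle hx ⟨hp, hd, hs⟩
        refine ⟨by rw [hle.1]; exact hp, Decode.leS h1 hp hle hd, fun hFB b hb => ?_⟩
        have hx1 : x ∈ q1.F := hle.2.2 hx
        exact SEPn.leS (cone_good h1 hx1) (cone_good h2 hx) hb.2.2.1 (cone_leS_cone hle h1 hx1)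
          (hs hFB b (real_leS hle h1 h2 hx hb)))
      (by
        intro q' κ' x hg hle hc' _ hfr hI hx hx1 hx2
        obtain ⟨q'', κ'', x', hg'', hR, hI'', hd, hs⟩ := decodeNode (f := f) (a := a) hg (hP q' hle)
          (Cont.leS hq hle.1 hf)
          (fun a' q'' h1 h2 => hFA a' q'' h1 (leP_trans hq hg (hLP q' hle) h2)) hc' hI
          (hfr x hx hx1 hx2)
        refine ⟨q'', hg'', κ'', x', hR, hI'', ?_, hd, fun hFB => hs fun a' q'' h1 h2 =>
          hFB a' q'' h1 (leP_trans hq hg (hLP q' hle) h2)⟩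
        rw [hR.1.1]
        exact hP q' hle)
      q2 κ2 hq2 hle2 hc2 (by omega) hfr2 hInv2
  have hle3 : LeK κ q3 q := leK_trans le_rfl hle2 hle32
  refine ⟨q3, κ3, hq3, hle3, by omega, hc3, ⟨m, hm1, by omega, ?_⟩, hInv3,
    fun x hx h1 h2 => (hD3 x hx h1 h2).2⟩
  rw [hV3 m (by omega), hV2 m hm2]
  exact Large_anti (le_max_right _ _) (Exact_large hE)

end Helper99.TT
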