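import Pool.Agent.Helper99.TT.Sec5B

/-! TT-E0: the invariant of section 6. -/

set_option autoImplicit false

namespace Helper99.TT

/-- the invariant (*): all fat nodes up to `κ` have limits, for all real pieces -/
def LimInv (f : Fn) (a : List H) (q : Cond) (κ : ℕ) : Prop :=
  ∀ x ∈ q.F, plc x ≤ κ → ∀ b, IsReal q a x b → HasLim f (q.cone x) b

end Helper99.TT
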