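import Pool.Agent.Helper99.TT.LemmaS
import Pool.Agent.Helper98.T.Thm7

/-! TT-F2: Theorem 7 (helper98). -/

set_option autoImplicit false

namespace Helper99.TT

theorem exactFrom_of_tidy {V : Fam} {k : ℕ} (h : Pool.Agent.Helper98.T.IsTidy k V) :
    ExactFrom V k := by
  intro p hp
  obtain ⟨N, e, h1, h2⟩ := h p hp
  rcases Nat.eq_zero_or_pos N with h0 | h0
  · left
    rw [h2.card, h0]
    simp
  · right
    exact ⟨N, by omega, e, h2⟩

/-- Theorem 7 -/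
theorem canonA (g : (ℕ → H) → ℕ → Bool) {V : Fam} (hV : IsX V)
    (hg : ∀ A, InX V 0 A → ∀ l : ℕ, ∃ m : ℕ, ∀ A', InX V 0 A' →
      (∀ p, p < m → A' p = A p) → ∀ i, i < l → g A' i = g A i) :
    ∃ V' : Fam, IsX V' ∧ (∀ p, V' p ⊆ V p) ∧ ExactFrom V' 0 ∧
      ((∀ A A', InX V' 0 A → InX V' 0 A' → g A = g A') ∨
        ∃ n : ℕ, ∀ A A', InX V' 0 A → InX V' 0 A' → (g A = g A' ↔ ∀ p, Eqv n (A p) (A' p))) := by
  obtain ⟨V', h1, h2, h3, h4⟩ := Pool.Agent.Helper98.T.theorem7 (isXX_of_isX hV 0)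
    (g := g) (by
      intro z hz j
      obtain ⟨m, hm⟩ := hg z hz (j + 1)
      exact ⟨m, fun z' hz' h => hm z' hz' h j (Nat.lt_succ_self j)⟩)
  refine ⟨V', isX_iff.2 ⟨fun i => h2.1 i (Nat.zero_le _), h2.2⟩, fun p => h1 p (Nat.zero_le _),
    exactFrom_of_tidy h3, h4⟩

end Helper99.TT
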